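import Pool.Agent.Helper10.MU.Stm

set_option autoImplicit false

open IsLocalRing

universe u

namespace Pool.Agent.Helper10.MU

section

variable {D : Type u} [CommRing D]

/-- the length of the quotient -/
noncomputable def ab1L (I : Ideal D) : ℕ∞ := Module.length D (D ⧸ I)

theorem ab1_add (I : Ideal D) (x y : D) :
    ab1L (I ⊔ Ideal.span {x * y}) ≤ ab1L (I ⊔ Ideal.span {x}) + ab1L (I ⊔ Ideal.span {y}) := by
  have h1 : I ⊔ Ideal.span {x * y} ≤ I ⊔ Ideal.span {x} := by
    refine sup_le le_sup_left (le_trans ?_ le_sup_right)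
    rw [Ideal.span_singleton_le_iff_mem]
    exact Ideal.mul_mem_right _ _ (Ideal.mem_span_singleton_self x)
  have h2 : I ⊔ Ideal.span {y} ≤ Submodule.comap (LinearMap.lsmul D D x) (I ⊔ Ideal.span {x * y}) := by
    refine sup_le ?_ ?_
    · intro a ha
      rw [Submodule.mem_comap, LinearMap.lsmul_apply, smul_eq_mul]
      exact Ideal.mem_sup_left (Ideal.mul_mem_left _ _ ha)
    · rw [Ideal.span_singleton_le_iff_mem]
      show x * y ∈ I ⊔ Ideal.span {x * y}
      exact Ideal.mem_sup_right (Ideal.mem_span_singleton_self _)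
  let g : (D ⧸ (I ⊔ Ideal.span {x * y})) →ₗ[D] (D ⧸ (I ⊔ Ideal.span {x})) :=
    Submodule.mapQ _ _ LinearMap.id h1
  let f : (D ⧸ (I ⊔ Ideal.span {y})) →ₗ[D] (D ⧸ (I ⊔ Ideal.span {x * y})) :=
    Submodule.mapQ _ _ (LinearMap.lsmul D D x) h2
  have hg : Function.Surjective g := by
    intro b
    obtain ⟨a, rfl⟩ := Submodule.mkQ_surjective _ b
    exact ⟨Submodule.mkQ _ a, rfl⟩
  have hk : LinearMap.ker g ≤ LinearMap.range f := by
    intro b hb
    obtain ⟨a, rfl⟩ := Submodule.mkQ_surjective _ b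
    have h3 : (Submodule.mkQ (I ⊔ Ideal.span {x}) a) = 0 := hb
    rw [Submodule.mkQ_apply, Submodule.Quotient.mk_eq_zero] at h3
    obtain ⟨c, hc, d, hd, rfl⟩ := Submodule.mem_sup.mp h3
    obtain ⟨t, rfl⟩ := Ideal.mem_span_singleton'.mp hd
    refine ⟨Submodule.mkQ _ t, ?_⟩
    show Submodule.mkQ (I ⊔ Ideal.span {x * y}) (x • t) = Submodule.mkQ (I ⊔ Ideal.span {x * y}) (c + t * x)
    rw [← sub_eq_zero, ← map_sub, Submodule.mkQ_apply, Submodule.Quotient.mk_eq_zero]
    have h4 : x • t - (c + t * x) = -c := by rw [smul_eq_mul]; ring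
    rw [h4]
    exact Ideal.mem_sup_left (I.neg_mem hc)
  have e1 : ab1L (I ⊔ Ideal.span {x * y}) = Module.length D (LinearMap.ker g) +
      ab1L (I ⊔ Ideal.span {x}) :=
    Module.length_eq_add_of_exact (LinearMap.ker g).subtype g (Submodule.subtype_injective _) hg
      (LinearMap.exact_subtype_ker_map g)
  have e2 : Module.length D (LinearMap.ker g) ≤ Module.length D (LinearMap.range f) :=
    Module.length_le_of_injective (Submodule.inclusion hk) (Submodule.inclusion_injective hk)
  have e3 : Module.length D (LinearMap.range f) ≤ ab1L (I ⊔ Ideal.span {y}) :=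
    Module.length_le_of_surjective f.rangeRestrict f.surjective_rangeRestrict
  rw [e1, add_comm]
  exact add_le_add (le_refl _) (e2.trans e3)

theorem ab1_pow (I : Ideal D) (y : D) (a : ℕ) :
    ab1L (I ⊔ Ideal.span {y ^ a}) ≤ (a : ℕ∞) * ab1L (I ⊔ Ideal.span {y}) := by
  induction a with
  | zero =>
    have h1 : I ⊔ Ideal.span {y ^ 0} = ⊤ := by
      rw [pow_zero, Ideal.span_singleton_one, sup_top_eq]
    have h2 : ab1L (⊤ : Ideal D) = 0 := Module.length_eq_zero_iff.mpr
      (Submodule.Quotient.subsingleton_iff.mpr rfl)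
    rw [h1, h2]
    exact bot_le
  | succ a ih =>
    rw [pow_succ, Nat.cast_succ, add_mul, one_mul]
    exact (ab1_add I (y ^ a) y).trans (add_le_add ih (le_refl _))

theorem ab1_pows (a : ℕ) (t : Finset D) : ∀ I : Ideal D,
    ab1L (I ⊔ Ideal.span ((fun z => z ^ a) '' (t : Set D))) ≤
      ((a ^ t.card : ℕ) : ℕ∞) * ab1L (I ⊔ Ideal.span (t : Set D)) := by
  classical
  induction t using Finset.induction_on with
  | empty => intro I; simp
  | insert y t hy ih =>
    intro I
    rw [Finset.coe_insert, Set.image_insert_eq, Ideal.span_insert, Ideal.span_insert,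
      Finset.card_insert_of_notMem hy, ← sup_assoc]
    refine (ih _).trans ?_
    have e1 : I ⊔ Ideal.span {y ^ a} ⊔ Ideal.span (t : Set D) =
        (I ⊔ Ideal.span (t : Set D)) ⊔ Ideal.span {y ^ a} := sup_right_comm _ _ _
    have e2 : I ⊔ (Ideal.span {y} ⊔ Ideal.span (t : Set D)) =
        (I ⊔ Ideal.span (t : Set D)) ⊔ Ideal.span {y} := by
      rw [← sup_assoc, sup_right_comm]
    rw [e1, e2, pow_succ, Nat.cast_mul, mul_assoc]
    exact mul_le_mul_right (ab1_pow _ _ _) _

/-- a chain of ideals over `J` -/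
theorem ab1_chain : ∀ (n : ℕ) (S : Finset (Ideal D)) (J : Ideal D), S.card = n + 1 →
    (∀ I ∈ S, J ≤ I) → (∀ I ∈ S, ∀ I' ∈ S, I ≤ I' ∨ I' ≤ I) → (n : ℕ∞) ≤ Order.coheight J := by
  classical
  intro n
  induction n with
  | zero => intro S J _ _ _; simp
  | succ n ih =>
    intro S J hS hJ hc
    have hmin : ∀ T : Finset (Ideal D), T ⊆ S → T.Nonempty → ∃ I ∈ T, ∀ I' ∈ T, I ≤ I' := by
      intro T hT hne
      obtain ⟨I, hI, hm⟩ := T.exists_minimal hne
      refine ⟨I, hI, fun I' hI' => ?_⟩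
      rcases hc I (hT hI) I' (hT hI') with h | h
      · exact h
      · exact hm hI' h
    obtain ⟨I₀, hI₀, h0⟩ := hmin S (le_refl _) (Finset.card_pos.mp (by omega))
    have hcard : (S.erase I₀).card = n + 1 := by
      rw [Finset.card_erase_of_mem hI₀]; omega
    obtain ⟨I₁, hI₁, h1⟩ := hmin (S.erase I₀) (Finset.erase_subset _ _)
      (Finset.card_pos.mp (by omega))
    have hlt : I₀ < I₁ := lt_of_le_of_ne (h0 I₁ (Finset.mem_of_mem_erase hI₁))
      (Finset.ne_of_mem_erase hI₁).symm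
    have h2 := ih (S.erase I₀) I₁ hcard h1 (fun I hI I' hI' =>
      hc I (Finset.mem_of_mem_erase hI) I' (Finset.mem_of_mem_erase hI'))
    have h3 : Order.coheight I₁ + 1 ≤ Order.coheight J :=
      Order.coheight_add_one_le (lt_of_le_of_lt (hJ I₀ hI₀) hlt)
    push_cast
    exact (add_le_add h2 (le_refl _)).trans h3

end

theorem ab1_arith {e d K : ℕ} (h : ∀ m : ℕ, (m + 1) ^ e ≤ 1 + K * m ^ d) : e ≤ d := by
  by_contra hlt
  push Not at hlt
  have h1 := h (K + 1)
  have h2 : (K + 1 + 1) ^ (d + 1) ≤ (K + 1 + 1) ^ e := Nat.pow_le_pow_right (by omega) hlt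
  have h3 : (K + 1) ^ d ≤ (K + 1 + 1) ^ d := Nat.pow_le_pow_left (by omega) d
  have h4 : 1 ≤ (K + 1) ^ d := Nat.one_le_pow _ _ (by omega)
  have h5 : (K + 1 + 1) ^ (d + 1) = (K + 1 + 1) * (K + 1 + 1) ^ d := pow_succ' _ _
  have h6 : (K + 1 + 1) * (K + 1) ^ d ≤ (K + 1 + 1) * (K + 1 + 1) ^ d :=
    Nat.mul_le_mul_left _ h3
  have h7 : (K + 1 + 1) * (K + 1) ^ d = K * (K + 1) ^ d + 2 * (K + 1) ^ d := by ring
  omega

theorem ab1_ne {W : Type u} [CommRing W] {e : ℕ} {x : Fin e → W} (h : Ind x) (i : Fin e) :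
    x i ≠ 0 := by
  classical
  intro h0
  have hm : ∀ k : ℕ, mon x (Pi.single i (k + 1)) = 0 := by
    intro k
    unfold mon
    apply Finset.prod_eq_zero (Finset.mem_univ i)
    rw [h0, Pi.single_eq_same, pow_succ, mul_zero]
  have h1 := h (Pi.single i (0 + 1)) (Pi.single i (1 + 1)) (by rw [hm, hm]; exact Associated.refl _)
  have h2 := congrFun h1 i
  rw [Pi.single_eq_same, Pi.single_eq_same] at h2
  omega

theorem ab1 : S_AB1.{u} := by
  classical
  intro D W _ _ _ _ _ _ _ hA f hf hloc e x hx hI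
  obtain ⟨s, hs, hcard⟩ := Ideal.exists_finset_card_eq_height_of_isNoetherianRing (maximalIdeal D)
  rw [← IsLocalRing.maximalIdeal_height_eq_ringKrullDim, ← hcard]
  have hle : Ideal.span (s : Set D) ≤ maximalIdeal D := hs.1.2
  have hfin : ab1L (Ideal.span (s : Set D)) ≠ ⊤ := by
    have : IsArtinianRing (D ⧸ Ideal.span (s : Set D)) :=
      IsLocalRing.quotient_artinian_of_mem_minimalPrimes_of_isLocalRing _ hs
    have h1 : Module.length D (D ⧸ Ideal.span (s : Set D)) =
        Module.length (D ⧸ Ideal.span (s : Set D)) (D ⧸ Ideal.span (s : Set D)) :=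
      Module.length_eq_of_surjective Ideal.Quotient.mk_surjective
    unfold ab1L
    rw [h1]
    exact Module.length_ne_top
  obtain ⟨l, hl⟩ := ENat.ne_top_iff_exists.mp hfin
  -- the common exponent
  set b : W := ∏ i, f (x i) with hb
  have hb0 : b ≠ 0 := Finset.prod_ne_zero_iff.mpr fun i _ => ab1_ne hI i
  have hC : ∃ C : ℕ, ∀ y ∈ s, b ∣ f y ^ C := by
    have h1 : ∀ y ∈ s, ∃ n : ℕ, b ∣ f y ^ n := fun y hy =>
      hA (f y) ((hloc y).mp (hle (Ideal.subset_span hy))) b hb0
    choose! c hc using h1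
    refine ⟨∑ y ∈ s, c y, fun y hy => (hc y hy).trans (pow_dvd_pow _ ?_)⟩
    exact Finset.single_le_sum (fun _ _ => Nat.zero_le _) hy
  obtain ⟨C, hC⟩ := hC
  have key : ∀ m : ℕ, (m + 1) ^ e ≤ 1 + (C ^ s.card * l) * m ^ s.card := by
    intro m
    set J : Ideal D := Ideal.span ((fun z => z ^ (C * m)) '' (s : Set D)) with hJ
    have hJle : ab1L J ≤ (((C * m) ^ s.card : ℕ) : ℕ∞) * (l : ℕ∞) := by
      have h1 := ab1_pows (C * m) s (⊥ : Ideal D)
      rw [bot_sup_eq, bot_sup_eq, ← hl] at h1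
      exact h1
    let Iα : (Fin e → Fin (m + 1)) → Ideal D := fun α =>
      (Ideal.span {mon (fun i => f (x i)) (fun i => (α i : ℕ))}).comap f
    have hIα : ∀ α d, d ∈ Iα α ↔ mon (fun i => f (x i)) (fun i => (α i : ℕ)) ∣ f d := by
      intro α d
      show f d ∈ Ideal.span _ ↔ _
      rw [Ideal.mem_span_singleton]
    have hmonf : ∀ α : Fin e → ℕ, mon (fun i => f (x i)) α = f (mon x α) := by
      intro α
      unfold mon
      rw [map_prod]
      simp only [map_pow]
    have hself : ∀ α β : Fin e → Fin (m + 1), Iα α ≤ Iα β →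
        mon (fun i => f (x i)) (fun i => (β i : ℕ)) ∣ mon (fun i => f (x i)) (fun i => (α i : ℕ)) := by
      intro α β h1
      have h2 : mon x (fun i => (α i : ℕ)) ∈ Iα α := by
        rw [hIα, hmonf]
      have h3 := h1 h2
      rw [hIα, ← hmonf] at h3
      exact h3
    have hinj : Function.Injective Iα := by
      intro α β h1
      have h2 := associated_of_dvd_dvd (hself β α h1.ge) (hself α β h1.le)
      have h3 := hI _ _ h2
      funext i
      exact Fin.ext (congrFun h3 i)
    have hn : (Finset.univ.image Iα).card = ((m + 1) ^ e - 1) + 1 := by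
      rw [Finset.card_image_of_injective _ hinj, Finset.card_univ, Fintype.card_fun,
        Fintype.card_fin, Fintype.card_fin]
      have : 1 ≤ (m + 1) ^ e := Nat.one_le_pow _ _ (by omega)
      omega
    have h4 := ab1_chain _ (Finset.univ.image Iα) J hn ?_ ?_
    · have h5 : Order.coheight J = ab1L J := Module.length_quotient.symm
      rw [h5] at h4
      have h6 := h4.trans hJle
      have h7 : (m + 1) ^ e - 1 ≤ (C * m) ^ s.card * l := by exact_mod_cast h6
      rw [mul_pow] at h7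
      have h8 : C ^ s.card * m ^ s.card * l = (C ^ s.card * l) * m ^ s.card := by ring
      rw [h8] at h7
      omega
    · intro I hI'
      obtain ⟨α, _, rfl⟩ := Finset.mem_image.mp hI'
      rw [hJ, Ideal.span_le]
      rintro _ ⟨y, hy, rfl⟩
      show y ^ (C * m) ∈ Iα α
      rw [hIα, map_pow, pow_mul]
      have h5 : mon (fun i => f (x i)) (fun i => (α i : ℕ)) ∣ b ^ m := by
        unfold mon
        rw [hb, ← Finset.prod_pow]
        exact Finset.prod_dvd_prod_of_dvd _ _ fun i _ =>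
          pow_dvd_pow _ (Nat.lt_succ_iff.mp (α i).2)
      exact h5.trans (pow_dvd_pow_of_dvd (hC y hy) m)
    · intro I hI1 I' hI2
      obtain ⟨α, _, rfl⟩ := Finset.mem_image.mp hI1
      obtain ⟨β, _, rfl⟩ := Finset.mem_image.mp hI2
      rcases ValuationRing.dvd_total (mon (fun i => f (x i)) (fun i => (α i : ℕ)))
        (mon (fun i => f (x i)) (fun i => (β i : ℕ))) with h1 | h1
      · right
        intro d hd
        rw [hIα] at hd ⊢
        exact h1.trans hd
      · left
        intro d hd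
        rw [hIα] at hd ⊢
        exact h1.trans hd
  have := ab1_arith key
  exact_mod_cast this

end Pool.Agent.Helper10.MU
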