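import Pool.Agent.Helper10.MU.Stm

/-!
# Project MU, module ABH
-/

set_option autoImplicit false
set_option linter.unusedSectionVars false

open scoped TensorProduct
open IsLocalRing

universe u

namespace Pool.Agent.Helper10.MU

/-- `height Q + height (P / Q) ≤ height P`. -/
theorem abh_height {B : Type u} [CommRing B] (Q : Ideal B) [Q.IsPrime] :
    ∀ (n : ℕ) (P : Ideal (B ⧸ Q)) [P.IsPrime], (n : ℕ∞) ≤ P.height →
      Q.height + (n : ℕ∞) ≤ (P.comap (Ideal.Quotient.mk Q)).height := by
  intro n
  induction n with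
  | zero =>
    intro P _ _
    rw [Nat.cast_zero, add_zero]
    refine Ideal.height_mono ?_
    intro b hb
    rw [Ideal.mem_comap, Ideal.Quotient.eq_zero_iff_mem.mpr hb]
    exact Ideal.zero_mem _
  | succ n ih =>
    intro P _ hP
    have h1 : ¬ P.height ≤ (n : ℕ∞) := by
      intro h
      have h2 := hP.trans h
      have h3 : n + 1 ≤ n := by exact_mod_cast h2
      omega
    rw [Ideal.height_le_iff] at h1
    push Not at h1
    obtain ⟨P', hP', hlt, h2⟩ := h1
    have h3 := ih P' h2
    have hlt' : P'.comap (Ideal.Quotient.mk Q) < P.comap (Ideal.Quotient.mk Q) := by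
      refine lt_of_le_of_ne (Ideal.comap_mono hlt.le) ?_
      intro heq
      exact hlt.ne (Ideal.comap_injective_of_surjective _ Ideal.Quotient.mk_surjective heq)
    have h4 := Ideal.height_add_one_le_of_lt_of_isPrime hlt'
    calc Q.height + ((n + 1 : ℕ) : ℕ∞) = Q.height + (n : ℕ∞) + 1 := by
          push_cast
          rw [add_assoc]
      _ ≤ (P'.comap (Ideal.Quotient.mk Q)).height + 1 := by gcongr
      _ ≤ _ := h4

/-- The local ring of `B / ker f` at the prime of `f`. -/
theorem abh_loc (B W : Type u) [CommRing B] [IsNoetherianRing B] [CommRing W] [IsDomain W]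
    [ValuationRing W] (f : B →+* W) :
    ∃ (D : Type u) (_ : CommRing D) (_ : IsDomain D) (_ : IsLocalRing D) (_ : IsNoetherianRing D)
      (φ : B →+* D) (g : D →+* W), Function.Injective g ∧ (∀ b, g (φ b) = f b) ∧
      (∀ d, d ∈ maximalIdeal D ↔ g d ∈ maximalIdeal W) ∧
      (∀ d, ∃ b s, IsUnit (f s) ∧ φ s * d = φ b) ∧
      ∀ n : ℕ, ((n : ℕ∞) : WithBot ℕ∞) ≤ ringKrullDim D →
        (RingHom.ker f).height + (n : ℕ∞) ≤ ((maximalIdeal W).comap f).height := by
  have hQ : (RingHom.ker f).IsPrime := RingHom.ker_isPrime f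
  let f' : B ⧸ RingHom.ker f →+* W := RingHom.kerLift f
  have hf' : Function.Injective f' := RingHom.kerLift_injective f
  let P : Ideal (B ⧸ RingHom.ker f) := (maximalIdeal W).comap f'
  have hP : P.IsPrime := Ideal.comap_isPrime _ _
  have hu : ∀ y : P.primeCompl, IsUnit (f' y) := by
    intro y
    by_contra h
    exact y.2 ((mem_maximalIdeal _).mpr h)
  let g : Localization.AtPrime P →+* W := IsLocalization.lift hu
  have hg : ∀ x, g (algebraMap _ (Localization.AtPrime P) x) = f' x := fun x =>
    IsLocalization.lift_eq hu x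
  have hgi : Function.Injective g := by
    rw [injective_iff_map_eq_zero]
    intro d hd
    obtain ⟨⟨b, s⟩, hbs⟩ := IsLocalization.surj P.primeCompl d
    have h1 : g (d * algebraMap _ _ (s : B ⧸ RingHom.ker f)) = f' b := by
      rw [hbs, hg]
    rw [map_mul, hd, zero_mul] at h1
    have h2 : b = 0 := hf' (by rw [map_zero]; exact h1.symm)
    have h3 : d * algebraMap _ _ (s : B ⧸ RingHom.ker f) = 0 := by
      rw [hbs, h2, map_zero]
    exact ((IsLocalization.map_units (Localization.AtPrime P) s).mul_left_eq_zero).mp h3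
  refine ⟨Localization.AtPrime P, inferInstance, hgi.isDomain g, inferInstance,
    IsLocalization.isNoetherianRing P.primeCompl _ inferInstance,
    (algebraMap _ _).comp (Ideal.Quotient.mk (RingHom.ker f)), g, hgi, ?_, ?_, ?_, ?_⟩
  · intro b
    rw [RingHom.comp_apply, hg]
    rfl
  · intro d
    constructor
    · intro hd
      rw [mem_maximalIdeal, mem_nonunits_iff]
      intro hgd
      obtain ⟨⟨b, s⟩, hbs⟩ := IsLocalization.surj P.primeCompl d
      have h1 : g (d * algebraMap _ _ (s : B ⧸ RingHom.ker f)) = f' b := by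
        rw [hbs, hg]
      have h2 : IsUnit (f' b) := by
        rw [← h1, map_mul, hg]
        exact hgd.mul (hu s)
      have h3 : b ∈ P.primeCompl := by
        intro hb
        exact (mem_maximalIdeal _).mp hb h2
      have h4 : IsUnit (d * algebraMap _ _ (s : B ⧸ RingHom.ker f)) := by
        rw [hbs]
        exact IsLocalization.map_units (Localization.AtPrime P) (⟨b, h3⟩ : P.primeCompl)
      exact (mem_maximalIdeal _).mp hd (isUnit_of_mul_isUnit_left h4)
    · intro hd
      rw [mem_maximalIdeal, mem_nonunits_iff] at hd ⊢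
      exact fun h => hd (h.map g)
  · intro d
    obtain ⟨⟨b, s⟩, hbs⟩ := IsLocalization.surj P.primeCompl d
    obtain ⟨b', rfl⟩ := Ideal.Quotient.mk_surjective b
    obtain ⟨⟨s', hs'⟩, rfl⟩ : ∃ t : {t : B // Ideal.Quotient.mk (RingHom.ker f) t ∈ P.primeCompl},
        (⟨Ideal.Quotient.mk (RingHom.ker f) t.1, t.2⟩ : P.primeCompl) = s := by
      obtain ⟨s0, hs0⟩ := s
      obtain ⟨t, rfl⟩ := Ideal.Quotient.mk_surjective s0
      exact ⟨⟨t, hs0⟩, rfl⟩
    refine ⟨b', s', hu ⟨_, hs'⟩, ?_⟩
    rw [RingHom.comp_apply, RingHom.comp_apply, mul_comm]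
    exact hbs
  · intro n hn
    rw [IsLocalization.AtPrime.ringKrullDim_eq_height P (Localization.AtPrime P)] at hn
    have h1 : (n : ℕ∞) ≤ P.height := by exact_mod_cast hn
    exact abh_height (RingHom.ker f) n P h1

theorem abh (h1 : S_AB1.{u}) : S_ABH.{u} := by
  intro B W _ _ _ _ _ hA f e x hx hI
  obtain ⟨D, _, _, _, _, φ, g, hg, hφ, hm, -, hh⟩ := abh_loc B W f
  refine hh e (h1 D W hA g hg hm e (fun i => φ (x i)) ?_ ?_)
  · intro i
    rw [hm, hφ]
    exact hx i
  · simpa only [hφ] using hI

end Pool.Agent.Helper10.MU
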