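import Pool.Agent.Helper7.LU.Ten

/-!
# Uniformization of formally monomial valuations: definitions and statements of the modules
-/

set_option autoImplicit false
set_option linter.unusedSectionVars false

open scoped TensorProduct
open IsLocalRing

universe u

namespace Pool.Agent.Helper10.MU

open Pool.Agent.Helper7.LU (psi inc)

/-! ## Monomials -/

/-- The monomial with exponents `α`. -/
def mon {M : Type u} [CommMonoid M] {e : ℕ} (x : Fin e → M) (α : Fin e → ℕ) : M := ∏ i, x i ^ α i

/-- Different monomials have different values. -/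
def Ind {M : Type u} [CommMonoid M] {e : ℕ} (x : Fin e → M) : Prop :=
  ∀ α β : Fin e → ℕ, Associated (mon x α) (mon x β) → α = β

/-- The rank is at most one. -/
def Arch (W : Type u) [CommRing W] [IsLocalRing W] : Prop :=
  ∀ a ∈ maximalIdeal W, ∀ b : W, b ≠ 0 → ∃ n : ℕ, b ∣ a ^ n

/-- One step: `x j = x i * y` is replaced by `y`. -/
def Move {V : Type u} [CommRing V] [IsLocalRing V] {e : ℕ} (x x' : Fin e → V) : Prop :=
  ∃ i j : Fin e, i ≠ j ∧ ∃ y ∈ maximalIdeal V, x j = x i * y ∧ x' = Function.update x j y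

/-- Finitely many steps. -/
def Reach {V : Type u} [CommRing V] [IsLocalRing V] {e : ℕ} : (Fin e → V) → (Fin e → V) → Prop :=
  Relation.ReflTransGen Move

/-! ## Rings with a homomorphism to a local ring -/

/-- The elements that are in the ideal `I` up to elements whose image is a unit. -/
def sat {B W : Type u} [CommRing B] [CommRing W] (f : B →+* W) (I : Ideal B) : Ideal B where
  carrier := {b | ∃ s, IsUnit (f s) ∧ s * b ∈ I}
  zero_mem' := ⟨1, by simp, by simp⟩
  add_mem' := by
    rintro a b ⟨s, hs, ha⟩ ⟨t, ht, hb⟩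
    refine ⟨s * t, by rw [map_mul]; exact hs.mul ht, ?_⟩
    have h1 : s * t * (a + b) = t * (s * a) + s * (t * b) := by ring
    rw [h1]
    exact Ideal.add_mem _ (Ideal.mul_mem_left _ _ ha) (Ideal.mul_mem_left _ _ hb)
  smul_mem' := by
    rintro c a ⟨s, hs, ha⟩
    refine ⟨s, hs, ?_⟩
    have h1 : s * (c • a) = c * (s * a) := by
      rw [smul_eq_mul]
      ring
    rw [h1]
    exact Ideal.mul_mem_left _ _ ha

theorem mem_sat {B W : Type u} [CommRing B] [CommRing W] {f : B →+* W} {I : Ideal B} {b : B} :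
    b ∈ sat f I ↔ ∃ s, IsUnit (f s) ∧ s * b ∈ I := Iff.rfl

theorem le_sat {B W : Type u} [CommRing B] [CommRing W] (f : B →+* W) (I : Ideal B) : I ≤ sat f I :=
  fun b hb => ⟨1, by simp, by simpa using hb⟩

theorem sat_mono {B W : Type u} [CommRing B] [CommRing W] (f : B →+* W) {I J : Ideal B} (h : I ≤ J) :
    sat f I ≤ sat f J := by
  rintro b ⟨s, hs, hb⟩
  exact ⟨s, hs, h hb⟩

theorem sat_sat {B W : Type u} [CommRing B] [CommRing W] (f : B →+* W) (I : Ideal B) :
    sat f (sat f I) ≤ sat f I := by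
  rintro b ⟨s, hs, t, ht, hb⟩
  exact ⟨t * s, by rw [map_mul]; exact ht.mul hs, by rwa [mul_assoc]⟩

/-- The ideal of the elements with image in the maximal ideal is generated by the `x i`, modulo the kernel and
up to elements whose image is a unit. -/
def Par {B W : Type u} [CommRing B] [CommRing W] [IsLocalRing W] (f : B →+* W) {e : ℕ} (x : Fin e → B) :
    Prop :=
  ∀ b : B, f b ∈ maximalIdeal W → b ∈ sat f (Ideal.span (Set.range x) ⊔ RingHom.ker f)

/-! ## Valuation rings -/

/-- The relations of the local ring `R`, its completion `S`, the valuation ring `V` and the larger valuation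
ring `W`. -/
structure IsData (R V S W : Type u) [CommRing R] [IsLocalRing R] [CommRing V] [IsDomain V] [ValuationRing V]
    [CommRing S] [CommRing W] [IsDomain W] [ValuationRing W] [Algebra R V] [Algebra R S] [Algebra V W] :
    Prop where
  approx : ∀ (n : ℕ) (s : S), ∃ r : R, s - algebraMap R S r ∈ (maximalIdeal R ^ n).map (algebraMap R S)
  proj : ∀ n : ℕ, Nonempty (S →ₐ[R] R ⧸ maximalIdeal R ^ n)
  inj : Function.Injective (algebraMap V W)
  div : ∀ v v' : V, algebraMap V W v ∣ algebraMap V W v' → v ∣ v'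
  dom : ∀ r ∈ maximalIdeal R, algebraMap R V r ∈ maximalIdeal V
  arch : Arch W
  small : ∀ w : W, w ≠ 0 → ∃ n : ℕ, ∀ r ∈ maximalIdeal R ^ n, w ∣ algebraMap V W (algebraMap R V r)

theorem map_algHom {R X Y : Type u} [CommRing R] [CommRing X] [CommRing Y] [Algebra R X] [Algebra R Y]
    (f : X →ₐ[R] Y) (I : Ideal R) : (I.map (algebraMap R X)).map f = I.map (algebraMap R Y) :=
  Pool.Agent.Helper7.LU.map_algHom f I

section

variable {R V S W : Type u} [CommRing R] [CommRing V] [IsDomain V] [ValuationRing V] [CommRing S]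
  [CommRing W] [IsDomain W] [ValuationRing W]
  [Algebra R V] [Algebra R S] [Algebra V W] [Algebra R W] [Algebra S W] [IsScalarTower R S W]
  [IsScalarTower R V W]

/-- The homomorphism from `S ⊗ A` to `W`. -/
noncomputable def ps (S W : Type u) [CommRing S] [CommRing W] [Algebra R S] [Algebra V W] [Algebra R W]
    [Algebra S W] [IsScalarTower R S W] [IsScalarTower R V W] (A : Subalgebra R V) : S ⊗[R] A →+* W :=
  (psi S W A : S ⊗[R] A →+* W)

theorem ps_apply (A : Subalgebra R V) (b : S ⊗[R] A) : ps S W A b = psi S W A b := rfl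

@[simp]
theorem ps_tmul (A : Subalgebra R V) (s : S) (a : A) :
    ps S W A (s ⊗ₜ a) = algebraMap S W s * algebraMap V W (a : V) :=
  Pool.Agent.Helper7.LU.psi_tmul A s a

@[simp]
theorem ps_inc (A : Subalgebra R V) (a : A) : ps S W A (inc S A a) = algebraMap V W (a : V) :=
  Pool.Agent.Helper7.LU.psi_inc A a

theorem ps_algebraMap (A : Subalgebra R V) (r : R) :
    ps S W A (algebraMap R (S ⊗[R] A) r) = algebraMap V W (algebraMap R V r) := by
  rw [ps_apply, AlgHom.commutes, IsScalarTower.algebraMap_apply R V W]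

theorem ker_ps (A : Subalgebra R V) : RingHom.ker (ps S W A) = RingHom.ker (psi S W A) := rfl

/-- The homomorphism from `S ⊗ A` to `S ⊗ A'`. -/
noncomputable def tr (S : Type u) [CommRing S] [Algebra R S] {A A' : Subalgebra R V} (h : A ≤ A') :
    S ⊗[R] A →ₐ[R] S ⊗[R] A' :=
  Algebra.TensorProduct.map (AlgHom.id R S) (Subalgebra.inclusion h)

@[simp]
theorem tr_tmul {A A' : Subalgebra R V} (h : A ≤ A') (s : S) (a : A) :
    tr S h (s ⊗ₜ a) = s ⊗ₜ Subalgebra.inclusion h a := by
  simp [tr]

theorem tr_inc {A A' : Subalgebra R V} (h : A ≤ A') (a : A) :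
    tr S h (inc S A a) = inc S A' (Subalgebra.inclusion h a) := by
  simp [inc]

theorem ps_tr {A A' : Subalgebra R V} (h : A ≤ A') (b : S ⊗[R] A) : ps S W A' (tr S h b) = ps S W A b := by
  induction b with
  | zero => simp
  | add x y hx hy => rw [map_add, map_add, map_add, hx, hy]
  | tmul s a => simp

theorem tr_tr {A A' A'' : Subalgebra R V} (h : A ≤ A') (h' : A' ≤ A'') (b : S ⊗[R] A) :
    tr S h' (tr S h b) = tr S (h.trans h') b := by
  induction b with
  | zero => simp
  | add x y hx hy => rw [map_add, map_add, map_add, hx, hy]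
  | tmul s a => simp

variable [IsLocalRing R]

/-- Elements of `S ⊗ A` are close to elements of `A`. -/
theorem IsData.approx_tensor (h : IsData R V S W) (A : Subalgebra R V) (n : ℕ) (b : S ⊗[R] A) :
    ∃ a : A, b - inc S A a ∈ (maximalIdeal R ^ n).map (algebraMap R (S ⊗[R] A)) := by
  induction b with
  | zero => exact ⟨0, by simp⟩
  | add x y hx hy =>
    obtain ⟨a, ha⟩ := hx
    obtain ⟨b, hb⟩ := hy
    refine ⟨a + b, ?_⟩
    rw [map_add, add_sub_add_comm]
    exact Ideal.add_mem _ ha hb
  | tmul s a =>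
    obtain ⟨r, hr⟩ := h.approx n s
    refine ⟨r • a, ?_⟩
    have h1 : s ⊗ₜ[R] a - inc S A (r • a) = ((s - algebraMap R S r) ⊗ₜ[R] (1 : A)) * (1 ⊗ₜ[R] a) := by
      rw [Algebra.TensorProduct.tmul_mul_tmul, mul_one, one_mul, TensorProduct.sub_tmul]
      congr 1
      simp only [inc, Algebra.TensorProduct.includeRight_apply, Algebra.algebraMap_eq_smul_one]
      rw [TensorProduct.smul_tmul]
    rw [h1]
    refine Ideal.mul_mem_right _ _ ?_
    have h2 : ((maximalIdeal R ^ n).map (algebraMap R S)).map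
        (Algebra.TensorProduct.includeLeft : S →ₐ[R] S ⊗[R] A) =
        (maximalIdeal R ^ n).map (algebraMap R (S ⊗[R] A)) := map_algHom _ _
    rw [← h2]
    exact Ideal.mem_map_of_mem (Algebra.TensorProduct.includeLeft : S →ₐ[R] S ⊗[R] A) hr

/-- Ideals that contain a power of the maximal ideal of `R` are extended to `S ⊗ A` and contracted to the
same ideal. -/
theorem IsData.contract (h : IsData R V S W) (A : Subalgebra R V) (n : ℕ) (I : Ideal A)
    (hI : (maximalIdeal R ^ n).map (algebraMap R A) ≤ I) (a : A)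
    (ha : inc S A a ∈ I.map (inc S A)) : a ∈ I := by
  obtain ⟨σ⟩ := h.proj n
  let σ' : S →ₐ[R] A ⧸ I := (Ideal.Quotient.liftₐ (maximalIdeal R ^ n) (Algebra.ofId R (A ⧸ I)) (by
    intro r hr
    rw [Algebra.ofId_apply]
    exact Ideal.Quotient.eq_zero_iff_mem.mpr (hI (Ideal.mem_map_of_mem _ hr)))).comp σ
  let χ : S ⊗[R] A →ₐ[R] A ⧸ I := Algebra.TensorProduct.productMap σ' (Ideal.Quotient.mkₐ R I)
  have h1 : ∀ x : A, χ (inc S A x) = Ideal.Quotient.mk I x := by
    intro x
    simp [χ, inc]
  have h2 : I.map (inc S A) ≤ RingHom.ker χ := by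
    rw [Ideal.map_le_iff_le_comap]
    intro x hx
    rw [Ideal.mem_comap, RingHom.mem_ker, h1]
    exact Ideal.Quotient.eq_zero_iff_mem.mpr hx
  have h3 := h2 ha
  rw [RingHom.mem_ker, h1] at h3
  exact Ideal.Quotient.eq_zero_iff_mem.mp h3

/-- The centre of `V` on `A`. -/
def cen (A : Subalgebra R V) : Ideal A := (maximalIdeal V).comap (algebraMap A V)

/-- A level: a subalgebra of finite type with parameters. -/
structure Lev (S W : Type u) [CommRing S] [CommRing W] [IsDomain W] [ValuationRing W] [Algebra R S]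
    [Algebra V W] [Algebra R W] [Algebra S W] [IsScalarTower R S W] [IsScalarTower R V W] {e : ℕ}
    (A : Subalgebra R V) (x : Fin e → V) : Prop where
  fg : A.FG
  mem : ∀ i, x i ∈ A
  par : Par (ps S W A) (fun i => inc S A ⟨x i, mem i⟩)

/-- A level `A', x'` over the level `A, x`. -/
structure Ext (S W : Type u) [CommRing S] [CommRing W] [IsDomain W] [ValuationRing W] [Algebra R S]
    [Algebra V W] [Algebra R W] [Algebra S W] [IsScalarTower R S W] [IsScalarTower R V W] {e : ℕ}
    (A A' : Subalgebra R V) (x x' : Fin e → V) : Prop where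
  le : A ≤ A'
  reach : Reach x x'
  lev : Lev S W A' x'
  ker : RingHom.ker (ps S W A') ≤ sat (ps S W A') ((RingHom.ker (ps S W A)).map (tr S le))

/-- The kernel is generated by the `q i` and by elements that `w` multiplies into the square. -/
def Free (S W : Type u) [CommRing S] [CommRing W] [Algebra R S]
    [Algebra V W] [Algebra R W] [Algebra S W] [IsScalarTower R S W] [IsScalarTower R V W] {h : ℕ}
    (A : Subalgebra R V) (q : Fin h → S ⊗[R] A) (w : S ⊗[R] A) : Prop :=
  (∀ i, q i ∈ RingHom.ker (ps S W A)) ∧ ∀ p ∈ RingHom.ker (ps S W A), ∃ s, IsUnit (ps S W A s) ∧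
    ∃ g ∈ Ideal.span (Set.range q), ∃ p' ∈ RingHom.ker (ps S W A),
      w * p' ∈ RingHom.ker (ps S W A) ^ 2 ∧ s * p = g + p'

end

end Pool.Agent.Helper10.MU
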