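import Pool.Agent.Helper10.MU.Stm

/-! module EXP (helper9) -/

set_option autoImplicit false

open IsLocalRing

universe u

namespace Pool.Agent.Helper10.MU

theorem exp_mon_add {M : Type u} [CommMonoid M] {e : ℕ} (x : Fin e → M) (α : Fin e → ℕ) (i : Fin e) :
    mon x (α + Pi.single i 1) = mon x α * x i := by
  unfold mon
  have h1 : ∀ k, x k ^ ((α + Pi.single i 1 : Fin e → ℕ) k) =
      x k ^ α k * x k ^ ((Pi.single i 1 : Fin e → ℕ) k) := by
    intro k
    rw [Pi.add_apply, pow_add]
  rw [Finset.prod_congr rfl fun k _ => h1 k, Finset.prod_mul_distrib]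
  congr 1
  rw [Finset.prod_eq_single i]
  · simp
  · intro k _ hk
    simp [Pi.single_eq_of_ne hk]
  · intro h
    exact absurd (Finset.mem_univ i) h

theorem exp_pow_le {B : Type u} [CommRing B] {e : ℕ} (x : Fin e → B) (N : ℕ) :
    Ideal.span (Set.range x) ^ N ≤
      Ideal.span ((fun β => mon x β) ''
        ((Finset.piAntidiag Finset.univ N : Finset (Fin e → ℕ)) : Set (Fin e → ℕ))) := by
  induction N with
  | zero =>
    rw [pow_zero, Ideal.one_eq_top, top_le_iff, Ideal.eq_top_iff_one]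
    apply Ideal.subset_span
    refine ⟨0, ?_, ?_⟩
    · simp
    · simp [mon]
  | succ N ih =>
    rw [pow_succ]
    refine (Ideal.mul_mono_left ih).trans ?_
    rw [Ideal.span_mul_span']
    apply Ideal.span_mono
    rintro b ⟨_, ⟨β, hβ, rfl⟩, _, ⟨i, rfl⟩, rfl⟩
    refine ⟨β + Pi.single i 1, ?_, ?_⟩
    · simp only [Finset.mem_coe, Finset.mem_piAntidiag] at hβ ⊢
      refine ⟨?_, fun k _ => Finset.mem_univ k⟩
      simp only [Pi.add_apply]
      rw [Finset.sum_add_distrib]
      have h2 : ∑ k, (Pi.single i 1 : Fin e → ℕ) k = 1 := by simp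
      rw [h2]
      exact congrArg (· + 1) hβ.1
    · exact exp_mon_add x β i

theorem exp_mon_mem {B : Type u} [CommRing B] {e : ℕ} (x : Fin e → B) (β : Fin e → ℕ) :
    mon x β ∈ Ideal.span (Set.range x) ^ (∑ i, β i) := by
  unfold mon
  rw [← Finset.prod_pow_eq_pow_sum]
  apply Ideal.prod_mem_prod
  intro i _
  exact Ideal.pow_mem_pow (Ideal.subset_span (Set.mem_range_self i)) _

theorem exp_step {B W : Type u} [CommRing B] [CommRing W] [IsDomain W] [ValuationRing W] (f : B →+* W)
    {e : ℕ} (x : Fin e → B) (hP : Par f x) (N : ℕ) (r : B) (hr : r ∈ Ideal.span (Set.range x) ^ N) :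
    ∃ (s : B) (F : Finset (Fin e → ℕ)) (v : (Fin e → ℕ) → B) (r' : B), IsUnit (f s) ∧
      (∀ β ∈ F, IsUnit (f (v β))) ∧ (∀ β ∈ F, ∑ i, β i = N) ∧
      r' ∈ Ideal.span (Set.range x) ^ (N + 1) ∧ f (s * r) = f (∑ β ∈ F, v β * mon x β + r') := by
  classical
  have h1 := exp_pow_le x N hr
  obtain ⟨c, hc⟩ := (Submodule.mem_span_image_finset_iff_exists_fun' B).1 h1
  set F0 : Finset (Fin e → ℕ) := Finset.piAntidiag Finset.univ N with hF0
  have h2 : ∀ β : Fin e → ℕ, ∃ t g : B, IsUnit (f t) ∧ (IsUnit (f (c β)) ∨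
      (g ∈ Ideal.span (Set.range x) ∧ f (t * c β) = f g)) := by
    intro β
    by_cases hu : IsUnit (f (c β))
    · exact ⟨1, 0, by simp, Or.inl hu⟩
    · have h3 : f (c β) ∈ maximalIdeal W := by
        rw [mem_maximalIdeal, mem_nonunits_iff]
        exact hu
      obtain ⟨t, ht, h4⟩ := hP (c β) h3
      obtain ⟨g, hg, q, hq, hgq⟩ := Submodule.mem_sup.1 h4
      refine ⟨t, g, ht, Or.inr ⟨hg, ?_⟩⟩
      rw [← hgq, map_add, RingHom.mem_ker.1 hq, add_zero]
  choose t g ht hg using h2
  let F := F0.filter (fun β => IsUnit (f (c β)))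
  let s' : (Fin e → ℕ) → B := fun β => ∏ γ ∈ F0.erase β, t γ
  have hs' : ∀ β, IsUnit (f (s' β)) := by
    intro β
    simp only [s', map_prod]
    exact IsUnit.prod_iff.2 fun γ _ => ht γ
  have hprod : ∀ β ∈ F0, ∏ γ ∈ F0, t γ = t β * s' β := by
    intro β hβ
    exact (Finset.mul_prod_erase _ _ hβ).symm
  refine ⟨∏ γ ∈ F0, t γ, F, fun β => (t β * s' β) * c β,
    ∑ β ∈ F0.filter (fun β => ¬ IsUnit (f (c β))), s' β * g β * mon x β, ?_, ?_, ?_, ?_, ?_⟩
  · rw [map_prod]
    exact IsUnit.prod_iff.2 fun γ _ => ht γ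
  · intro β hβ
    have h3 := (Finset.mem_filter.1 hβ).2
    rw [map_mul, map_mul]
    exact ((ht β).mul (hs' β)).mul h3
  · intro β hβ
    have h3 := (Finset.mem_filter.1 hβ).1
    rw [hF0, Finset.mem_piAntidiag] at h3
    exact h3.1
  · apply Ideal.sum_mem
    intro β hβ
    obtain ⟨h3, h4⟩ := Finset.mem_filter.1 hβ
    have h5 := ((hg β).resolve_left h4).1
    rw [hF0, Finset.mem_piAntidiag] at h3
    have h6 := exp_mon_mem x β
    have h7 : (∑ i, β i) = N := h3.1
    rw [h7] at h6
    have h8 : s' β * g β * mon x β = s' β * (mon x β * g β) := by ring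
    rw [h8, pow_succ]
    exact Ideal.mul_mem_left _ _ (Ideal.mul_mem_mul h6 h5)
  · rw [← hc, Finset.mul_sum, map_sum, map_add, map_sum, map_sum,
      ← Finset.sum_filter_add_sum_filter_not F0 (fun β => IsUnit (f (c β)))]
    congr 1
    · apply Finset.sum_congr rfl
      intro β hβ
      rw [hprod β (Finset.mem_filter.1 hβ).1, smul_eq_mul]
      congr 1
      ring
    · apply Finset.sum_congr rfl
      intro β hβ
      obtain ⟨h3, h4⟩ := Finset.mem_filter.1 hβ
      have h5 := ((hg β).resolve_left h4).2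
      rw [hprod β h3, smul_eq_mul]
      calc f (t β * s' β * (c β * mon x β)) = f (s' β) * f (t β * c β) * f (mon x β) := by
            rw [← map_mul, ← map_mul]
            congr 1
            ring
        _ = f (s' β * g β * mon x β) := by rw [h5, map_mul, map_mul]

theorem exp_main : S_EXP.{u} := by
  classical
  intro B W _ _ _ _ f e x hx hP b N
  suffices h : ∃ (s : B) (F : Finset (Fin e → ℕ)) (v : (Fin e → ℕ) → B) (r : B), IsUnit (f s) ∧
      (∀ β ∈ F, IsUnit (f (v β))) ∧ (∀ β ∈ F, ∑ i, β i < N) ∧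
      r ∈ Ideal.span (Set.range x) ^ N ∧ f (s * b) = f (∑ β ∈ F, v β * mon x β + r) by
    obtain ⟨s, F, v, r, h1, h2, _, h4, h5⟩ := h
    exact ⟨s, F, v, r, h1, h2, h4, h5⟩
  induction N with
  | zero => exact ⟨1, ∅, 0, b, by simp, by simp, by simp, by simp, by simp⟩
  | succ N ih =>
    obtain ⟨s, F, v, r, h1, h2, h3, h4, h5⟩ := ih
    obtain ⟨s', F', v', r', k1, k2, k3, k4, k5⟩ := exp_step f x hP N r h4
    have hdis : Disjoint F F' := by
      rw [Finset.disjoint_left]
      intro β hβ hβ'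
      have e1 := h3 β hβ
      have e2 := k3 β hβ'
      omega
    refine ⟨s' * s, F ∪ F', fun β => if β ∈ F then s' * v β else v' β, r', ?_, ?_, ?_, k4, ?_⟩
    · rw [map_mul]
      exact k1.mul h1
    · intro β hβ
      by_cases hF : β ∈ F
      · simp only [hF, if_true, map_mul]
        exact k1.mul (h2 β hF)
      · simp only [hF, if_false]
        exact k2 β ((Finset.mem_union.1 hβ).resolve_left hF)
    · intro β hβ
      rcases Finset.mem_union.1 hβ with hF | hF
      · exact (h3 β hF).trans (Nat.lt_succ_self N)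
      · rw [k3 β hF]
        exact Nat.lt_succ_self N
    · rw [Finset.sum_union hdis]
      have e1 : ∑ β ∈ F, (if β ∈ F then s' * v β else v' β) * mon x β = s' * ∑ β ∈ F, v β * mon x β := by
        rw [Finset.mul_sum]
        apply Finset.sum_congr rfl
        intro β hβ
        rw [if_pos hβ]
        ring
      have e2 : ∑ β ∈ F', (if β ∈ F then s' * v β else v' β) * mon x β = ∑ β ∈ F', v' β * mon x β := by
        apply Finset.sum_congr rfl
        intro β hβ
        rw [if_neg (fun h => (Finset.disjoint_left.1 hdis h) hβ)]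
      rw [e1, e2, mul_assoc, map_mul f s', h5, ← map_mul, mul_add, map_add, k5, ← map_add]
      congr 1
      ring

protected theorem exp : S_EXP.{u} := exp_main

end Pool.Agent.Helper10.MU
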