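import Pool.Agent.Helper10.MU.Stm

/-!
# Module FIN: the last blowing up
-/

set_option autoImplicit false
set_option linter.unusedSectionVars false

open scoped TensorProduct
open IsLocalRing

universe u

namespace Pool.Agent.Helper10.MU

open Pool.Agent.Helper7.LU (psi inc)

section fin

variable {R V W B : Type u} [CommRing R] [IsLocalRing R] [CommRing V] [IsDomain V] [ValuationRing V]
  [CommRing W] [IsDomain W] [ValuationRing W] [CommRing B] [Algebra R V] [Algebra V W] [Algebra R B]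

/-- The elements that are `t` times an element of the centre, up to the kernel. -/
def finE (ψ : B →+* W) (t : B) : Ideal B :=
  sat ψ (Ideal.span {t} * (maximalIdeal W).comap ψ ⊔ RingHom.ker ψ)

/-- The hypotheses on the level. -/
structure FinD (A : Subalgebra R V) (ψ : B →+* W) (ic : A →ₐ[R] B) (τ : A) (M : ℕ) : Prop where
  ψic : ∀ a : A, ψ (ic a) = algebraMap V W (a : V)
  inj : Function.Injective (algebraMap V W)
  div : ∀ v v' : V, algebraMap V W v ∣ algebraMap V W v' → v ∣ v'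
  dom : ∀ r ∈ maximalIdeal R, algebraMap R V r ∈ maximalIdeal V
  ap : ∀ (n : ℕ) (b : B), ∃ a : A, b - ic a ∈ (maximalIdeal R ^ n).map (algebraMap R B)
  co : ∀ (n : ℕ) (I : Ideal A), (maximalIdeal R ^ n).map (algebraMap R A) ≤ I →
    ∀ a, ic a ∈ I.map ic → a ∈ I
  τ0 : (τ : V) ≠ 0
  τm : (τ : V) ∈ maximalIdeal V
  M0 : 0 < M
  small : ∀ r ∈ maximalIdeal R ^ M, algebraMap R B r ∈ finE ψ (ic τ)

variable {A : Subalgebra R V} {ψ : B →+* W} {ic : A →ₐ[R] B} {τ : A} {M : ℕ}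

/-- The ideal that is blown up. -/
def finA (ψ : B →+* W) (ic : A →ₐ[R] B) (τ : A) : Ideal A := (finE ψ (ic τ)).comap ic

theorem mem_finA {a : A} : a ∈ finA ψ ic τ ↔ ic a ∈ finE ψ (ic τ) := Iff.rfl

namespace FinD

theorem unit_of (D : FinD A ψ ic τ M) (v : V) (h : IsUnit (algebraMap V W v)) : IsUnit v := by
  have h1 := D.div v 1 (by rw [map_one]; exact h.dvd)
  exact isUnit_of_dvd_one h1

theorem map_mem (D : FinD A ψ ic τ M) (v : V) (h : v ∈ maximalIdeal V) :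
    algebraMap V W v ∈ maximalIdeal W := by
  rw [mem_maximalIdeal, mem_nonunits_iff] at h ⊢
  exact fun h1 => h (D.unit_of v h1)

theorem mem_of (D : FinD A ψ ic τ M) (v : V) (h : algebraMap V W v ∈ maximalIdeal W) :
    v ∈ maximalIdeal V := by
  rw [mem_maximalIdeal, mem_nonunits_iff] at h ⊢
  exact fun h1 => h (h1.map _)

theorem f0 (D : FinD A ψ ic τ M) (a : A) (ha : a ∈ finA ψ ic τ) :
    ∃ v ∈ maximalIdeal V, (a : V) = τ * v := by
  obtain ⟨s, hs, hsa⟩ := mem_sat.mp (mem_finA.mp ha)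
  obtain ⟨c, hc, q, hq, hcq⟩ := Submodule.mem_sup.mp hsa
  obtain ⟨b, hb, rfl⟩ := Ideal.mem_span_singleton_mul.mp hc
  have h1 : ψ s * algebraMap V W (a : V) = algebraMap V W (τ : V) * ψ b := by
    have h2 := congrArg ψ hcq
    rw [map_add, map_mul, map_mul, D.ψic, D.ψic, RingHom.mem_ker.mp hq, add_zero] at h2
    exact h2.symm
  have h3 : algebraMap V W (τ : V) ∣ algebraMap V W (a : V) := by
    obtain ⟨u, hu⟩ := hs
    refine ⟨ψ b * ((u⁻¹ : Wˣ) : W), ?_⟩
    rw [← mul_assoc, ← h1, ← hu, mul_comm (u : W), mul_assoc, Units.mul_inv, mul_one]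
  obtain ⟨v, hv⟩ := D.div _ _ h3
  refine ⟨v, D.mem_of v ?_, hv⟩
  have hτ : algebraMap V W (τ : V) ≠ 0 := fun h => D.τ0 (D.inj (by rw [h, map_zero]))
  have h4 : ψ s * algebraMap V W v = ψ b := by
    apply mul_left_cancel₀ hτ
    rw [← h1, hv, map_mul]
    ring
  have h5 : ψ b ∈ maximalIdeal W := hb
  rw [← h4] at h5
  rcases (Ideal.IsPrime.mem_or_mem (maximalIdeal.isMaximal W).isPrime h5) with h | h
  · exact absurd hs ((mem_nonunits_iff).mp ((mem_maximalIdeal _).mp h))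
  · exact h

theorem f1 (D : FinD A ψ ic τ M) : (maximalIdeal R ^ M).map (algebraMap R A) ≤ finA ψ ic τ := by
  rw [Ideal.map_le_iff_le_comap]
  intro r hr
  rw [Ideal.mem_comap, mem_finA, AlgHom.commutes]
  exact D.small r hr

theorem rB (n : ℕ) (I : Ideal A) (hI : (maximalIdeal R ^ n).map (algebraMap R A) ≤ I) :
    (maximalIdeal R ^ n).map (algebraMap R B) ≤ I.map ic := by
  rw [Ideal.map_le_iff_le_comap]
  intro r hr
  rw [Ideal.mem_comap, ← AlgHom.commutes ic]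
  exact Ideal.mem_map_of_mem ic (hI (Ideal.mem_map_of_mem _ hr))

theorem f1E (D : FinD A ψ ic τ M) (n : ℕ) (hn : M ≤ n) :
    (maximalIdeal R ^ n).map (algebraMap R B) ≤ finE ψ (ic τ) := by
  rw [Ideal.map_le_iff_le_comap]
  intro r hr
  exact D.small r (Ideal.pow_le_pow_right hn hr)

theorem kerE : RingHom.ker ψ ≤ finE ψ (ic τ) := le_sup_right.trans (le_sat ψ _)

theorem f2' (D : FinD A ψ ic τ M) (n : ℕ) (hn : M ≤ n) (q : B) (hq : q ∈ RingHom.ker ψ) (y : A)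
    (hy : q - ic y ∈ (maximalIdeal R ^ n).map (algebraMap R B)) : y ∈ finA ψ ic τ := by
  rw [mem_finA]
  have h1 : ic y = q - (q - ic y) := by ring
  rw [h1]
  exact Ideal.sub_mem _ (kerE hq) (D.f1E n hn hy)

theorem f2 (D : FinD A ψ ic τ M) : RingHom.ker ψ ≤ (finA ψ ic τ).map ic := by
  intro q hq
  obtain ⟨y, hy⟩ := D.ap M q
  have h1 : q = ic y + (q - ic y) := by ring
  rw [h1]
  exact Ideal.add_mem _ (Ideal.mem_map_of_mem ic (D.f2' M le_rfl q hq y hy)) (rB M _ D.f1 hy)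

theorem mapR_mem (D : FinD A ψ ic τ M) (n : ℕ) (hn : 0 < n) (b : B)
    (hb : b ∈ (maximalIdeal R ^ n).map (algebraMap R B)) : ψ b ∈ maximalIdeal W := by
  have h1 : (maximalIdeal R ^ n).map (algebraMap R B) ≤ (maximalIdeal W).comap ψ := by
    rw [Ideal.map_le_iff_le_comap]
    intro r hr
    rw [Ideal.mem_comap, Ideal.mem_comap, ← AlgHom.commutes ic, D.ψic]
    exact D.map_mem _ (D.dom r (Ideal.pow_le_self hn.ne' hr))
  exact h1 hb

theorem f3 (D : FinD A ψ ic τ M) : (maximalIdeal W).comap ψ ≤ (cen A).map ic := by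
  intro b hb
  obtain ⟨a, ha⟩ := D.ap 1 b
  have h1 : b = ic a + (b - ic a) := by ring
  rw [h1]
  refine Ideal.add_mem _ (Ideal.mem_map_of_mem ic ?_) (rB 1 _ ?_ ha)
  · change (a : V) ∈ maximalIdeal V
    apply D.mem_of
    rw [← D.ψic]
    have h2 : ic a = b - (b - ic a) := by ring
    rw [h2, map_sub]
    exact Ideal.sub_mem _ hb (D.mapR_mem 1 one_pos _ ha)
  · rw [Ideal.map_le_iff_le_comap]
    intro r hr
    rw [pow_one] at hr
    exact D.dom r hr

/-- Units are close to units. -/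
theorem ap_unit (D : FinD A ψ ic τ M) (n : ℕ) (hn : 0 < n) (s : B) (hs : IsUnit (ψ s)) :
    ∃ a : A, IsUnit (a : V) ∧ s - ic a ∈ (maximalIdeal R ^ n).map (algebraMap R B) := by
  obtain ⟨a, ha⟩ := D.ap n s
  refine ⟨a, D.unit_of _ ?_, ha⟩
  by_contra hcon
  have h1 : algebraMap V W (a : V) ∈ maximalIdeal W := (mem_maximalIdeal _).mpr hcon
  have h2 := D.mapR_mem n hn _ ha
  have h3 : ψ s ∈ maximalIdeal W := by
    have h4 : s = (s - ic a) + ic a := by ring
    rw [h4, map_add, D.ψic]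
    exact Ideal.add_mem _ h2 h1
  exact ((mem_maximalIdeal _).mp h3) hs

/-- Descent of membership from `B` to `A`. -/
theorem desc (D : FinD A ψ ic τ M) (n : ℕ) (hn : 0 < n) (I : Ideal A)
    (hI : (maximalIdeal R ^ n).map (algebraMap R A) ≤ I) (s : B) (hs : IsUnit (ψ s)) (a : A)
    (h : s * ic a ∈ I.map ic) : ∃ σ : A, IsUnit (σ : V) ∧ σ * a ∈ I := by
  obtain ⟨σ, hσ, hσs⟩ := D.ap_unit n hn s hs
  refine ⟨σ, hσ, D.co n I hI _ ?_⟩
  have h1 : ic (σ * a) = s * ic a - ic a * (s - ic σ) := by rw [map_mul]; ring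
  rw [h1]
  exact Ideal.sub_mem _ h (Ideal.mul_mem_left _ _ (rB n I hI hσs))

theorem f6 (D : FinD A ψ ic τ M) {e : ℕ} (x : Fin e → A) (hpar : Par ψ (fun i => ic (x i)))
    (a : A) (ha : a ∈ cen A) :
    ∃ σ : A, IsUnit (σ : V) ∧ σ * a ∈ Ideal.span (Set.range x) ⊔ finA ψ ic τ := by
  have h1 : ψ (ic a) ∈ maximalIdeal W := by
    rw [D.ψic]
    exact D.map_mem _ ha
  obtain ⟨s, hs, hsa⟩ := mem_sat.mp (hpar _ h1)
  refine D.desc M D.M0 _ (D.f1.trans le_sup_right) s hs a ?_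
  have h2 : Ideal.span (Set.range fun i => ic (x i)) ⊔ RingHom.ker ψ ≤
      (Ideal.span (Set.range x) ⊔ finA ψ ic τ).map ic := by
    rw [Ideal.map_sup]
    refine sup_le_sup ?_ D.f2
    rw [Ideal.span_le]
    rintro _ ⟨i, rfl⟩
    exact Ideal.mem_map_of_mem ic (Ideal.subset_span ⟨i, rfl⟩)
  exact h2 hsa

theorem f7 (D : FinD A ψ ic τ M) {h : ℕ} (q : Fin h → B) (w : B)
    (hq : ∀ i, q i ∈ RingHom.ker ψ)
    (hfree : ∀ p ∈ RingHom.ker ψ, ∃ s, IsUnit (ψ s) ∧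
      ∃ g ∈ Ideal.span (Set.range q), ∃ p' ∈ RingHom.ker ψ, w * p' ∈ RingHom.ker ψ ^ 2 ∧ s * p = g + p')
    (hτ : ic τ ∈ sat ψ (Ideal.span {w} ⊔ RingHom.ker ψ)) (y : Fin h → A)
    (hy : ∀ i, q i - ic (y i) ∈ (maximalIdeal R ^ (2 * M)).map (algebraMap R B))
    (a : A) (ha : a ∈ finA ψ ic τ) :
    ∃ σ : A, IsUnit (σ : V) ∧ σ * (τ * a) ∈
      Ideal.span {τ ^ 2} * cen A ⊔ Ideal.span (Set.range fun i => τ * y i) ⊔ finA ψ ic τ ^ 2 := by
  set C : Ideal A := Ideal.span {τ ^ 2} * cen A ⊔ Ideal.span (Set.range fun i => τ * y i) ⊔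
    finA ψ ic τ ^ 2 with hC
  have hM : 0 < 2 * M := by have := D.M0; omega
  have hI : (maximalIdeal R ^ (2 * M)).map (algebraMap R A) ≤ C := by
    refine le_trans ?_ le_sup_right
    rw [mul_comm 2 M, pow_mul, Ideal.map_pow]
    exact Ideal.pow_right_mono D.f1 2
  have hB : (maximalIdeal R ^ (2 * M)).map (algebraMap R B) ≤ C.map ic := rB _ _ hI
  obtain ⟨s, hs, hsa⟩ := mem_sat.mp (mem_finA.mp ha)
  obtain ⟨c, hc, q₀, hq₀, hcq⟩ := Submodule.mem_sup.mp hsa
  obtain ⟨b, hb, rfl⟩ := Ideal.mem_span_singleton_mul.mp hc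
  obtain ⟨s', hs', g, hg, p', hp', hwp, hgp⟩ := hfree q₀ hq₀
  obtain ⟨s'', hs'', hst⟩ := mem_sat.mp hτ
  obtain ⟨c', hc', q', hq', hcq'⟩ := Submodule.mem_sup.mp hst
  obtain ⟨ω, rfl⟩ := Ideal.mem_span_singleton'.mp hc'
  refine D.desc (2 * M) hM C hI (s'' * s' * s) (by
    rw [map_mul, map_mul]
    exact (hs''.mul hs').mul hs) (τ * a) ?_
  have e1 : s'' * s' * s * ic (τ * a) =
      s'' * s' * (ic τ ^ 2 * b) + s'' * (ic τ * g) + (ω * (w * p') + q' * p') := by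
    rw [map_mul]
    calc s'' * s' * s * (ic τ * ic a) = s'' * s' * ic τ * (s * ic a) := by ring
      _ = s'' * s' * ic τ * (ic τ * b + q₀) := by rw [hcq]
      _ = s'' * s' * (ic τ ^ 2 * b) + s'' * ic τ * (s' * q₀) := by ring
      _ = s'' * s' * (ic τ ^ 2 * b) + s'' * ic τ * (g + p') := by rw [hgp]
      _ = s'' * s' * (ic τ ^ 2 * b) + s'' * (ic τ * g) + (s'' * ic τ) * p' := by ring
      _ = s'' * s' * (ic τ ^ 2 * b) + s'' * (ic τ * g) + (ω * w + q') * p' := by rw [hcq']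
      _ = _ := by ring
  have k1 : ic τ ^ 2 * b ∈ C.map ic := by
    have h1 : (Ideal.span {τ ^ 2} * cen A).map ic ≤ C.map ic :=
      Ideal.map_mono (le_sup_left.trans le_sup_left)
    refine h1 ?_
    rw [Ideal.map_mul, Ideal.map_span, Set.image_singleton, map_pow]
    exact Ideal.mul_mem_mul (Ideal.mem_span_singleton_self _) (D.f3 hb)
  have k2 : ic τ * g ∈ C.map ic := by
    have h1 : Ideal.span (Set.range q) ≤ (Submodule.comap (LinearMap.mulLeft B (ic τ)) (C.map ic) :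
        Ideal B) := by
      rw [Ideal.span_le]
      rintro _ ⟨i, rfl⟩
      change ic τ * q i ∈ C.map ic
      have h2 : ic τ * q i = ic (τ * y i) + ic τ * (q i - ic (y i)) := by
        rw [map_mul]; ring
      rw [h2]
      refine Ideal.add_mem _ (Ideal.mem_map_of_mem ic ?_) (Ideal.mul_mem_left _ _ (hB (hy i)))
      exact Ideal.mem_sup_left (Ideal.mem_sup_right (Ideal.subset_span ⟨i, rfl⟩))
    exact h1 hg
  have hQ2 : RingHom.ker ψ ^ 2 ≤ C.map ic := by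
    refine le_trans (Ideal.pow_right_mono D.f2 2) ?_
    rw [← Ideal.map_pow]
    exact Ideal.map_mono le_sup_right
  rw [e1]
  refine Ideal.add_mem _ (Ideal.add_mem _ (Ideal.mul_mem_left _ _ k1) (Ideal.mul_mem_left _ _ k2))
    (Ideal.add_mem _ (Ideal.mul_mem_left _ _ (hQ2 hwp)) (hQ2 ?_))
  rw [pow_two]
  exact Ideal.mul_mem_mul hq' hp'

end FinD

/-- The elements that are adjoined. -/
def finS (ψ : B →+* W) (ic : A →ₐ[R] B) (τ : A) : Set V := {v | ∃ a ∈ finA ψ ic τ, (a : V) = τ * v}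

/-- The new subalgebra. -/
def finB (ψ : B →+* W) (ic : A →ₐ[R] B) (τ : A) : Subalgebra R V :=
  Algebra.adjoin R ((A : Set V) ∪ finS ψ ic τ)

theorem le_finB : A ≤ finB ψ ic τ := fun _ hx => Algebra.subset_adjoin (Or.inl hx)

theorem finS_subset : finS ψ ic τ ⊆ finB ψ ic τ := fun _ hx => Algebra.subset_adjoin (Or.inr hx)

namespace FinD

theorem finB_fg (D : FinD A ψ ic τ M) [IsNoetherianRing A] (hA : A.FG) : (finB ψ ic τ).FG := by
  classical
  obtain ⟨G, hG⟩ := hA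
  obtain ⟨X, hX⟩ := (finA ψ ic τ).fg_of_isNoetherianRing
  have h1 : ∀ a : A, ∃ v : V, a ∈ finA ψ ic τ → (v ∈ finS ψ ic τ ∧ (a : V) = τ * v) := by
    intro a
    by_cases ha : a ∈ finA ψ ic τ
    · obtain ⟨v, hv, hav⟩ := D.f0 a ha
      exact ⟨v, fun _ => ⟨⟨a, ha, hav⟩, hav⟩⟩
    · exact ⟨0, fun h => absurd h ha⟩
  choose v hv using h1
  refine ⟨G ∪ X.image v, ?_⟩
  have hGle : A ≤ Algebra.adjoin R ((G ∪ X.image v : Finset V) : Set V) := by
    intro x hx
    have hx' : x ∈ Algebra.adjoin R (G : Set V) := by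
      rw [hG]
      exact hx
    refine Algebra.adjoin_mono ?_ hx'
    intro x hx
    simp only [Finset.coe_union]
    exact Or.inl hx
  apply le_antisymm
  · rw [Algebra.adjoin_le_iff]
    intro x hx
    simp only [Finset.coe_union, Finset.coe_image] at hx
    rcases hx with hx | ⟨a, ha, rfl⟩
    · refine le_finB ?_
      have hx' : x ∈ Algebra.adjoin R (G : Set V) := Algebra.subset_adjoin hx
      rwa [hG] at hx'
    · refine finS_subset (hv a ?_).1
      rw [← hX]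
      exact Ideal.subset_span ha
  · rw [finB, Algebra.adjoin_le_iff]
    rintro x (hx | hx)
    · exact hGle hx
    · have h2 : ∀ a ∈ finA ψ ic τ, ∃ u ∈ Algebra.adjoin R ((G ∪ X.image v : Finset V) : Set V),
          (τ : V) * u = a := by
        intro a ha
        rw [← hX] at ha
        refine Submodule.span_induction (p := fun (a : A) _ =>
          ∃ u ∈ Algebra.adjoin R ((G ∪ X.image v : Finset V) : Set V), (τ : V) * u = a) ?_ ?_ ?_ ?_ ha
        · intro a ha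
          refine ⟨v a, Algebra.subset_adjoin ?_, (hv a (by rw [← hX]; exact Ideal.subset_span ha)).2.symm⟩
          simp only [Finset.coe_union, Finset.coe_image]
          exact Or.inr ⟨a, ha, rfl⟩
        · exact ⟨0, zero_mem _, by simp⟩
        · rintro a b _ _ ⟨u, hu, hau⟩ ⟨w, hw, hbw⟩
          exact ⟨u + w, add_mem hu hw, by rw [mul_add, hau, hbw]; rfl⟩
        · rintro a b _ ⟨u, hu, hau⟩
          refine ⟨a * u, mul_mem (hGle a.2) hu, ?_⟩
          rw [smul_eq_mul, Subalgebra.coe_mul, ← hau]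
          ring
      obtain ⟨a, ha, hax⟩ := hx
      obtain ⟨u, hu, hxu⟩ := h2 a ha
      have h3 : u = x := mul_left_cancel₀ D.τ0 (by rw [hxu, hax])
      rw [← h3]
      exact hu

theorem last (D : FinD A ψ ic τ M) [IsNoetherianRing A] (hA : A.FG) {e h : ℕ} (x : Fin e → A)
    (hpar : Par ψ (fun i => ic (x i))) (q : Fin h → B) (w : B)
    (hq : ∀ i, q i ∈ RingHom.ker ψ)
    (hfree : ∀ p ∈ RingHom.ker ψ, ∃ s, IsUnit (ψ s) ∧
      ∃ g ∈ Ideal.span (Set.range q), ∃ p' ∈ RingHom.ker ψ, w * p' ∈ RingHom.ker ψ ^ 2 ∧ s * p = g + p')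
    (hτ : ic τ ∈ sat ψ (Ideal.span {w} ⊔ RingHom.ker ψ)) :
    ∃ (A' : Subalgebra R V) (hA : A ≤ A') (z : Fin h → A'), A'.FG ∧
      (∀ i, (z i : V) ∈ maximalIdeal V) ∧
      (∀ a : A, a ∈ finA ψ ic τ → ∃ v : A', (v : V) ∈ maximalIdeal V ∧ (a : V) = τ * v) ∧
      cen A' ≤ sat (algebraMap A' V)
        (Ideal.span (Set.range (fun i => Subalgebra.inclusion hA (x i)) ∪ Set.range z) ⊔
          cen A' ^ 2) := by
  have hAB : A ≤ finB ψ ic τ := le_finB
  -- the elements `y i`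
  have hy0 : ∀ i, ∃ y : A, q i - ic y ∈ (maximalIdeal R ^ (2 * M)).map (algebraMap R B) :=
    fun i => D.ap (2 * M) (q i)
  choose y hy using hy0
  have hya : ∀ i, y i ∈ finA ψ ic τ := fun i => D.f2' (2 * M) (by omega) (q i) (hq i) (y i) (hy i)
  have hz0 : ∀ i, ∃ v ∈ maximalIdeal V, (y i : V) = τ * v := fun i => D.f0 _ (hya i)
  choose z0 hz0m hz0e using hz0
  let z : Fin h → finB ψ ic τ := fun i => ⟨z0 i, finS_subset ⟨y i, hya i, hz0e i⟩⟩
  refine ⟨finB ψ ic τ, hAB, z, D.finB_fg hA, hz0m, ?_, ?_⟩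
  · intro a ha
    obtain ⟨v, hv, hav⟩ := D.f0 a ha
    exact ⟨⟨v, finS_subset ⟨a, ha, hav⟩⟩, hv, hav⟩
  set ι : A →ₐ[R] finB ψ ic τ := Subalgebra.inclusion hAB with hιdef
  have hι : ∀ a : A, ((ι a : finB ψ ic τ) : V) = a := fun a => rfl
  set m := cen (finB ψ ic τ) with hm
  have hmem : ∀ x : finB ψ ic τ, x ∈ m ↔ (x : V) ∈ maximalIdeal V := fun x => Iff.rfl
  let J : Ideal (finB ψ ic τ) := Ideal.span {x : finB ψ ic τ | (x : V) ∈ finS ψ ic τ}
  set T : Ideal (finB ψ ic τ) := sat (algebraMap (finB ψ ic τ) V)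
    (Ideal.span (Set.range (fun i => ι (x i)) ∪ Set.range z) ⊔ m ^ 2) with hT
  have hJm : J ≤ m := by
    rw [Ideal.span_le]
    rintro x ⟨a, ha, hax⟩
    obtain ⟨v, hv, hav⟩ := D.f0 a ha
    have h3 : (x : V) = v := mul_left_cancel₀ D.τ0 (by rw [← hax, hav])
    change (x : V) ∈ maximalIdeal V
    rw [h3]
    exact hv
  have hm2T : m ^ 2 ≤ T := le_sup_right.trans (le_sat _ _)
  have hzT : ∀ i, z i ∈ T := fun i =>
    le_sat _ _ (Ideal.mem_sup_left (Ideal.subset_span (Or.inr ⟨i, rfl⟩)))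
  have hxT : ∀ i, ι (x i) ∈ T := fun i =>
    le_sat _ _ (Ideal.mem_sup_left (Ideal.subset_span (Or.inl ⟨i, rfl⟩)))
  have hsat : ∀ (s : A) (b : finB ψ ic τ), IsUnit (s : V) → ι s * b ∈ T → b ∈ T := by
    intro s b hs hb
    exact sat_sat _ _ ⟨ι s, hs, hb⟩
  -- step 1
  have h1 : ∀ a ∈ finA ψ ic τ, ι a ∈ m ^ 2 := by
    intro a ha
    obtain ⟨v, hv, hav⟩ := D.f0 a ha
    have h3 : ι a = ι τ * ⟨v, finS_subset ⟨a, ha, hav⟩⟩ := by
      apply Subtype.ext
      exact hav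
    rw [h3, pow_two]
    exact Ideal.mul_mem_mul D.τm hv
  -- step 2
  have h2 : ∀ a ∈ cen A, ι a ∈ T := by
    intro a ha
    obtain ⟨σ, hσ, hσa⟩ := D.f6 x hpar a ha
    apply hsat σ _ hσ
    rw [← map_mul]
    have h3 : Ideal.span (Set.range x) ⊔ finA ψ ic τ ≤ T.comap ι := by
      refine sup_le ?_ (fun a ha => hm2T (h1 a ha))
      rw [Ideal.span_le]
      rintro _ ⟨i, rfl⟩
      exact hxT i
    exact h3 hσa
  -- step 3
  let 𝔟 : Ideal A :=
    { carrier := {u | ∃ w ∈ T, (u : V) = τ ^ 2 * (w : V)}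
      zero_mem' := ⟨0, zero_mem _, by simp⟩
      add_mem' := by
        rintro a b ⟨w, hw, haw⟩ ⟨w', hw', hbw⟩
        exact ⟨w + w', add_mem hw hw', by
          rw [Subalgebra.coe_add, Subalgebra.coe_add, haw, hbw]
          ring⟩
      smul_mem' := by
        rintro c a ⟨w, hw, haw⟩
        refine ⟨ι c * w, Ideal.mul_mem_left _ _ hw, ?_⟩
        rw [smul_eq_mul, Subalgebra.coe_mul, Subalgebra.coe_mul, haw, hι]
        ring }
  have h𝔟 : Ideal.span {τ ^ 2} * cen A ⊔ Ideal.span (Set.range fun i => τ * y i) ⊔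
      finA ψ ic τ ^ 2 ≤ 𝔟 := by
    refine sup_le (sup_le ?_ ?_) ?_
    · intro c hc
      obtain ⟨b, hb, rfl⟩ := Ideal.mem_span_singleton_mul.mp hc
      exact ⟨ι b, h2 b hb, by rw [Subalgebra.coe_mul, Subalgebra.coe_pow, hι]⟩
    · rw [Ideal.span_le]
      rintro _ ⟨i, rfl⟩
      refine ⟨z i, hzT i, ?_⟩
      change ((τ * y i : A) : V) = τ ^ 2 * z0 i
      rw [Subalgebra.coe_mul, hz0e]
      ring
    · rw [pow_two, Ideal.mul_le]
      intro a ha b hb
      obtain ⟨v, hv, hav⟩ := D.f0 a ha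
      obtain ⟨w, hw, hbw⟩ := D.f0 b hb
      let v' : finB ψ ic τ := ⟨v, finS_subset ⟨a, ha, hav⟩⟩
      let w' : finB ψ ic τ := ⟨w, finS_subset ⟨b, hb, hbw⟩⟩
      have hv' : v' ∈ m := hv
      have hw' : w' ∈ m := hw
      refine ⟨v' * w', hm2T ?_, ?_⟩
      · rw [pow_two]
        exact Ideal.mul_mem_mul hv' hw'
      · rw [Subalgebra.coe_mul, hav, hbw, Subalgebra.coe_mul]
        ring
  have hJT : J ≤ T := by
    rw [Ideal.span_le]
    rintro v ⟨a, ha, hav⟩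
    obtain ⟨σ, hσ, hσa⟩ := D.f7 q w hq hfree hτ y hy a ha
    obtain ⟨u, hu, hxu⟩ := h𝔟 hσa
    have h3 : ι σ * v = u := by
      apply Subtype.ext
      apply mul_left_cancel₀ (pow_ne_zero 2 D.τ0)
      rw [← hxu, Subalgebra.coe_mul, Subalgebra.coe_mul, Subalgebra.coe_mul, hι, hav]
      ring
    apply hsat σ _ hσ
    rw [h3]
    exact hu
  have hdec : ∀ x : V, x ∈ finB ψ ic τ → ∃ a : A, ∃ j ∈ J, x = a + (j : V) := by
    intro x hx
    rw [finB] at hx
    refine Algebra.adjoin_induction (p := fun (x : V) _ => ∃ a : A, ∃ j ∈ J, x = a + (j : V)) ?_ ?_ ?_ ?_ hx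
    · rintro x (hx | hx)
      · exact ⟨⟨x, hx⟩, 0, zero_mem _, by simp⟩
      · exact ⟨0, ⟨x, finS_subset hx⟩, Ideal.subset_span hx, by simp⟩
    · intro r
      refine ⟨algebraMap R A r, 0, zero_mem _, ?_⟩
      rw [ZeroMemClass.coe_zero, add_zero]
      rfl
    · rintro x y _ _ ⟨a, j, hj, rfl⟩ ⟨b, k, hk, rfl⟩
      refine ⟨a + b, j + k, add_mem hj hk, ?_⟩
      rw [Subalgebra.coe_add, Subalgebra.coe_add]
      ring
    · rintro x y _ _ ⟨a, j, hj, rfl⟩ ⟨b, k, hk, rfl⟩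
      refine ⟨a * b, ι a * k + ι b * j + j * k, add_mem (add_mem (Ideal.mul_mem_left _ _ hk)
        (Ideal.mul_mem_left _ _ hj)) (Ideal.mul_mem_left _ _ hk), ?_⟩
      simp only [Subalgebra.coe_add, Subalgebra.coe_mul, hι]
      ring
  intro x' hx'
  obtain ⟨a, j, hj, hxa⟩ := hdec x' x'.2
  have hxj : x' = ι a + j := by
    apply Subtype.ext
    rw [Subalgebra.coe_add, hι, hxa]
  have ham : a ∈ cen A := by
    change (a : V) ∈ maximalIdeal V
    have h3 : (a : V) = (x' : V) - (j : V) := by rw [hxa]; ring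
    rw [h3]
    exact Ideal.sub_mem _ hx' (hJm hj)
  rw [hxj]
  exact Ideal.add_mem _ (h2 a ham) (hJT hj)

end FinD

end fin

theorem fin : S_FIN.{u} := by
  intro R V S W _ _ _ _ _ _ _ _ _ _ _ _ _ _ _ _ _ _ hD e A x hL hx h q w hF τ hτ0 hτm hτw M hM hsm
  have : IsNoetherianRing A := isNoetherianRing_of_fg hL.fg
  have D : FinD A (ps S W A) (inc S A) τ M :=
    { ψic := fun a => ps_inc A a
      inj := hD.inj
      div := hD.div
      dom := hD.dom
      ap := fun n b => hD.approx_tensor A n b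
      co := fun n I hI a ha => hD.contract A n I hI a ha
      τ0 := hτ0
      τm := hτm
      M0 := hM
      small := hsm }
  exact D.last hL.fg (fun i => ⟨x i, hL.mem i⟩) hL.par q w hF.1 hF.2 hτw

end Pool.Agent.Helper10.MU
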