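import Pool.Agent.Helper10.MU.Stm

/-!
# Uniformization of formally monomial valuations: module FRE
-/

set_option autoImplicit false
set_option linter.unusedSectionVars false

open scoped TensorProduct
open IsLocalRing

universe u

namespace Pool.Agent.Helper10.MU

open Pool.Agent.Helper7.LU (psi inc)

/-- The elements of `Q` that `w` multiplies into the square of `Q`. -/
def fre_J {B : Type u} [CommRing B] (Q : Ideal B) (w : B) : Ideal B where
  carrier := {p | p ∈ Q ∧ w * p ∈ Q ^ 2}
  zero_mem' := ⟨Ideal.zero_mem _, by simp⟩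
  add_mem' := by
    rintro a b ⟨ha, ha'⟩ ⟨hb, hb'⟩
    exact ⟨Ideal.add_mem _ ha hb, by rw [mul_add]; exact Ideal.add_mem _ ha' hb'⟩
  smul_mem' := by
    rintro c a ⟨ha, ha'⟩
    refine ⟨Ideal.mul_mem_left _ _ ha, ?_⟩
    have h1 : w * (c • a) = c * (w * a) := by
      rw [smul_eq_mul]
      ring
    rw [h1]
    exact Ideal.mul_mem_left _ _ ha'

theorem fre (hVAL : S_VAL.{u}) (hKEY : S_KEY.{u}) : S_FRE.{u} := by
  classical
  intro R V S W _ _ _ _ _ _ _ _ _ _ _ _ _ _ _ _ _ _ hD e A x hL hx hI h g hg hgen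
  -- `S ⊗ A` is noetherian
  have hft : Algebra.FiniteType R A := (Subalgebra.fg_iff_finiteType A).mp hL.fg
  have hno : IsNoetherianRing (S ⊗[R] A) := by
    have : Algebra.FiniteType S (S ⊗[R] A) := Algebra.FiniteType.baseChange S
    exact Algebra.FiniteType.isNoetherianRing S (S ⊗[R] A)
  obtain ⟨N, Q, hQ⟩ : ∃ (N : ℕ) (q : Fin N → S ⊗[R] A), Ideal.span (Set.range q) = RingHom.ker (ps S W A) := by
    obtain ⟨t, ht⟩ := (isNoetherian_def.mp hno) (RingHom.ker (ps S W A))
    refine ⟨t.card, fun i => (t.equivFin.symm i : S ⊗[R] A), ?_⟩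
    rw [← ht]
    change Submodule.span _ _ = _
    congr 1
    ext y
    constructor
    · rintro ⟨i, rfl⟩
      exact (t.equivFin.symm i).2
    · intro hy
      exact ⟨t.equivFin ⟨y, hy⟩, by simp⟩
  have hQm : ∀ j, Q j ∈ RingHom.ker (ps S W A) := fun j => hQ ▸ Ideal.subset_span ⟨j, rfl⟩
  choose s hs hsq using fun j => hgen (Q j) (hQm j)
  have hs0 : ∀ j, ps S W A (s j) ≠ 0 := fun j h0 => hs j h0
  have hm : ∀ j, ∃ m : Fin h → S ⊗[R] A, s j * Q j = ∑ k, m k * g k := by
    intro j
    obtain ⟨c, hc⟩ := (Ideal.mem_span_range_iff_exists_fun).mp (hsq j)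
    exact ⟨c, hc.symm⟩
  choose m hm using hm
  obtain ⟨T, α, β, hT, hαβ, hval⟩ := hVAL (S ⊗[R] A) W (ps S W A) N h m s hs0
  obtain ⟨A', x', E, hE⟩ := hKEY R V S W hD e A x hL hx hI (N * N)
    (fun k => α (finProdFinEquiv.symm k).1 (finProdFinEquiv.symm k).2)
    (fun k => β (finProdFinEquiv.symm k).1 (finProdFinEquiv.symm k).2)
    (fun k => hαβ _ _)
  have hE' : ∀ j i, ∃ u c : S ⊗[R] A', IsUnit (ps S W A' u) ∧
      ps S W A' u * ps S W A (α j i) = ps S W A' c * ps S W A (β j i) := by
    intro j i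
    obtain ⟨u, hu, huv⟩ := hE (finProdFinEquiv (j, i))
    rw [Equiv.symm_apply_apply] at huv
    obtain ⟨y, hy, z, hz, hyz⟩ := Submodule.mem_sup.mp huv
    obtain ⟨c, rfl⟩ := Ideal.mem_span_singleton'.mp hy
    refine ⟨u, c, hu, ?_⟩
    have h1 := congrArg (ps S W A') hyz
    rw [map_add, RingHom.mem_ker.mp hz, add_zero, map_mul, map_mul, ps_tr, ps_tr] at h1
    exact h1.symm
  choose u c hu huc using hE'
  set Q' := RingHom.ker (ps S W A') with hQ'
  let w : S ⊗[R] A' := tr S E.le (∏ i, s i)
  -- the generators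
  obtain ⟨σ, hσ⟩ : ∃ σ : T → Fin h, Function.Injective σ := by
    have h1 : Fintype.card T ≤ Fintype.card (Fin h) := by
      rw [Fintype.card_coe, Fintype.card_fin]
      exact hT
    obtain ⟨f⟩ := Function.Embedding.nonempty_of_card_le h1
    exact ⟨f, f.injective⟩
  let q' : Fin h → S ⊗[R] A' := fun k => if hk : ∃ i : T, σ i = k then tr S E.le (Q hk.choose) else 0
  have hq'σ : ∀ i : T, q' (σ i) = tr S E.le (Q i) := by
    intro i
    have hk : ∃ i' : T, σ i' = σ i := ⟨i, rfl⟩
    change (if hk : ∃ i' : T, σ i' = σ i then tr S E.le (Q hk.choose) else 0) = _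
    rw [dif_pos hk, hσ hk.choose_spec]
  have htrker : ∀ b ∈ RingHom.ker (ps S W A), tr S E.le b ∈ Q' := by
    intro b hb
    rw [hQ', RingHom.mem_ker, ps_tr]
    exact hb
  refine ⟨A', x', E, q', w, ?_, ?_, ?_⟩
  · rw [ps_tr, map_prod]
    exact Finset.prod_ne_zero_iff.mpr fun i _ => hs0 i
  · intro k
    by_cases hk : ∃ i : T, σ i = k
    · obtain ⟨i, rfl⟩ := hk
      rw [hq'σ]
      exact htrker _ (hQm _)
    · change (if hk : ∃ i : T, σ i = k then tr S E.le (Q hk.choose) else 0) ∈ _
      rw [dif_neg hk]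
      exact Ideal.zero_mem _
  · -- the elements `tr (Q j)`
    have main : ∀ j, tr S E.le (Q j) ∈ sat (ps S W A') (Ideal.span (Set.range q') ⊔ fre_J Q' w) := by
      intro j
      let δ : S ⊗[R] A' := ∏ i ∈ T, u j i
      let γ : Fin N → S ⊗[R] A' := fun i => c j i * ∏ i' ∈ T.erase i, u j i'
      have hδ : IsUnit (ps S W A' δ) := by
        rw [map_prod]
        refine (IsUnit.prod_iff).mpr ?_
        intro i _
        exact hu j i
      let p : S ⊗[R] A' := δ * tr S E.le (Q j) - ∑ i ∈ T, γ i * tr S E.le (Q i)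
      have hp : p ∈ Q' := by
        refine Ideal.sub_mem _ (Ideal.mul_mem_left _ _ (htrker _ (hQm _))) (Ideal.sum_mem _ ?_)
        intro i _
        exact Ideal.mul_mem_left _ _ (htrker _ (hQm _))
      have hwQ : ∀ i, w * tr S E.le (Q i) = ∑ k, tr S E.le ((∏ i' ∈ Finset.univ.erase i, s i') * m i k) * tr S E.le (g k) := by
        intro i
        have h1 : (∏ i', s i') * Q i = ∑ k, (∏ i' ∈ Finset.univ.erase i, s i') * m i k * g k := by
          rw [← Finset.mul_prod_erase Finset.univ s (Finset.mem_univ i), mul_comm (s i), mul_assoc, hm,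
            Finset.mul_sum]
          refine Finset.sum_congr rfl fun k _ => ?_
          ring
        change tr S E.le (∏ i', s i') * tr S E.le (Q i) = _
        rw [← map_mul, h1, map_sum]
        refine Finset.sum_congr rfl fun k _ => ?_
        rw [map_mul]
      let C : Fin h → S ⊗[R] A' := fun k => δ * tr S E.le ((∏ i' ∈ Finset.univ.erase j, s i') * m j k) -
        ∑ i ∈ T, γ i * tr S E.le ((∏ i' ∈ Finset.univ.erase i, s i') * m i k)
      have hwp : w * p = ∑ k, C k * tr S E.le (g k) := by
        have h1 : w * p = δ * (w * tr S E.le (Q j)) - ∑ i ∈ T, γ i * (w * tr S E.le (Q i)) := by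
          simp only [p, mul_sub, Finset.mul_sum]
          congr 1
          · ring
          · refine Finset.sum_congr rfl fun i _ => ?_
            ring
        rw [h1, hwQ]
        simp only [hwQ, C, sub_mul, Finset.sum_sub_distrib, Finset.mul_sum, Finset.sum_mul]
        congr 1
        · refine Finset.sum_congr rfl fun k _ => ?_
          ring
        · rw [Finset.sum_comm]
          refine Finset.sum_congr rfl fun k _ => Finset.sum_congr rfl fun i _ => ?_
          ring
      have hC : ∀ k, C k ∈ Q' := by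
        intro k
        rw [hQ', RingHom.mem_ker]
        apply IsFractionRing.injective W (FractionRing W)
        have hinj : ∀ y : W, y ≠ 0 → algebraMap W (FractionRing W) y ≠ 0 := by
          intro y hy h0
          apply hy
          apply IsFractionRing.injective W (FractionRing W)
          rw [h0, map_zero]
        set ι := algebraMap W (FractionRing W) with hι
        have hprod : ∀ i, ι (ps S W A (∏ i' ∈ Finset.univ.erase i, s i')) =
            ι (ps S W A (∏ i', s i')) / ι (ps S W A (s i)) := by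
          intro i
          rw [← Finset.mul_prod_erase Finset.univ s (Finset.mem_univ i), map_mul, map_mul, mul_comm,
            mul_div_assoc, div_self (hinj _ (hs0 i)), mul_one]
        have hγ : ∀ i ∈ T, ι (ps S W A' (γ i)) = ι (ps S W A' δ) * (ι (ps S W A (α j i)) / ι (ps S W A (β j i))) := by
          intro i hi
          have h2 : ι (ps S W A' δ) = ι (ps S W A' (u j i)) * ι (ps S W A' (∏ i' ∈ T.erase i, u j i')) := by
            rw [← map_mul, ← map_mul, Finset.mul_prod_erase T (u j) hi]
          have h3 : ι (ps S W A' (u j i)) * ι (ps S W A (α j i)) = ι (ps S W A' (c j i)) * ι (ps S W A (β j i)) := by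
            rw [← map_mul, ← map_mul, huc]
          have h4 : ι (ps S W A (β j i)) ≠ 0 := hinj _ (hαβ j i).1
          rw [h2, ← mul_div_assoc, eq_div_iff h4]
          simp only [γ, map_mul]
          linear_combination (- ι (ps S W A' (∏ i' ∈ T.erase i, u j i'))) * h3
        have h5 : ι (ps S W A' (C k)) = ι (ps S W A' δ) * ι (ps S W A (∏ i', s i')) *
            (ι (ps S W A (m j k)) / ι (ps S W A (s j)) -
              ∑ i ∈ T, ι (ps S W A (α j i)) / ι (ps S W A (β j i)) * (ι (ps S W A (m i k)) / ι (ps S W A (s i)))) := by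
          simp only [C, map_sub, map_sum, map_mul, ps_tr]
          rw [mul_sub, hprod, Finset.mul_sum]
          congr 1
          · ring
          · refine Finset.sum_congr rfl fun i hi => ?_
            rw [hγ i hi, hprod]
            ring
        rw [h5, hval j k, sub_self, mul_zero, map_zero]
      have hpJ : p ∈ fre_J Q' w := by
        refine ⟨hp, ?_⟩
        rw [hwp]
        refine Ideal.sum_mem _ fun k _ => ?_
        rw [pow_two]
        exact Ideal.mul_mem_mul (hC k) (htrker _ (hg k))
      refine ⟨δ, hδ, ?_⟩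
      have h6 : δ * tr S E.le (Q j) = ∑ i ∈ T, γ i * tr S E.le (Q i) + p := by
        simp only [p]
        ring
      rw [h6]
      refine Ideal.add_mem _ (Ideal.mem_sup_left (Ideal.sum_mem _ ?_)) (Ideal.mem_sup_right hpJ)
      intro i hi
      refine Ideal.mul_mem_left _ _ (Ideal.subset_span ⟨σ ⟨i, hi⟩, ?_⟩)
      rw [hq'σ]
    have h7 : Q' ≤ sat (ps S W A') (Ideal.span (Set.range q') ⊔ fre_J Q' w) := by
      refine E.ker.trans ((sat_mono _ ?_).trans (sat_sat _ _))
      rw [← hQ, Ideal.map_span, Ideal.span_le]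
      rintro _ ⟨_, ⟨j, rfl⟩, rfl⟩
      exact main j
    intro p hp
    obtain ⟨t, ht, htp⟩ := h7 hp
    obtain ⟨y, hy, z, hz, hyz⟩ := Submodule.mem_sup.mp htp
    exact ⟨t, ht, y, hy, z, hz.1, hz.2, hyz.symm⟩

end Pool.Agent.Helper10.MU
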