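import Pool.Agent.Helper10.MU.Stm

/-!
# TRN: extensions of levels are reflexive and transitive
-/

set_option autoImplicit false
set_option linter.unusedSectionVars false

open scoped TensorProduct
open IsLocalRing

universe u

namespace Pool.Agent.Helper10.MU

open Pool.Agent.Helper7.LU (psi inc)

section

variable {R V S W : Type u} [CommRing R] [CommRing V] [IsDomain V] [ValuationRing V] [CommRing S]
  [CommRing W] [IsDomain W] [ValuationRing W]
  [Algebra R V] [Algebra R S] [Algebra V W] [Algebra R W] [Algebra S W] [IsScalarTower R S W]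
  [IsScalarTower R V W]

theorem trn_tr_refl (A : Subalgebra R V) (b : S ⊗[R] A) : tr S (le_refl A) b = b := by
  induction b with
  | zero => simp
  | add x y hx hy => rw [map_add, hx, hy]
  | tmul s a => rw [tr_tmul]; rfl

theorem trn_refl {e : ℕ} {A : Subalgebra R V} {x : Fin e → V} (h : Lev S W A x) :
    Ext S W A A x x := by
  refine ⟨le_refl A, Relation.ReflTransGen.refl, h, fun b hb => ?_⟩
  refine le_sat _ _ ?_
  rw [← trn_tr_refl A b]
  exact Ideal.mem_map_of_mem _ hb

/-- the kernel of a level, along inclusions -/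
theorem trn_map {A A' : Subalgebra R V} (h : A ≤ A') {I J : Ideal (S ⊗[R] A)}
    (hIJ : I ≤ sat (ps S W A) J) : I.map (tr S h) ≤ sat (ps S W A') (J.map (tr S h)) := by
  rw [Ideal.map_le_iff_le_comap]
  intro b hb
  obtain ⟨s, hs, hsb⟩ := hIJ hb
  rw [Ideal.mem_comap]
  refine ⟨tr S h s, by rwa [ps_tr], ?_⟩
  rw [← map_mul]
  exact Ideal.mem_map_of_mem _ hsb

theorem trn_map_map {A A' A'' : Subalgebra R V} (h : A ≤ A') (h' : A' ≤ A'')
    (I : Ideal (S ⊗[R] A)) : (I.map (tr S h)).map (tr S h') = I.map (tr S (h.trans h')) := by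
  apply le_antisymm
  · rw [Ideal.map_le_iff_le_comap, Ideal.map_le_iff_le_comap]
    intro b hb
    rw [Ideal.mem_comap, Ideal.mem_comap, tr_tr]
    exact Ideal.mem_map_of_mem _ hb
  · rw [Ideal.map_le_iff_le_comap]
    intro b hb
    rw [Ideal.mem_comap, ← tr_tr h h']
    exact Ideal.mem_map_of_mem _ (Ideal.mem_map_of_mem _ hb)

theorem trn_trans {e : ℕ} {A A' A'' : Subalgebra R V} {x x' x'' : Fin e → V}
    (E : Ext S W A A' x x') (E' : Ext S W A' A'' x' x'') : Ext S W A A'' x x'' := by
  refine ⟨E.le.trans E'.le, E.reach.trans E'.reach, E'.lev, ?_⟩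
  have h1 := trn_map (W := W) E'.le E.ker
  rw [trn_map_map] at h1
  exact E'.ker.trans ((sat_mono _ h1).trans (sat_sat _ _))

end

theorem trn : S_TRN.{u} := by
  intro R V S W _ _ _ _ _ _ _ _ _ _ _ _ _ _ _ _ _ _ _ e A A' A'' x x' x''
  exact ⟨trn_refl, trn_trans⟩

end Pool.Agent.Helper10.MU
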