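import Pool.Agent.Helper10.MU.Mno
import Pool.Agent.Helper10.MU.Trn

/-!
# KEY: finitely many divisibilities become true on a level
-/

set_option autoImplicit false
set_option linter.unusedSectionVars false

open scoped TensorProduct
open IsLocalRing

universe u

namespace Pool.Agent.Helper10.MU

open Pool.Agent.Helper7.LU (psi inc)

section

variable {R V S W : Type u} [CommRing R] [IsLocalRing R] [IsNoetherianRing R] [CommRing V]
  [IsDomain V] [ValuationRing V] [CommRing S] [IsNoetherianRing S] [CommRing W] [IsDomain W]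
  [ValuationRing W] [Algebra R V] [Algebra R S] [Algebra V W] [Algebra R W] [Algebra S W]
  [IsScalarTower R S W] [IsScalarTower R V W]

/-- persistence -/
theorem key_persist {A A' : Subalgebra R V} (h : A ≤ A') {a b : S ⊗[R] A}
    (hab : a ∈ sat (ps S W A) (Ideal.span {b} ⊔ RingHom.ker (ps S W A))) :
    tr S h a ∈ sat (ps S W A') (Ideal.span {tr S h b} ⊔ RingHom.ker (ps S W A')) := by
  obtain ⟨s, hs, hsa⟩ := hab
  refine ⟨tr S h s, by rwa [ps_tr], ?_⟩
  rw [← map_mul]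
  have h1 : (Ideal.span {b} ⊔ RingHom.ker (ps S W A)).map (tr S h) ≤
      Ideal.span {tr S h b} ⊔ RingHom.ker (ps S W A') := by
    rw [Ideal.map_sup, Ideal.map_span, Set.image_singleton]
    refine sup_le_sup_left ?_ _
    rw [Ideal.map_le_iff_le_comap]
    intro c hc
    rw [Ideal.mem_comap, RingHom.mem_ker, ps_tr]
    exact hc
  exact h1 (Ideal.mem_map_of_mem _ hsa)

/-- one pair -/
theorem key_one (hMNO : S_MNO.{u}) (hPER : S_PER.{u}) (hRCH : S_RCH.{u}) (hSTP : S_STP.{u})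
    (hD : IsData R V S W) {e : ℕ} {A : Subalgebra R V} {x : Fin e → V} (hL : Lev S W A x)
    (hx : ∀ i, x i ∈ maximalIdeal V) (hInd : Ind x) (a b : S ⊗[R] A) (hb : ps S W A b ≠ 0)
    (hab : ps S W A b ∣ ps S W A a) :
    ∃ A' x', ∃ E : Ext S W A A' x x',
      tr S E.le a ∈ sat (ps S W A') (Ideal.span {tr S E.le b} ⊔ RingHom.ker (ps S W A')) := by
  by_cases ha : ps S W A a = 0
  · refine ⟨A, x, trn_refl hL, 1, by simp, ?_⟩
    rw [one_mul]
    refine Ideal.mem_sup_right ?_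
    rw [RingHom.mem_ker, ps_tr]
    exact ha
  obtain ⟨A1, x1, E1, β1, s, v, hs, hv, he⟩ := hMNO R V S W hD e A x hL hx hInd b hb
  obtain ⟨hx1, hInd1, -⟩ := hRCH V e x x1 hx hInd E1.reach
  obtain ⟨A2, x2, E2, α2, s', v', hs', hv', he'⟩ := hMNO R V S W hD e A1 x1 E1.lev hx1 hInd1
    (tr S E1.le a) (by rwa [ps_tr])
  rw [ps_tr] at he'
  obtain ⟨hx2, hInd2, hmon2⟩ := hRCH V e x1 x2 hx1 hInd1 E2.reach
  obtain ⟨β2, hβ2⟩ := hmon2 β1
  rw [hβ2] at he
  have hdvd : mon x2 β2 ∣ mon x2 α2 := by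
    apply hD.div
    have h1 : algebraMap V W (mon x2 β2) ∣ ps S W A b := by
      rw [← hs.dvd_mul_left, he]
      exact dvd_mul_left _ _
    have h2 : ps S W A a ∣ algebraMap V W (mon x2 α2) := by
      rw [← hv'.dvd_mul_left, ← he']
      exact dvd_mul_left _ _
    exact h1.trans (hab.trans h2)
  obtain ⟨x3, hR, hP⟩ := hPER V e x2 hx2 hInd2 {(β2, α2)} (by
    intro p hp
    rw [Finset.mem_singleton.1 hp]
    exact hdvd)
  obtain ⟨β3, α3, h3, h4, h5⟩ := hP (β2, α2) (Finset.mem_singleton_self _)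
  have h3' : mon x2 β2 = mon x3 β3 := h3
  have h4' : mon x2 α2 = mon x3 α3 := h4
  obtain ⟨A3, E3⟩ := hSTP R V S W hD e A2 x2 x3 E2.lev hx2 hInd2 hR
  have hmon : mon x3 α3 = mon x3 β3 * mon x3 (α3 - β3) := by
    rw [← mno_mon_add, add_tsub_cancel_of_le h5]
  set m : A3 := ⟨mon x3 (α3 - β3), mno_mem E3.lev.mem _⟩ with hm
  rw [h3'] at he
  rw [h4', hmon] at he'
  have E12 := trn_trans E1 E2
  have E := trn_trans E12 E3
  refine ⟨A3, x3, E, ?_⟩
  -- the elements on the last level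
  set S1 := tr S (E2.le.trans E3.le) s with hS1
  set V1 := tr S (E2.le.trans E3.le) v with hV1
  set S2 := tr S E3.le s' with hS2
  set V2 := tr S E3.le v' with hV2
  have p1 : ps S W A3 S1 = ps S W A1 s := ps_tr _ _
  have p2 : ps S W A3 V1 = ps S W A1 v := ps_tr _ _
  have p3 : ps S W A3 S2 = ps S W A2 s' := ps_tr _ _
  have p4 : ps S W A3 V2 = ps S W A2 v' := ps_tr _ _
  have pm : ps S W A3 (inc S A3 m) = algebraMap V W (mon x3 (α3 - β3)) := ps_inc A3 m
  refine ⟨V1 * S2, by rw [map_mul, p2, p3]; exact hv.mul hs', ?_⟩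
  have hker : V1 * S2 * tr S E.le a - V2 * S1 * inc S A3 m * tr S E.le b ∈
      RingHom.ker (ps S W A3) := by
    rw [RingHom.mem_ker, map_sub, map_mul, map_mul, map_mul, map_mul, map_mul, p1, p2, p3, p4, pm,
      ps_tr, ps_tr]
    rw [map_mul] at he'
    linear_combination (ps S W A1 v) * he' -
      (ps S W A2 v' * algebraMap V W (mon x3 (α3 - β3))) * he
  have h6 : V1 * S2 * tr S E.le a = V2 * S1 * inc S A3 m * tr S E.le b +
      (V1 * S2 * tr S E.le a - V2 * S1 * inc S A3 m * tr S E.le b) := by ring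
  rw [h6]
  exact Ideal.add_mem _ (Ideal.mem_sup_left (Ideal.mem_span_singleton'.2 ⟨_, rfl⟩))
    (Ideal.mem_sup_right hker)

end

theorem key (hMNO : S_MNO.{u}) (hPER : S_PER.{u}) (hRCH : S_RCH.{u}) (hSTP : S_STP.{u}) :
    S_KEY.{u} := by
  classical
  intro R V S W _ _ _ _ _ _ _ _ _ _ _ _ _ _ _ _ _ _ hD e A x hL hx hInd n α β hαβ
  have hall : ∀ T : Finset (Fin n), ∃ A' x', ∃ E : Ext S W A A' x x',
      ∀ k ∈ T, tr S E.le (α k) ∈ sat (ps S W A')
        (Ideal.span {tr S E.le (β k)} ⊔ RingHom.ker (ps S W A')) := by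
    intro T
    induction T using Finset.induction_on with
    | empty => exact ⟨A, x, trn_refl hL, by simp⟩
    | insert k T _ ih =>
      obtain ⟨A', x', E, hE⟩ := ih
      obtain ⟨hx', hInd', -⟩ := hRCH V e x x' hx hInd E.reach
      obtain ⟨A'', x'', E', hE'⟩ := key_one hMNO hPER hRCH hSTP hD E.lev hx' hInd'
        (tr S E.le (α k)) (tr S E.le (β k)) (by rw [ps_tr]; exact (hαβ k).1)
        (by rw [ps_tr, ps_tr]; exact (hαβ k).2)
      refine ⟨A'', x'', trn_trans E E', fun j hj => ?_⟩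
      rcases Finset.mem_insert.1 hj with rfl | hj
      · rw [tr_tr, tr_tr] at hE'
        exact hE'
      · have h1 := key_persist (W := W) E'.le (hE j hj)
        rw [tr_tr, tr_tr] at h1
        exact h1
  obtain ⟨A', x', E, hE⟩ := hall Finset.univ
  exact ⟨A', x', E, fun k => hE k (Finset.mem_univ k)⟩

end Pool.Agent.Helper10.MU
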