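import Pool.Agent.Helper10.MU.Stm
import Pool.Agent.Helper7.LU.Reg

/-!
# Uniformization of formally monomial valuations: assembly
-/

set_option autoImplicit false
set_option linter.unusedSectionVars false

open scoped TensorProduct
open IsLocalRing

universe u

namespace Pool.Agent.Helper10.MU

open Pool.Agent.Helper7.LU (psi inc)

section

variable {R V S W : Type u} [CommRing R] [IsLocalRing R] [IsNoetherianRing R] [CommRing V] [IsDomain V]
  [ValuationRing V] [CommRing S] [IsNoetherianRing S] [CommRing W] [IsDomain W] [ValuationRing W] [Algebra R V]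
  [Algebra R S] [Algebra V W] [Algebra R W] [Algebra S W] [IsScalarTower R S W] [IsScalarTower R V W]

/-- Units of `V` and of `W`. -/
theorem isUnit_iff_W (hd : IsData R V S W) (v : V) : IsUnit (algebraMap V W v) ↔ IsUnit v := by
  constructor
  · intro h
    have h1 : algebraMap V W v ∣ algebraMap V W 1 := h.dvd
    exact isUnit_of_dvd_one (hd.div _ _ h1)
  · exact fun h => h.map _

theorem mem_max_W (hd : IsData R V S W) (v : V) : algebraMap V W v ∈ maximalIdeal W ↔ v ∈ maximalIdeal V := by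
  rw [mem_maximalIdeal, mem_maximalIdeal, mem_nonunits_iff, mem_nonunits_iff, isUnit_iff_W hd]

/-- KEY for a finite set of pairs. -/
theorem key_finset (hKEY : S_KEY.{u}) (hd : IsData R V S W) {e : ℕ} {A : Subalgebra R V} {x : Fin e → V}
    (hL : Lev S W A x) (hx : ∀ i, x i ∈ maximalIdeal V) (hi : Ind x) (P : Finset ((S ⊗[R] A) × (S ⊗[R] A)))
    (hP : ∀ p ∈ P, ps S W A p.2 ≠ 0 ∧ ps S W A p.2 ∣ ps S W A p.1) :
    ∃ A' x', ∃ E : Ext S W A A' x x',
      ∀ p ∈ P, tr S E.le p.1 ∈ sat (ps S W A') (Ideal.span {tr S E.le p.2} ⊔ RingHom.ker (ps S W A')) := by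
  obtain ⟨A', x', E, h⟩ := hKEY R V S W hd e A x hL hx hi P.card (fun k => (P.equivFin.symm k).1.1)
    (fun k => (P.equivFin.symm k).1.2) (fun k => hP _ (P.equivFin.symm k).2)
  refine ⟨A', x', E, fun p hp => ?_⟩
  have := h (P.equivFin ⟨p, hp⟩)
  simpa using this

/-- Being a monomial times a unit on a level. -/
def MonAt (S W : Type u) [CommRing S] [CommRing W] [IsDomain W] [ValuationRing W] [Algebra R S]
    [Algebra V W] [Algebra R W] [Algebra S W] [IsScalarTower R S W] [IsScalarTower R V W] {e : ℕ}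
    (A : Subalgebra R V) (x : Fin e → V) (f : V) (β : Fin e → ℕ) : Prop :=
  ∃ s v : S ⊗[R] A, IsUnit (ps S W A s) ∧ IsUnit (ps S W A v) ∧
    ps S W A s * algebraMap V W f = ps S W A v * algebraMap V W (mon x β)

theorem MonAt.ext (hRCH : S_RCH.{u}) {e : ℕ} {A A' : Subalgebra R V} {x x' : Fin e → V}
    (hx : ∀ i, x i ∈ maximalIdeal V) (hi : Ind x) (E : Ext S W A A' x x') {f : V} {β : Fin e → ℕ}
    (h : MonAt S W A x f β) : ∃ β', MonAt S W A' x' f β' := by
  obtain ⟨s, v, hs, hv, h⟩ := h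
  obtain ⟨-, -, h3⟩ := hRCH V e x x' hx hi E.reach
  obtain ⟨β', hβ'⟩ := h3 β
  refine ⟨β', tr S E.le s, tr S E.le v, ?_, ?_, ?_⟩
  · rwa [ps_tr]
  · rwa [ps_tr]
  · rw [ps_tr, ps_tr, h, hβ']

/-- All elements of a finite set become monomials times units. -/
theorem mono_all (hRCH : S_RCH.{u}) (hTRN : S_TRN.{u}) (hMNO : S_MNO.{u}) (hd : IsData R V S W) {e : ℕ}
    {A : Subalgebra R V} {x : Fin e → V} (hL : Lev S W A x) (hx : ∀ i, x i ∈ maximalIdeal V) (hi : Ind x)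
    (F : Finset V) (hF : ∀ f ∈ F, f ∈ A) :
    ∃ A' x', Ext S W A A' x x' ∧ ∀ f ∈ F, f ≠ 0 → ∃ β, MonAt S W A' x' f β := by
  classical
  induction F using Finset.induction_on with
  | empty => exact ⟨A, x, (hTRN R V S W hd e A A A x x x).1 hL, by simp⟩
  | insert f F hfF ih =>
    obtain ⟨A1, x1, E1, h1⟩ := ih fun g hg => hF g (Finset.mem_insert_of_mem hg)
    obtain ⟨hx1, hi1, -⟩ := hRCH V e x x1 hx hi E1.reach
    by_cases hf0 : f = 0
    · refine ⟨A1, x1, E1, fun g hg hg0 => ?_⟩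
      rcases Finset.mem_insert.mp hg with rfl | hg
      · exact absurd hf0 hg0
      · exact h1 g hg hg0
    · have hfA : f ∈ A := hF f (Finset.mem_insert_self _ _)
      have hfA1 : f ∈ A1 := E1.le hfA
      obtain ⟨A2, x2, E2, β, s, v, hs, hv, h2⟩ := hMNO R V S W hd e A1 x1 E1.lev hx1 hi1 (inc S A1 ⟨f, hfA1⟩)
        (by
          rw [ps_inc]
          exact fun h => hf0 (hd.inj (by rw [h, map_zero])))
      refine ⟨A2, x2, (hTRN R V S W hd e A A1 A2 x x1 x2).2 E1 E2, fun g hg hg0 => ?_⟩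
      rcases Finset.mem_insert.mp hg with rfl | hg
      · refine ⟨β, s, v, hs, hv, ?_⟩
        rw [ps_inc] at h2
        exact h2
      · obtain ⟨β', h3⟩ := h1 g hg hg0
        exact MonAt.ext hRCH hx1 hi1 E2 h3

/-- Approximation: elements of `S ⊗ A` with unit image are close to elements of `A` that are units in `V`. -/
theorem exists_unit_approx (hd : IsData R V S W) (A : Subalgebra R V) (M : ℕ) (hM : 0 < M) (s : S ⊗[R] A)
    (hs : IsUnit (ps S W A s)) : ∃ a : A, IsUnit (a : V) ∧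
      s - inc S A a ∈ (maximalIdeal R ^ M).map (algebraMap R (S ⊗[R] A)) := by
  obtain ⟨a, ha⟩ := hd.approx_tensor A M s
  refine ⟨a, ?_, ha⟩
  have h1 : (maximalIdeal R ^ M).map (algebraMap R (S ⊗[R] A)) ≤ (maximalIdeal W).comap (ps S W A) := by
    rw [Ideal.map_le_iff_le_comap]
    intro r hr
    rw [Ideal.mem_comap, Ideal.mem_comap, ps_algebraMap, mem_max_W hd]
    exact hd.dom r (Ideal.pow_le_self hM.ne' hr)
  have h2 := h1 ha
  rw [Ideal.mem_comap, map_sub, ps_inc] at h2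
  rw [← isUnit_iff_W hd]
  by_contra h3
  have h4 : algebraMap V W (a : V) ∈ maximalIdeal W := h3
  have h5 := Ideal.add_mem _ h2 h4
  rw [sub_add_cancel] at h5
  exact h5 hs

end

section

variable {R V S W K : Type u} [CommRing R] [IsDomain R] [IsLocalRing R] [IsNoetherianRing R] [CommRing V]
  [IsDomain V] [ValuationRing V] [CommRing S] [IsNoetherianRing S] [CommRing W] [IsDomain W] [ValuationRing W]
  [Algebra R V] [Algebra R S] [Algebra V W] [Algebra R W] [Algebra S W] [IsScalarTower R S W]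
  [IsScalarTower R V W] [Field K] [Algebra R K] [IsFractionRing R K] [Algebra V K] [IsScalarTower R V K]

/-- **Uniformization**, abstract form. -/
theorem main (hRCH : S_RCH.{u}) (hTRN : S_TRN.{u}) (hMNO : S_MNO.{u}) (hKEY : S_KEY.{u}) (hSTA : S_STA.{u})
    (hFRE : S_FRE.{u}) (hFRP : S_FRP.{u}) (hFIN : S_FIN.{u}) (hDIM : S_DIM.{u})
    (hVK : Function.Injective (algebraMap V K))
    (reg : ∀ (P : Ideal (K ⊗[R] S)) [P.IsPrime], IsRegularLocalRing (Localization.AtPrime P))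
    (hd : IsData R V S W) (t : R) (ht : t ∈ maximalIdeal R) (ht0 : t ≠ 0) (e : ℕ) (A₀ : Subalgebra R V)
    (x : Fin e → V) (hL : Lev S W A₀ x) (hx : ∀ i, x i ∈ maximalIdeal V) (hi : Ind x) :
    ∃ h : ℕ, ∀ F : Finset V, ∃ B : Subalgebra R V, B.FG ∧ A₀ ≤ B ∧ (F : Set V) ⊆ B ∧
      ∃ (_ : (cen B).IsPrime) (y : Fin e → B) (z : Fin h → B),
        IsRegularLocalRing (Localization.AtPrime (cen B)) ∧
        ringKrullDim (Localization.AtPrime (cen B)) = (h + e : ℕ) ∧
        maximalIdeal (Localization.AtPrime (cen B)) =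
          Ideal.span (algebraMap B (Localization.AtPrime (cen B)) '' (Set.range y ∪ Set.range z)) ∧
        ∀ f ∈ F, f ≠ 0 → ∃ (β : Fin e → ℕ) (s v : B), IsUnit (s : V) ∧ IsUnit (v : V) ∧
          (s : V) * f = v * mon (fun i => (y i : V)) β := by
  classical
  have hRV : Function.Injective (algebraMap R V) := by
    have h1 : (algebraMap R K : R → K) = (algebraMap V K) ∘ (algebraMap R V) := by
      ext r
      exact IsScalarTower.algebraMap_apply R V K r
    have h2 := IsFractionRing.injective R K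
    rw [h1] at h2
    exact h2.of_comp
  have hRW : Function.Injective (algebraMap R W) := by
    have h1 : (algebraMap R W : R → W) = (algebraMap V W) ∘ (algebraMap R V) := by
      ext r
      exact IsScalarTower.algebraMap_apply R V W r
    rw [h1]
    exact hd.inj.comp hRV
  obtain ⟨h, hh⟩ := Pool.Agent.Helper7.LU.generic_fibre (R := R) (V := V) (S := S) (W := W) (K := K) hRW hVK reg
  refine ⟨h, fun F => ?_⟩
  -- the elements of `F` are in a level
  obtain ⟨A1, x1, hA1, hF1, hr1, hL1⟩ := hSTA R V S W K hVK hd e A₀ x hL hx hi F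
  obtain ⟨hx1, hi1, -⟩ := hRCH V e x x1 hx hi hr1
  obtain ⟨A2, x2, E2, hm2⟩ := mono_all hRCH hTRN hMNO hd hL1 hx1 hi1 F hF1
  obtain ⟨hx2, hi2, -⟩ := hRCH V e x1 x2 hx1 hi1 E2.reach
  -- the kernel
  obtain ⟨-, g, hg, hg'⟩ := hh A2
  obtain ⟨A3, x3, E3, q, w, hw0, hfree⟩ := hFRE R V S W hd e A2 x2 E2.lev hx2 hi2 h g hg hg'
  obtain ⟨hx3, hi3, -⟩ := hRCH V e x2 x3 hx2 hi2 E3.reach
  have hm3 : ∀ f : V, ∃ β, f ∈ F → f ≠ 0 → MonAt S W A3 x3 f β := by
    intro f
    by_cases hf : f ∈ F ∧ f ≠ 0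
    · obtain ⟨β, hβ⟩ := hm2 f hf.1 hf.2
      obtain ⟨β', hβ'⟩ := MonAt.ext hRCH hx2 hi2 E3 hβ
      exact ⟨β', fun _ _ => hβ'⟩
    · exact ⟨0, fun h1 h2 => absurd ⟨h1, h2⟩ hf⟩
  choose β hβ using hm3
  have hx3A : ∀ i, x3 i ∈ A3 := E3.lev.mem
  have hmonA : ∀ (B : Subalgebra R V) (y : Fin e → V), (∀ i, y i ∈ B) → ∀ α, mon y α ∈ B := by
    intro B y hy α
    exact Subalgebra.prod_mem _ fun i _ => pow_mem (hy i) _
  have hx30 : ∀ i, x3 i ≠ 0 := by
    intro i h0
    have h1 : (fun _ => 0 : Fin e → ℕ) + Pi.single i 1 = (fun _ => 0 : Fin e → ℕ) + Pi.single i 2 := by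
      refine hi3 _ _ ?_
      have h2 : ∀ k : ℕ, k ≠ 0 → mon x3 ((fun _ => 0 : Fin e → ℕ) + Pi.single i k) = 0 := by
        intro k hk
        refine Finset.prod_eq_zero (Finset.mem_univ i) ?_
        simp [h0, hk]
      rw [h2 1 one_ne_zero, h2 2 two_ne_zero]
      exact Associated.refl _
    have h3 := congrFun h1 i
    simp at h3
  have hmon0 : ∀ α, mon x3 α ≠ 0 := fun α => Finset.prod_ne_zero_iff.mpr fun i _ => pow_ne_zero _ (hx30 i)
  -- the element `τ`
  have hWV : ∀ v : V, v ≠ 0 → algebraMap V W v ≠ 0 := fun v hv h0 => hv (hd.inj (by rw [h0, map_zero]))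
  obtain ⟨n, hn⟩ := hd.small (ps S W A3 w * ∏ f ∈ F, algebraMap V W (mon x3 (β f)))
    (mul_ne_zero hw0 (Finset.prod_ne_zero_iff.mpr fun f _ => hWV _ (hmon0 _)))
  have htn : t ^ (n + 1) ∈ maximalIdeal R ^ n :=
    Ideal.pow_le_pow_right (Nat.le_succ n) (Ideal.pow_mem_pow ht _)
  have htau := hn _ htn
  set τ : V := algebraMap R V (t ^ (n + 1)) with hτ
  have hτ0 : τ ≠ 0 := fun h0 => pow_ne_zero (n + 1) ht0 (hRV (by rw [← hτ, h0, map_zero]))
  have htV : algebraMap R V t ∈ maximalIdeal V := hd.dom t ht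
  have hτm : τ ∈ maximalIdeal V := by
    rw [hτ, map_pow, pow_succ]
    exact Ideal.mul_mem_left _ _ htV
  have htV0 : algebraMap R V t ≠ 0 := fun h0 => ht0 (hRV (by rw [h0, map_zero]))
  have hτA : ∀ B : Subalgebra R V, τ ∈ B := fun B => B.algebraMap_mem _
  have htA : ∀ B : Subalgebra R V, algebraMap R V t ∈ B := fun B => B.algebraMap_mem _
  obtain ⟨M', hM'⟩ := hd.small (algebraMap V W (τ * algebraMap R V t)) (hWV _ (mul_ne_zero hτ0 htV0))
  obtain ⟨G, hG⟩ := (maximalIdeal R ^ (M' + 1)).fg_of_isNoetherianRing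
  have hGm : ∀ r ∈ G, algebraMap V W (τ * algebraMap R V t) ∣ algebraMap V W (algebraMap R V r) := by
    intro r hr
    apply hM'
    apply Ideal.pow_le_pow_right (Nat.le_succ M')
    rw [← hG]
    exact Ideal.subset_span hr
  -- the divisibilities
  let P : Finset ((S ⊗[R] A3) × (S ⊗[R] A3)) :=
    {(inc S A3 ⟨τ, hτA A3⟩, w)} ∪ F.image (fun f => (inc S A3 ⟨τ, hτA A3⟩, inc S A3 ⟨mon x3 (β f), hmonA A3 x3 hx3A _⟩)) ∪
      G.image (fun r => (algebraMap R (S ⊗[R] A3) r, inc S A3 (⟨τ, hτA A3⟩ * ⟨algebraMap R V t, htA A3⟩)))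
  obtain ⟨A4, x4, E4, h4⟩ := key_finset hKEY hd E3.lev hx3 hi3 P (by
    intro p hp
    simp only [P, Finset.mem_union, Finset.mem_singleton, Finset.mem_image] at hp
    rcases hp with (rfl | ⟨f, hf, rfl⟩) | ⟨r, hr, rfl⟩
    · refine ⟨hw0, ?_⟩
      rw [ps_inc]
      exact (Dvd.intro _ rfl).trans htau
    · simp only [ps_inc]
      refine ⟨hWV _ (hmon0 _), ?_⟩
      exact ((Finset.dvd_prod_of_mem _ hf).trans (Dvd.intro_left _ rfl)).trans htau
    · simp only [ps_inc, ps_algebraMap]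
      exact ⟨hWV _ (mul_ne_zero hτ0 htV0), hGm r hr⟩)
  obtain ⟨hx4, hi4, hmon4⟩ := hRCH V e x3 x4 hx3 hi3 E4.reach
  have hx4A : ∀ i, x4 i ∈ A4 := E4.lev.mem
  have h4w : inc S A4 ⟨τ, hτA A4⟩ ∈ sat (ps S W A4) (Ideal.span {tr S E4.le w} ⊔ RingHom.ker (ps S W A4)) := by
    have := h4 (inc S A3 ⟨τ, hτA A3⟩, w) (by simp [P])
    simp only [tr_inc] at this
    exact this
  have h4f : ∀ f ∈ F, inc S A4 ⟨τ, hτA A4⟩ ∈ sat (ps S W A4)
      (Ideal.span {inc S A4 ⟨mon x3 (β f), E4.le (hmonA A3 x3 hx3A _)⟩} ⊔ RingHom.ker (ps S W A4)) := by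
    intro f hf
    have := h4 (inc S A3 ⟨τ, hτA A3⟩, inc S A3 ⟨mon x3 (β f), hmonA A3 x3 hx3A _⟩) (by
      simp only [P, Finset.mem_union, Finset.mem_image]
      exact Or.inl (Or.inr ⟨f, hf, rfl⟩))
    simp only [tr_inc] at this
    exact this
  have h4r : ∀ r ∈ maximalIdeal R ^ (M' + 1), algebraMap R (S ⊗[R] A4) r ∈
      sat (ps S W A4) (Ideal.span {inc S A4 ⟨τ, hτA A4⟩} * (maximalIdeal W).comap (ps S W A4) ⊔
        RingHom.ker (ps S W A4)) := by
    intro r hr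
    have h5 : (maximalIdeal R ^ (M' + 1)) ≤ (sat (ps S W A4) (Ideal.span {inc S A4 ⟨τ, hτA A4⟩} *
        (maximalIdeal W).comap (ps S W A4) ⊔ RingHom.ker (ps S W A4))).comap (algebraMap R (S ⊗[R] A4)) := by
      rw [← hG, Ideal.span_le]
      intro r hr
      have := h4 (algebraMap R (S ⊗[R] A3) r, inc S A3 (⟨τ, hτA A3⟩ * ⟨algebraMap R V t, htA A3⟩)) (by
        simp only [P, Finset.mem_union, Finset.mem_image]
        exact Or.inr ⟨r, hr, rfl⟩)
      simp only [tr_inc, AlgHom.commutes] at this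
      rw [SetLike.mem_coe, Ideal.mem_comap]
      refine sat_mono _ (sup_le_sup_right ?_ _) this
      rw [Ideal.span_singleton_le_iff_mem]
      have h6 : inc S A4 (Subalgebra.inclusion E4.le (⟨τ, hτA A3⟩ * ⟨algebraMap R V t, htA A3⟩)) =
          inc S A4 ⟨τ, hτA A4⟩ * inc S A4 ⟨algebraMap R V t, htA A4⟩ := by
        rw [← map_mul]
        rfl
      rw [h6]
      refine Ideal.mul_mem_mul (Ideal.mem_span_singleton_self _) ?_
      rw [Ideal.mem_comap, ps_inc, mem_max_W hd]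
      exact htV
    exact h5 hr
  -- the last blowing up
  have hfree4 := hFRP R V S W hd e A3 A4 x3 x4 E4 h q w hfree
  obtain ⟨A5, hA5, z, hfg, hz, hdiv, hgen⟩ := hFIN R V S W hd e A4 x4 E4.lev hx4 h _ _ hfree4 ⟨τ, hτA A4⟩
    hτ0 hτm h4w (M' + 1) (Nat.succ_pos _) h4r
  have hprime : (cen A5).IsPrime := Ideal.comap_isPrime _ _
  let y : Fin e → A5 := fun i => ⟨x4 i, hA5 (hx4A i)⟩
  have hft : IsNoetherianRing A5 := by
    have : Algebra.FiniteType R A5 := A5.fg_iff_finiteType.mp hfg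
    exact Algebra.FiniteType.isNoetherianRing R A5
  have hmax : (cen A5).map (algebraMap A5 (Localization.AtPrime (cen A5))) =
      maximalIdeal (Localization.AtPrime (cen A5)) := Localization.AtPrime.map_eq_maximalIdeal
  set s : Set (Localization.AtPrime (cen A5)) :=
    algebraMap A5 (Localization.AtPrime (cen A5)) '' (Set.range y ∪ Set.range z) with hs
  have hsub : Set.range y ∪ Set.range z ⊆ (cen A5 : Set A5) := by
    rintro _ (⟨i, rfl⟩ | ⟨i, rfl⟩)
    · exact hx4 i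
    · exact hz i
  have hunit : ∀ a : A5, IsUnit (a : V) → IsUnit (algebraMap A5 (Localization.AtPrime (cen A5)) a) := by
    intro a ha
    rw [IsLocalization.AtPrime.isUnit_to_map_iff (Localization.AtPrime (cen A5)) (cen A5)]
    exact fun h5 => h5 ha
  have hgen' : maximalIdeal (Localization.AtPrime (cen A5)) ≤ Ideal.span s ⊔
      maximalIdeal (Localization.AtPrime (cen A5)) ^ 2 := by
    rw [← hmax, Ideal.map_le_iff_le_comap, ← Ideal.map_pow]
    intro a ha
    obtain ⟨c, hc, hca⟩ := hgen ha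
    have h6 := Ideal.mem_map_of_mem (algebraMap A5 (Localization.AtPrime (cen A5))) hca
    rw [map_mul, Ideal.map_sup, Ideal.map_span] at h6
    rw [Ideal.mem_comap]
    exact (Ideal.unit_mul_mem_iff_mem _ (hunit c hc)).mp h6
  have hfin : s.Finite := ((Set.finite_range y).union (Set.finite_range z)).image _
  have hcard : s.ncard ≤ h + e := by
    refine (Set.ncard_image_le ((Set.finite_range y).union (Set.finite_range z))).trans ?_
    refine (Set.ncard_union_le _ _).trans ?_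
    have h1 : ∀ (k : ℕ) (y : Fin k → A5), (Set.range y).ncard ≤ k := by
      intro k y
      rw [← Set.image_univ]
      refine (Set.ncard_image_le Set.finite_univ).trans ?_
      rw [Set.ncard_univ, Nat.card_eq_fintype_card, Fintype.card_fin]
    have h2 := h1 e y
    have h3 := h1 h z
    omega
  have hsm : s ⊆ maximalIdeal (Localization.AtPrime (cen A5)) := by
    rintro _ ⟨a, ha, rfl⟩
    rw [← hmax]
    exact Ideal.mem_map_of_mem _ (hsub ha)
  have hdim : (((h + e : ℕ) : ℕ∞) : WithBot ℕ∞) ≤ ringKrullDim (Localization.AtPrime (cen A5)) := by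
    rw [IsLocalization.AtPrime.ringKrullDim_eq_height (cen A5)]
    have h1 := hDIM R V S W hd e A5 hfg x4 (fun i => hA5 (hx4A i)) hx4 hi4
    have h2 := (hh A5).1
    rw [ker_ps, h2] at h1
    exact_mod_cast h1
  obtain ⟨hreg, hfr, -⟩ := Pool.Agent.Helper7.LU.regular_of_span s hfin hgen' hsm (h + e) hcard hdim
  have hspan : maximalIdeal (Localization.AtPrime (cen A5)) = Ideal.span s := by
    apply le_antisymm
    · refine Submodule.le_of_le_smul_of_le_jacobson_bot (maximalIdeal _).fg_of_isNoetherianRing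
        (maximalIdeal_le_jacobson ⊥) ?_
      rw [smul_eq_mul, ← pow_two]
      exact hgen'
    · exact Ideal.span_le.mpr hsm
  have hFA5 : (F : Set V) ⊆ A5 := fun f hf => hA5 (E4.le (E3.le (E2.le (hF1 hf))))
  refine ⟨A5, hfg, hA1.trans (E2.le.trans (E3.le.trans (E4.le.trans hA5))), hFA5, hprime, y, z, hreg,
    le_antisymm ?_ hdim, hspan, ?_⟩
  · rw [← IsRegularLocalRing.spanFinrank_maximalIdeal]
    exact_mod_cast hfr
  -- the elements of `F`
  intro f hf hf0
  obtain ⟨s1, v1, hs1, hv1, h5⟩ := hβ f hf hf0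
  obtain ⟨β', hβ'⟩ := hmon4 (β f)
  have hfA4 : f ∈ A4 := E4.le (E3.le (E2.le (hF1 hf)))
  have hmA4 : mon x3 (β f) ∈ A4 := E4.le (hmonA A3 x3 hx3A _)
  have hclose : ∀ b : S ⊗[R] A4, b ∈ (maximalIdeal R ^ (M' + 1)).map (algebraMap R (S ⊗[R] A4)) →
      b ∈ sat (ps S W A4) (Ideal.span {inc S A4 ⟨τ, hτA A4⟩} * (maximalIdeal W).comap (ps S W A4) ⊔
        RingHom.ker (ps S W A4)) := by
    intro b hb
    refine Ideal.map_le_iff_le_comap.mpr ?_ hb
    exact fun r hr => h4r r hr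
  obtain ⟨s0, hs0, hs0'⟩ := exists_unit_approx hd A4 (M' + 1) (Nat.succ_pos _) (tr S E4.le s1) (by rwa [ps_tr])
  obtain ⟨v0, hv0, hv0'⟩ := exists_unit_approx hd A4 (M' + 1) (Nat.succ_pos _) (tr S E4.le v1) (by rwa [ps_tr])
  obtain ⟨v', hv'm, hv'⟩ := hdiv (s0 * ⟨f, hfA4⟩ - v0 * ⟨mon x3 (β f), hmA4⟩) (by
    have h6 : inc S A4 (s0 * ⟨f, hfA4⟩ - v0 * ⟨mon x3 (β f), hmA4⟩) =
        (tr S E4.le s1 * inc S A4 ⟨f, hfA4⟩ - tr S E4.le v1 * inc S A4 ⟨mon x3 (β f), hmA4⟩) -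
          (tr S E4.le s1 - inc S A4 s0) * inc S A4 ⟨f, hfA4⟩ +
          (tr S E4.le v1 - inc S A4 v0) * inc S A4 ⟨mon x3 (β f), hmA4⟩ := by
      rw [map_sub, map_mul, map_mul]
      ring
    rw [h6]
    refine Ideal.add_mem _ (Ideal.sub_mem _ ?_ (Ideal.mul_mem_right _ _ (hclose _ hs0')))
      (Ideal.mul_mem_right _ _ (hclose _ hv0'))
    refine le_sat _ _ (Ideal.mem_sup_right ?_)
    rw [RingHom.mem_ker, map_sub, map_mul, map_mul, ps_tr, ps_tr, ps_inc, ps_inc, h5, sub_self])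
  obtain ⟨s2, hs2, hs2'⟩ := h4f f hf
  obtain ⟨b, hb, κ, hκ, hsum⟩ := Submodule.mem_sup.mp hs2'
  obtain ⟨γ, hγ⟩ := Ideal.mem_span_singleton.mp hb
  obtain ⟨s3, hs3, hs3'⟩ := exists_unit_approx hd A4 (M' + 1) (Nat.succ_pos _) s2 hs2
  obtain ⟨γ0, hγ0⟩ := hd.approx_tensor A4 (M' + 1) γ
  obtain ⟨v'', hv''m, hv''⟩ := hdiv (s3 * ⟨τ, hτA A4⟩ - γ0 * ⟨mon x3 (β f), hmA4⟩) (by
    have h6 : inc S A4 (s3 * ⟨τ, hτA A4⟩ - γ0 * ⟨mon x3 (β f), hmA4⟩) =
        κ - (s2 - inc S A4 s3) * inc S A4 ⟨τ, hτA A4⟩ +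
          (γ - inc S A4 γ0) * inc S A4 ⟨mon x3 (β f), hmA4⟩ := by
      have h7 : κ = s2 * inc S A4 ⟨τ, hτA A4⟩ - inc S A4 ⟨mon x3 (β f), hmA4⟩ * γ := by
        rw [← hγ]
        rw [← hsum]
        ring
      rw [h7, map_sub, map_mul, map_mul]
      ring
    rw [h6]
    refine Ideal.add_mem _ (Ideal.sub_mem _ ?_ (Ideal.mul_mem_right _ _ (hclose _ hs3')))
      (Ideal.mul_mem_right _ _ (hclose _ hγ0))
    exact le_sat _ _ (Ideal.mem_sup_right hκ))
  have e1 : (s0 : V) * f - v0 * mon x3 (β f) = τ * v' := hv'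
  have e2 : (s3 : V) * τ - γ0 * mon x3 (β f) = τ * v'' := hv''
  let ι : A4 →ₐ[R] A5 := Subalgebra.inclusion hA5
  have hu1 : IsUnit ((s3 : V) - v'') := by
    by_contra h7
    have h8 : (s3 : V) - v'' ∈ maximalIdeal V := h7
    have h9 := Ideal.add_mem _ h8 hv''m
    rw [sub_add_cancel] at h9
    exact h9 hs3
  refine ⟨β', (ι s3 - v'') * ι s0, (ι s3 - v'') * ι v0 + ι γ0 * v', ?_, ?_, ?_⟩
  · exact hu1.mul hs0
  · change IsUnit (((s3 : V) - v'') * v0 + γ0 * v')
    by_contra h7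
    have h8 : ((s3 : V) - v'') * v0 + γ0 * v' ∈ maximalIdeal V := h7
    have h9 : (γ0 : V) * v' ∈ maximalIdeal V := Ideal.mul_mem_left _ _ hv'm
    have h10 := Ideal.sub_mem _ h8 h9
    rw [add_sub_cancel_right] at h10
    exact h10 (hu1.mul hv0)
  · change (((s3 : V) - v'') * s0) * f = (((s3 : V) - v'') * v0 + γ0 * v') * mon (fun i => (y i : V)) β'
    have h11 : mon (fun i => (y i : V)) β' = mon x3 (β f) := hβ'.symm
    rw [h11]
    linear_combination ((s3 : V) - v'') * e1 + (v' : V) * e2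

end

end Pool.Agent.Helper10.MU
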