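import Pool.Agent.Helper10.MU.Stm

/-! module MIN (helper9) -/

set_option autoImplicit false

open IsLocalRing

universe u

namespace Pool.Agent.Helper10.MU

theorem min_exists {W : Type u} [CommRing W] [IsDomain W] [ValuationRing W] {ι : Type} (g : ι → W)
    (F : Finset ι) (hF : F.Nonempty) : ∃ b ∈ F, ∀ c ∈ F, g b ∣ g c := by
  classical
  induction hF using Finset.Nonempty.cons_induction with
  | singleton a => exact ⟨a, by simp, by simp⟩
  | cons a s ha hs ih =>
    obtain ⟨b, hb, h⟩ := ih
    rcases ValuationRing.dvd_total (g a) (g b) with h1 | h1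
    · refine ⟨a, Finset.mem_cons_self _ _, fun c hc => ?_⟩
      rcases Finset.mem_cons.1 hc with rfl | hc
      · exact dvd_rfl
      · exact h1.trans (h c hc)
    · refine ⟨b, Finset.mem_cons.2 (Or.inr hb), fun c hc => ?_⟩
      rcases Finset.mem_cons.1 hc with rfl | hc
      · exact h1
      · exact h c hc

theorem min_main : S_MIN.{u} := by
  classical
  intro W _ _ _ e x hx hI F hF v hv
  obtain ⟨b, hb, h⟩ := min_exists (fun β => mon x β) F hF
  refine ⟨b, hb, h, ?_⟩
  have h1 : ∀ β : Fin e → ℕ, ∃ d : W, (β ∈ F → mon x β = mon x b * d) ∧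
      (β ∈ F → β ≠ b → d ∈ maximalIdeal W) := by
    intro β
    by_cases hβ : β ∈ F
    · obtain ⟨d, hd⟩ := h β hβ
      refine ⟨d, fun _ => hd, fun _ hne => ?_⟩
      rw [mem_maximalIdeal, mem_nonunits_iff]
      intro hu
      apply hne
      symm
      apply hI
      obtain ⟨u, rfl⟩ := hu
      exact ⟨u, hd.symm⟩
    · exact ⟨0, fun h => absurd h hβ, fun h => absurd h hβ⟩
  choose d hd1 hd2 using h1
  have h2 : ∑ β ∈ F, v β * mon x β = mon x b * (v b + ∑ β ∈ F.erase b, v β * d β) := by
    rw [← Finset.add_sum_erase _ _ hb, mul_add, Finset.mul_sum]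
    congr 1
    · ring
    · apply Finset.sum_congr rfl
      intro β hβ
      rw [hd1 β (Finset.mem_of_mem_erase hβ)]
      ring
  have h3 : ∑ β ∈ F.erase b, v β * d β ∈ maximalIdeal W := by
    apply Ideal.sum_mem
    intro β hβ
    rw [Finset.mem_erase] at hβ
    exact Ideal.mul_mem_left _ _ (hd2 β hβ.2 hβ.1)
  have h4 : IsUnit (v b + ∑ β ∈ F.erase b, v β * d β) := by
    by_contra hcon
    have h5 : v b + ∑ β ∈ F.erase b, v β * d β ∈ maximalIdeal W := by
      rw [mem_maximalIdeal, mem_nonunits_iff]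
      exact hcon
    have h6 := Ideal.sub_mem _ h5 h3
    rw [add_sub_cancel_right, mem_maximalIdeal, mem_nonunits_iff] at h6
    exact h6 (hv b hb)
  rw [h2]
  obtain ⟨u, hu⟩ := h4
  rw [← hu]
  exact (associated_mul_unit_left _ _ u.isUnit)

protected theorem min : S_MIN.{u} := min_main

end Pool.Agent.Helper10.MU
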