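import Pool.Agent.Helper10.MU.Stm

/-!
# MNO: monomialization of an element
-/

set_option autoImplicit false
set_option linter.unusedSectionVars false

open scoped TensorProduct
open IsLocalRing

universe u

namespace Pool.Agent.Helper10.MU

open Pool.Agent.Helper7.LU (psi inc)

theorem mno_mon_map {M N : Type u} [CommMonoid M] [CommMonoid N] (f : M →* N) {e : ℕ} (x : Fin e → M)
    (α : Fin e → ℕ) : f (mon x α) = mon (fun i => f (x i)) α := by
  unfold mon
  rw [map_prod]
  exact Finset.prod_congr rfl fun i _ => map_pow f _ _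

theorem mno_mon_add {M : Type u} [CommMonoid M] {e : ℕ} (x : Fin e → M) (α β : Fin e → ℕ) :
    mon x (α + β) = mon x α * mon x β := by
  unfold mon
  rw [← Finset.prod_mul_distrib]
  exact Finset.prod_congr rfl fun i _ => pow_add _ _ _

theorem mno_mon_single {M : Type u} [CommMonoid M] {e : ℕ} (x : Fin e → M) (i : Fin e) :
    mon x (Pi.single i 1) = x i := by
  classical
  unfold mon
  rw [Finset.prod_eq_single i]
  · rw [Pi.single_eq_same, pow_one]
  · intro j _ hj
    rw [Pi.single_eq_of_ne hj, pow_zero]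
  · intro h
    exact absurd (Finset.mem_univ _) h

theorem mno_nonunit {R V S W : Type u} [CommRing R] [IsLocalRing R] [CommRing V] [IsDomain V]
    [ValuationRing V] [CommRing S] [CommRing W] [IsDomain W] [ValuationRing W] [Algebra R V]
    [Algebra R S] [Algebra V W] (hD : IsData R V S W) {v : V} (hv : v ∈ maximalIdeal V) :
    algebraMap V W v ∈ maximalIdeal W := by
  rw [mem_maximalIdeal, mem_nonunits_iff]
  intro hu
  have h1 : algebraMap V W v ∣ algebraMap V W 1 := hu.dvd
  exact (mem_nonunits_iff.1 ((mem_maximalIdeal v).1 hv)) (isUnit_of_dvd_one (hD.div _ _ h1))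

/-- powers of the ideal generated by the `x i` -/
theorem mno_pow {B : Type u} [CommRing B] {e : ℕ} (x : Fin e → B) (N : ℕ) :
    Ideal.span (Set.range x) ^ N ≤ Ideal.span {z | ∃ α : Fin e → ℕ, ∑ i, α i = N ∧ z = mon x α} := by
  induction N with
  | zero =>
    intro z _
    have h1 : (1 : B) ∈ Ideal.span {z | ∃ α : Fin e → ℕ, ∑ i, α i = 0 ∧ z = mon x α} :=
      Ideal.subset_span ⟨0, by simp, by simp [mon]⟩
    rw [(Ideal.eq_top_iff_one _).2 h1]
    exact Submodule.mem_top
  | succ N ih =>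
    rw [pow_succ]
    refine (Ideal.mul_mono_left ih).trans ?_
    rw [Ideal.span_mul_span', Ideal.span_le]
    rintro _ ⟨_, ⟨α, hα, rfl⟩, _, ⟨i, rfl⟩, rfl⟩
    refine Ideal.subset_span ⟨α + Pi.single i 1, ?_, ?_⟩
    · simp only [Pi.add_apply]
      rw [Finset.sum_add_distrib, hα]
      simp
    · rw [mno_mon_add, mno_mon_single]

theorem mno_mem {R V : Type u} [CommRing R] [CommRing V] [Algebra R V] {A : Subalgebra R V} {e : ℕ}
    {x : Fin e → V} (h : ∀ i, x i ∈ A) (α : Fin e → ℕ) : mon x α ∈ A :=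
  Subalgebra.prod_mem A fun i _ => Subalgebra.pow_mem A (h i) _

theorem mno (hEXP : S_EXP.{u}) (hMIN : S_MIN.{u}) (hPER : S_PER.{u}) (hRCH : S_RCH.{u})
    (hSTP : S_STP.{u}) : S_MNO.{u} := by
  classical
  intro R V S W _ _ _ _ _ _ _ _ _ _ _ _ _ _ _ _ _ _ hD e A x hL hx hInd b hb
  set X : Fin e → S ⊗[R] A := fun i => inc S A ⟨x i, hL.mem i⟩ with hX
  set y : Fin e → W := fun i => algebraMap V W (x i) with hy
  have hym : ∀ i, y i ∈ maximalIdeal W := fun i => mno_nonunit hD (hx i)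
  have hymon : ∀ α, mon y α = algebraMap V W (mon x α) := fun α =>
    (mno_mon_map (algebraMap V W : V →* W) x α).symm
  have hpsX : ∀ i, ps S W A (X i) = y i := fun i => ps_inc A _
  have hpsmon : ∀ α, ps S W A (mon X α) = mon y α := by
    intro α
    have h1 := mno_mon_map ((ps S W A : S ⊗[R] A →+* W) : S ⊗[R] A →* W) X α
    have h2 : ps S W A (mon X α) = mon (fun i => ps S W A (X i)) α := h1
    rw [h2]
    congr 1
    funext i
    exact hpsX i
  have hIndy : Ind y := by
    intro α β h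
    rw [hymon, hymon] at h
    exact hInd α β (associated_of_dvd_dvd (hD.div _ _ h.dvd) (hD.div _ _ h.symm.dvd))
  choose n hn using fun i => hD.arch (y i) (hym i) (ps S W A b) hb
  obtain ⟨N, hN⟩ : ∃ N, N = ∑ i, n i + 1 := ⟨_, rfl⟩
  have c1 : ∀ α : Fin e → ℕ, ∑ i, α i = N → ∃ t ∈ maximalIdeal W, mon y α = ps S W A b * t := by
    intro α hα
    obtain ⟨i, hi⟩ : ∃ i, n i + 1 ≤ α i := by
      by_contra hcon
      push Not at hcon
      have : ∑ i, α i ≤ ∑ i, n i := Finset.sum_le_sum fun i _ => by have := hcon i; omega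
      omega
    have h1 : y i ^ (n i + 1) ∣ mon y α :=
      (pow_dvd_pow _ hi).trans (Finset.dvd_prod_of_mem (fun i => y i ^ α i) (Finset.mem_univ i))
    obtain ⟨w, hw⟩ := h1
    obtain ⟨c, hc⟩ := hn i
    refine ⟨c * w * y i, Ideal.mul_mem_left _ _ (hym i), ?_⟩
    rw [hw, pow_succ, hc]
    ring
  obtain ⟨s, F, v, r, hs, hv, hr, he⟩ := hEXP (S ⊗[R] A) W (ps S W A) e X
    (fun i => by rw [hpsX]; exact hym i) hL.par b N
  have hr' := mno_pow X N hr
  -- the rest is small
  obtain ⟨t, ht, hrt⟩ : ∃ t ∈ maximalIdeal W, ps S W A r = ps S W A b * t := by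
    have h1 : (Ideal.span {z | ∃ α : Fin e → ℕ, ∑ i, α i = N ∧ z = mon X α}).map (ps S W A) ≤
        Ideal.span {ps S W A b} * maximalIdeal W := by
      rw [Ideal.map_span, Ideal.span_le]
      rintro _ ⟨_, ⟨α, hα, rfl⟩, rfl⟩
      obtain ⟨t, ht, h2⟩ := c1 α hα
      rw [hpsmon, h2]
      exact Ideal.mul_mem_mul (Ideal.mem_span_singleton_self _) ht
    have h2 := h1 (Ideal.mem_map_of_mem _ hr')
    rw [Ideal.mem_span_singleton_mul] at h2
    obtain ⟨t, ht, h3⟩ := h2
    exact ⟨t, ht, h3.symm⟩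
  have hsum : ps S W A s * ps S W A b = ∑ β ∈ F, ps S W A (v β) * mon y β + ps S W A b * t := by
    rw [← map_mul, he, map_add, map_sum, hrt]
    congr 1
    exact Finset.sum_congr rfl fun β _ => by rw [map_mul, hpsmon]
  have hunit : IsUnit (ps S W A s - t) := by
    by_contra h1
    have h2 : ps S W A s - t ∈ maximalIdeal W := h1
    have h3 : ps S W A s ∈ maximalIdeal W := by
      have := Ideal.add_mem _ h2 ht
      rwa [sub_add_cancel] at this
    exact (mem_nonunits_iff.1 ((mem_maximalIdeal _).1 h3)) hs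
  have hσ : ∑ β ∈ F, ps S W A (v β) * mon y β = ps S W A b * (ps S W A s - t) := by
    linear_combination -hsum
  have hne : F.Nonempty := by
    rw [Finset.nonempty_iff_ne_empty]
    rintro rfl
    rw [Finset.sum_empty] at hσ
    exact (mul_ne_zero hb hunit.ne_zero) hσ.symm
  obtain ⟨β₀, hβ₀, hdiv, hass⟩ := hMIN W e y hym hIndy F hne (fun β => ps S W A (v β)) hv
  rw [hσ] at hass
  have hbass : Associated (ps S W A b) (mon y β₀) :=
    (associated_mul_unit_right _ _ hunit).trans hass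
  -- the moves
  set T : Finset (Fin e → ℕ) :=
    (Fintype.piFinset fun _ : Fin e => Finset.range (N + 1)).filter (fun α => ∑ i, α i = N) with hT
  have hmT : ∀ α : Fin e → ℕ, ∑ i, α i = N → α ∈ T := by
    intro α hα
    rw [hT, Finset.mem_filter, Fintype.mem_piFinset]
    refine ⟨fun i => ?_, hα⟩
    rw [Finset.mem_range, Nat.lt_succ_iff, ← hα]
    exact Finset.single_le_sum (fun _ _ => Nat.zero_le _) (Finset.mem_univ i)
  have hdvd : ∀ β ∈ F ∪ T, mon x β₀ ∣ mon x β := by
    intro β hβ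
    apply hD.div
    rw [← hymon, ← hymon]
    rcases Finset.mem_union.1 hβ with h1 | h1
    · exact hdiv β h1
    · rw [hT, Finset.mem_filter] at h1
      obtain ⟨t, -, h2⟩ := c1 β h1.2
      rw [h2]
      exact hbass.symm.dvd.trans (dvd_mul_right _ _)
  obtain ⟨x', hR, hP⟩ := hPER V e x hx hInd ((F ∪ T).image fun β => (β₀, β)) (by
    intro p hp
    obtain ⟨β, hβ, rfl⟩ := Finset.mem_image.1 hp
    exact hdvd β hβ)
  obtain ⟨hx', hInd', hmon'⟩ := hRCH V e x x' hx hInd hR
  obtain ⟨A', E⟩ := hSTP R V S W hD e A x x' hL hx hInd hR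
  have hm : ∀ β ∈ F ∪ T, ∃ m : A', mon x β = mon x β₀ * m := by
    intro β hβ
    obtain ⟨a, b', h1, h2, h3⟩ := hP (β₀, β) (Finset.mem_image_of_mem _ hβ)
    refine ⟨⟨mon x' (b' - a), mno_mem E.lev.mem _⟩, ?_⟩
    have h1' : mon x β₀ = mon x' a := h1
    have h2' : mon x β = mon x' b' := h2
    show mon x β = mon x β₀ * mon x' (b' - a)
    rw [h1', h2', ← mno_mon_add, add_tsub_cancel_of_le h3]
  have hmemA' : ∀ α, mon x α ∈ A' := fun α => E.le (mno_mem hL.mem α)
  have htrmon : ∀ α, tr S E.le (mon X α) = inc S A' ⟨mon x α, hmemA' α⟩ := by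
    intro α
    have h1 : mon X α = inc S A ⟨mon x α, mno_mem hL.mem α⟩ := by
      have h2 := mno_mon_map ((inc S A : A →ₐ[R] S ⊗[R] A) : A →* S ⊗[R] A)
        (fun i => (⟨x i, hL.mem i⟩ : A)) α
      have h3 : inc S A (mon (fun i => (⟨x i, hL.mem i⟩ : A)) α) = mon X α := h2
      rw [← h3]
      congr 1
      apply Subtype.ext
      exact mno_mon_map ((A.val : A →ₐ[R] V) : A →* V) (fun i => (⟨x i, hL.mem i⟩ : A)) α
    rw [h1, tr_inc]
    rfl
  set z0 : S ⊗[R] A' := inc S A' ⟨mon x β₀, hmemA' β₀⟩ with hz0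
  have hin : ∀ β ∈ F ∪ T, tr S E.le (mon X β) ∈ Ideal.span {z0} := by
    intro β hβ
    obtain ⟨m, h1⟩ := hm β hβ
    rw [htrmon, Ideal.mem_span_singleton']
    refine ⟨inc S A' m, ?_⟩
    rw [hz0, ← map_mul]
    congr 1
    apply Subtype.ext
    show (m : V) * mon x β₀ = mon x β
    rw [h1, mul_comm]
  have hall : tr S E.le (∑ β ∈ F, v β * mon X β + r) ∈ Ideal.span {z0} := by
    rw [map_add, map_sum]
    refine Ideal.add_mem _ (Ideal.sum_mem _ fun β hβ => ?_) ?_
    · rw [map_mul]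
      exact Ideal.mul_mem_left _ _ (hin β (Finset.mem_union_left _ hβ))
    · have h1 : (Ideal.span {z | ∃ α : Fin e → ℕ, ∑ i, α i = N ∧ z = mon X α}).map (tr S E.le) ≤
          Ideal.span {z0} := by
        rw [Ideal.map_span, Ideal.span_le]
        rintro _ ⟨_, ⟨α, hα, rfl⟩, rfl⟩
        exact hin α (Finset.mem_union_right _ (hmT α hα))
      exact h1 (Ideal.mem_map_of_mem _ hr')
  rw [Ideal.mem_span_singleton'] at hall
  obtain ⟨v', hv'⟩ := hall
  have hval : ps S W A s * ps S W A b = ps S W A' v' * mon y β₀ := by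
    have h1 := congrArg (ps S W A') hv'
    rw [ps_tr, ← he, map_mul, map_mul, hz0, ps_inc] at h1
    rw [hymon]
    exact h1.symm
  obtain ⟨β', hβ'⟩ := hmon' β₀
  refine ⟨A', x', E, β', tr S E.le s, v', by rwa [ps_tr], ?_, ?_⟩
  · obtain ⟨w, hw⟩ := hbass
    rw [← hw] at hval
    have h1 : ps S W A s = ps S W A' v' * w := by
      apply mul_right_cancel₀ hb
      linear_combination hval
    rw [h1] at hs
    exact isUnit_of_mul_isUnit_left hs
  · rw [ps_tr, hval, hymon, hβ']

end Pool.Agent.Helper10.MU
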