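import Pool.Agent.Helper10.MU.Stm

/-! module MOV (helper9) -/

set_option autoImplicit false

open IsLocalRing

universe u

namespace Pool.Agent.Helper10.MU

theorem mov_unit {B W : Type u} [CommRing B] [CommRing W] {f : B →+* W} {I : Ideal B} {s b : B}
    (hs : IsUnit (f s)) (h : s * b ∈ sat f I) : b ∈ sat f I := by
  obtain ⟨t, ht, h1⟩ := h
  exact ⟨t * s, by rw [map_mul]; exact ht.mul hs, by rwa [mul_assoc]⟩

/-- `x i`, `x j` regular: powers of `x j` -/
theorem mov_pow (hR : S_RSQ.{u}) {B W : Type u} [CommRing B] [IsNoetherianRing B] [CommRing W]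
    [IsDomain W] [ValuationRing W] (hA : Arch W) (f : B →+* W) (e : ℕ) (x : Fin e → B)
    (hx : ∀ i, f (x i) ∈ maximalIdeal W) (hI : Ind (fun i => f (x i))) (hP : Par f x) (i j : Fin e)
    (hij : i ≠ j) (m : ℕ) : ∀ b c : B, f b * f (x j) ^ (m + 1) = f c * f (x i) →
      b ∈ sat f (Ideal.span {x i} ⊔ RingHom.ker f) := by
  induction m with
  | zero =>
    intro b c h
    rw [zero_add, pow_one] at h
    exact hR B W hA f e x hx hI hP i j hij b c h
  | succ m ih =>
    intro b c h
    have h1 : f (b * x j ^ (m + 1)) * f (x j) = f c * f (x i) := by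
      rw [map_mul, map_pow, ← h]
      ring
    obtain ⟨s, hs, h2⟩ := hR B W hA f e x hx hI hP i j hij _ c h1
    obtain ⟨g, hg, q, hq, hgq⟩ := Submodule.mem_sup.1 h2
    obtain ⟨a, rfl⟩ := Ideal.mem_span_singleton'.1 hg
    have h3 : f (s * b) * f (x j) ^ (m + 1) = f a * f (x i) := by
      have h4 := congrArg f hgq
      rw [map_add, RingHom.mem_ker.1 hq, add_zero] at h4
      rw [← map_pow, ← map_mul, ← map_mul, h4]
      congr 1
      ring
    exact mov_unit hs (ih _ _ h3)

theorem mov (hR : S_RSQ.{u}) : S_MOV.{u} := by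
  classical
  intro B B' W _ _ _ _ _ _ hA f f' φ hφ e x hx hI hP i j hij y hy hxy hgen
  have hXY : f (x j) = f (x i) * f' y := by
    rw [← hφ, ← hφ, hxy, map_mul]
  have hrep : ∀ b : B', ∃ (d : ℕ) (c : ℕ → B), b = ∑ k ∈ Finset.range (d + 1), φ (c k) * y ^ k := by
    intro b
    obtain ⟨p, rfl⟩ := hgen b
    exact ⟨p.natDegree, p.coeff, Polynomial.eval₂_eq_sum_range _ _⟩
  refine ⟨?_, ?_⟩
  · intro b hb
    obtain ⟨d, c, rfl⟩ := hrep b
    rw [Finset.sum_range_succ'] at hb ⊢
    simp only [pow_zero, mul_one] at hb ⊢
    have h1 : ∑ k ∈ Finset.range d, φ (c (k + 1)) * y ^ (k + 1) =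
        (∑ k ∈ Finset.range d, φ (c (k + 1)) * y ^ k) * y := by
      rw [Finset.sum_mul]
      exact Finset.sum_congr rfl fun k _ => by ring
    rw [h1] at hb ⊢
    have h2 : f (c 0) ∈ maximalIdeal W := by
      rw [map_add, map_mul, hφ] at hb
      have h3 := Ideal.sub_mem _ hb
        (Ideal.mul_mem_left _ (f' (∑ k ∈ Finset.range d, φ (c (k + 1)) * y ^ k)) hy)
      rwa [add_sub_cancel_left] at h3
    have hyJ : y ∈ Ideal.span (Set.range (Function.update (fun k => φ (x k)) j y)) :=
      Ideal.subset_span ⟨j, Function.update_self _ _ _⟩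
    apply Ideal.add_mem
    · exact le_sat _ _ (Ideal.mul_mem_left _ _ (Ideal.mem_sup_left hyJ))
    · obtain ⟨s, hs, h3⟩ := hP (c 0) h2
      refine ⟨φ s, by rw [hφ]; exact hs, ?_⟩
      rw [← map_mul]
      have h4 : (Ideal.span (Set.range x) ⊔ RingHom.ker f).map φ ≤
          Ideal.span (Set.range (Function.update (fun k => φ (x k)) j y)) ⊔ RingHom.ker f' := by
        rw [Ideal.map_sup]
        apply sup_le_sup
        · rw [Ideal.map_span, Ideal.span_le]
          rintro _ ⟨_, ⟨k, rfl⟩, rfl⟩
          by_cases hk : k = j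
          · subst hk
            rw [hxy]
            exact Ideal.mul_mem_left _ _ hyJ
          · exact Ideal.subset_span ⟨k, by rw [Function.update_of_ne hk]⟩
        · rw [Ideal.map_le_iff_le_comap]
          intro q hq
          rw [Ideal.mem_comap, RingHom.mem_ker, hφ]
          exact hq
      exact h4 (Ideal.mem_map_of_mem _ h3)
  · have key : ∀ (d : ℕ) (c : ℕ → B), f' (∑ k ∈ Finset.range (d + 1), φ (c k) * y ^ k) = 0 →
        ∑ k ∈ Finset.range (d + 1), φ (c k) * y ^ k ∈ sat f' ((RingHom.ker f).map φ) := by
      intro d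
      induction d with
      | zero =>
        intro c hc
        simp only [zero_add, Finset.range_one, Finset.sum_singleton, pow_zero, mul_one] at hc ⊢
        rw [hφ] at hc
        exact le_sat _ _ (Ideal.mem_map_of_mem _ hc)
      | succ d ih =>
        intro c hc
        -- the leading coefficient
        have h1 : ∑ k ∈ Finset.range (d + 1 + 1), f (c k) * f' y ^ k = 0 := by
          rw [map_sum] at hc
          rw [← hc]
          exact Finset.sum_congr rfl fun k _ => by rw [map_mul, map_pow, hφ]
        have h2 : f (c (d + 1)) * f (x j) ^ (d + 1) =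
            f (-(∑ k ∈ Finset.range (d + 1), c k * x j ^ k * x i ^ (d - k))) * f (x i) := by
          have h3 : f (x i) ^ (d + 1) * ∑ k ∈ Finset.range (d + 1 + 1), f (c k) * f' y ^ k = 0 := by
            rw [h1, mul_zero]
          rw [Finset.sum_range_succ, mul_add] at h3
          have h4 : f (x i) ^ (d + 1) * (f (c (d + 1)) * f' y ^ (d + 1)) =
              f (c (d + 1)) * f (x j) ^ (d + 1) := by
            rw [hXY, mul_pow]
            ring
          have h5 : f (x i) ^ (d + 1) * ∑ k ∈ Finset.range (d + 1), f (c k) * f' y ^ k =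
              f (∑ k ∈ Finset.range (d + 1), c k * x j ^ k * x i ^ (d - k)) * f (x i) := by
            rw [map_sum, Finset.mul_sum, Finset.sum_mul]
            apply Finset.sum_congr rfl
            intro k hk
            rw [Finset.mem_range] at hk
            have h6 : f (x i) ^ (d + 1) = f (x i) ^ k * (f (x i) ^ (d - k) * f (x i)) := by
              rw [← pow_succ, ← pow_add]
              congr 1
              omega
            rw [h6, map_mul, map_mul, map_pow, map_pow, hXY, mul_pow]
            ring
          rw [h4, h5] at h3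
          rw [map_neg, neg_mul]
          linear_combination h3
        obtain ⟨s, hs, h7⟩ := mov_pow hR hA f e x hx hI hP i j hij d _ _ h2
        obtain ⟨g, hg, q, hq, hgq⟩ := Submodule.mem_sup.1 h7
        obtain ⟨a, rfl⟩ := Ideal.mem_span_singleton'.1 hg
        -- the new coefficients
        let c' : ℕ → B := fun k => if k = d then s * c d + a * x j else s * c k
        have h8 : φ s * ∑ k ∈ Finset.range (d + 1 + 1), φ (c k) * y ^ k =
            ∑ k ∈ Finset.range (d + 1), φ (c' k) * y ^ k + φ q * y ^ (d + 1) := by
          rw [Finset.sum_range_succ, Finset.sum_range_succ, Finset.sum_range_succ]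
          have h9 : ∑ k ∈ Finset.range d, φ (c' k) * y ^ k =
              φ s * ∑ k ∈ Finset.range d, φ (c k) * y ^ k := by
            rw [Finset.mul_sum]
            apply Finset.sum_congr rfl
            intro k hk
            rw [Finset.mem_range] at hk
            simp only [c', if_neg (by omega : ¬ k = d), map_mul]
            ring
          have h10 : φ s * φ (c (d + 1)) = φ a * φ (x i) + φ q := by
            rw [← map_mul, ← map_mul, ← map_add, hgq]
          rw [h9]
          simp only [c', if_true, map_add, map_mul]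
          rw [hxy]
          linear_combination (y ^ (d + 1)) * h10
        have h11 : f' (∑ k ∈ Finset.range (d + 1), φ (c' k) * y ^ k) = 0 := by
          have h12 := congrArg f' h8
          rw [map_mul, hc, mul_zero, map_add, map_mul f' (φ q), hφ, RingHom.mem_ker.1 hq, zero_mul,
            add_zero] at h12
          exact h12.symm
        have h13 := ih c' h11
        have h14 : φ s * ∑ k ∈ Finset.range (d + 1 + 1), φ (c k) * y ^ k ∈
            sat f' ((RingHom.ker f).map φ) := by
          rw [h8]
          exact Ideal.add_mem _ h13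
            (le_sat _ _ (Ideal.mul_mem_right _ _ (Ideal.mem_map_of_mem _ hq)))
        exact mov_unit (by rw [hφ]; exact hs) h14
    intro b hb
    obtain ⟨d, c, rfl⟩ := hrep b
    exact key d c hb

end Pool.Agent.Helper10.MU
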