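import Pool.Agent.Helper10.MU.Stm

/-!
# PER: divisibility of monomials in a valuation ring (helper23)
-/

set_option autoImplicit false

open IsLocalRing

universe u

namespace Pool.Agent.Helper10.MU

namespace PER


theorem mon_add {M : Type u} [CommMonoid M] {e : ℕ} (x : Fin e → M) (α β : Fin e → ℕ) :
    mon x (α + β) = mon x α * mon x β := by
  simp [mon, pow_add, Finset.prod_mul_distrib]

theorem mon_single {M : Type u} [CommMonoid M] {e : ℕ} (x : Fin e → M) (i : Fin e) (n : ℕ) :
    mon x (Pi.single i n) = x i ^ n := by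
  unfold mon
  rw [Finset.prod_eq_single i]
  · simp
  · intro b _ hb
    simp [Pi.single_eq_of_ne hb]
  · intro h
    exact absurd (Finset.mem_univ i) h

/-- the change of the exponents in a move -/
def T1 {e : ℕ} (i j : Fin e) : (Fin e → ℕ) →+ (Fin e → ℕ) where
  toFun γ := γ + Pi.single i (γ j)
  map_zero' := by simp
  map_add' γ δ := by
    have : (Pi.single i ((γ + δ) j) : Fin e → ℕ) = Pi.single i (γ j) + Pi.single i (δ j) := by
      rw [← Pi.single_add]; rfl
    rw [this]
    abel

theorem mon_T1 {V : Type u} [CommRing V] {e : ℕ} (x : Fin e → V) (i j : Fin e)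
    (hij : i ≠ j) (y : V) (hy : x j = x i * y) (γ : Fin e → ℕ) :
    mon x γ = mon (Function.update x j y) (T1 i j γ) := by
  show mon x γ = mon (Function.update x j y) (γ + Pi.single i (γ j))
  rw [mon_add, mon_single, Function.update_of_ne hij]
  unfold mon
  rw [← Finset.mul_prod_erase Finset.univ _ (Finset.mem_univ j),
    ← Finset.mul_prod_erase Finset.univ (fun k => Function.update x j y k ^ γ k)
      (Finset.mem_univ j)]
  have h : ∏ k ∈ Finset.univ.erase j, Function.update x j y k ^ γ k =
      ∏ k ∈ Finset.univ.erase j, x k ^ γ k := by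
    refine Finset.prod_congr rfl fun k hk => ?_
    rw [Function.update_of_ne (Finset.ne_of_mem_erase hk)]
  rw [h, Function.update_self, hy, mul_pow]
  ring

theorem ind_move {V : Type u} [CommRing V] [IsDomain V] {e : ℕ} (x : Fin e → V) (hx : Ind x)
    (i j : Fin e) (hij : i ≠ j) (y : V) (hy : x j = x i * y) :
    Ind (Function.update x j y) := by
  intro α β h
  -- every exponent with a large `i`-part comes from `x`
  have key : ∀ (δ : Fin e → ℕ) (N : ℕ), δ j ≤ N →
      mon (Function.update x j y) (δ + Pi.single i N) =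
        mon x (δ + Pi.single i (N - δ j)) := by
    intro δ N hN
    rw [mon_T1 x i j hij y hy]
    congr 1
    show _ = (δ + Pi.single i (N - δ j)) + Pi.single i ((δ + Pi.single i (N - δ j) : Fin e → ℕ) j)
    have h1 : (δ + Pi.single i (N - δ j) : Fin e → ℕ) j = δ j := by
      simp [Pi.single_eq_of_ne hij.symm]
    rw [h1, add_assoc, ← Pi.single_add, Nat.sub_add_cancel hN]
  set N := α j + β j with hN
  have h2 : Associated (mon x (α + Pi.single i (N - α j))) (mon x (β + Pi.single i (N - β j))) := by
    rw [← key α N (by omega), ← key β N (by omega), mon_add, mon_add]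
    exact h.mul_right _
  have h3 := hx _ _ h2
  have hj : α j = β j := by
    have := congrFun h3 j
    simpa [Pi.single_eq_of_ne hij.symm] using this
  rw [hj] at h3
  exact add_right_cancel h3

/-- `x'` is reached from `x`, the monomials are transformed by `T`. -/
structure Good {V : Type u} [CommRing V] [IsLocalRing V] {e : ℕ} (x x' : Fin e → V)
    (T : (Fin e → ℕ) →+ (Fin e → ℕ)) : Prop where
  reach : Reach x x'
  mem : ∀ i, x' i ∈ maximalIdeal V
  ind : Ind x'
  mon : ∀ γ, mon x γ = mon x' (T γ)

theorem Good.refl {V : Type u} [CommRing V] [IsLocalRing V] {e : ℕ} (x : Fin e → V)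
    (hm : ∀ i, x i ∈ maximalIdeal V) (hx : Ind x) : Good x x (AddMonoidHom.id _) :=
  ⟨Relation.ReflTransGen.refl, hm, hx, fun _ => rfl⟩

theorem Good.trans {V : Type u} [CommRing V] [IsLocalRing V] {e : ℕ} {x x' x'' : Fin e → V}
    {T T' : (Fin e → ℕ) →+ (Fin e → ℕ)} (h : Good x x' T) (h' : Good x' x'' T') :
    Good x x'' (T'.comp T) :=
  ⟨Relation.ReflTransGen.trans h.reach h'.reach, h'.mem, h'.ind, fun γ => by
    rw [h.mon, h'.mon]; rfl⟩

theorem T_mono {e : ℕ} (T : (Fin e → ℕ) →+ (Fin e → ℕ)) {α β : Fin e → ℕ} (h : α ≤ β) :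
    T α ≤ T β := by
  have h1 : β = α + (β - α) := by
    ext k
    exact (Nat.add_sub_cancel' (h k)).symm
  rw [h1, map_add]
  exact le_add_of_nonneg_right (zero_le)

/-- the measure -/
def me {e : ℕ} (α : Fin e → ℕ) : ℕ :=
  (Finset.univ.sup α) * (e + 1) + (Finset.univ.filter (fun k => α k = Finset.univ.sup α)).card

theorem me_lt {e : ℕ} (α : Fin e → ℕ) (i : Fin e) (a' : ℕ) (hi : α i = Finset.univ.sup α)
    (ha : a' < α i) : me (Function.update α i a') < me α := by
  set α' := Function.update α i a' with hα'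
  have hle : ∀ k, α' k ≤ Finset.univ.sup α := by
    intro k
    by_cases hk : k = i
    · subst hk
      rw [hα', Function.update_self]
      omega
    · rw [hα', Function.update_of_ne hk]
      exact Finset.le_sup (f := α) (Finset.mem_univ k)
  have hs : Finset.univ.sup α' ≤ Finset.univ.sup α := Finset.sup_le fun k _ => hle k
  have hc : (Finset.univ.filter (fun k => α' k = Finset.univ.sup α')).card ≤ e := by
    refine (Finset.card_filter_le _ _).trans ?_
    simp
  have hpos : 0 < (Finset.univ.filter (fun k => α k = Finset.univ.sup α)).card :=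
    Finset.card_pos.2 ⟨i, by simp [hi]⟩
  unfold me
  rcases hs.lt_or_eq with h | h
  · have h1 : Finset.univ.sup α' + 1 ≤ Finset.univ.sup α := h
    have h2 := Nat.mul_le_mul_right (e + 1) h1
    have h3 : (Finset.univ.sup α' + 1) * (e + 1) = Finset.univ.sup α' * (e + 1) + (e + 1) := by
      ring
    omega
  · rw [h]
    have h4 : (Finset.univ.filter (fun k => α' k = Finset.univ.sup α)) ⊂
        (Finset.univ.filter (fun k => α k = Finset.univ.sup α)) := by
      rw [Finset.ssubset_iff_of_subset]
      · refine ⟨i, by simp [hi], ?_⟩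
        simp only [Finset.mem_filter, Finset.mem_univ, true_and]
        rw [hα', Function.update_self]
        omega
      · intro k hk
        simp only [Finset.mem_filter, Finset.mem_univ, true_and] at hk ⊢
        by_cases hki : k = i
        · subst hki
          exact hi
        · rwa [hα', Function.update_of_ne hki] at hk
    have := Finset.card_lt_card h4
    omega

theorem me_eq {e : ℕ} (β : Fin e → ℕ) (i j : Fin e) (hij : i ≠ j) (b' : ℕ)
    (hj : β j = Finset.univ.sup β) (hi : β i < β j) (hb : b' < β j) :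
    me (Function.update β i b') = me β := by
  set β' := Function.update β i b' with hβ'
  have hs : Finset.univ.sup β' = Finset.univ.sup β := by
    refine le_antisymm (Finset.sup_le fun k _ => ?_) ?_
    · by_cases hk : k = i
      · subst hk
        rw [hβ', Function.update_self]
        omega
      · rw [hβ', Function.update_of_ne hk]
        exact Finset.le_sup (f := β) (Finset.mem_univ k)
    · rw [← hj]
      have : β' j = β j := by rw [hβ', Function.update_of_ne hij.symm]
      rw [← this]
      exact Finset.le_sup (f := β') (Finset.mem_univ j)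
  unfold me
  rw [hs]
  congr 2
  ext k
  simp only [Finset.mem_filter, Finset.mem_univ, true_and]
  by_cases hk : k = i
  · subst hk
    rw [hβ', Function.update_self]
    omega
  · rw [hβ', Function.update_of_ne hk]

theorem exists_max {e : ℕ} (α : Fin e → ℕ) (h : α ≠ 0) :
    ∃ i, α i = Finset.univ.sup α ∧ 0 < α i := by
  obtain ⟨k, hk⟩ : ∃ k, α k ≠ 0 := by
    by_contra hc
    push Not at hc
    exact h (funext hc)
  obtain ⟨i, _, hi⟩ := Finset.exists_mem_eq_sup Finset.univ ⟨k, Finset.mem_univ k⟩ α
  refine ⟨i, hi.symm, ?_⟩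
  have := Finset.le_sup (f := α) (Finset.mem_univ k)
  omega

/-- the statement for one pair -/
def Comp {V : Type u} [CommRing V] [IsLocalRing V] {e : ℕ} (x : Fin e → V) (α β : Fin e → ℕ) :
    Prop :=
  ∃ (x' : Fin e → V) (T : (Fin e → ℕ) →+ (Fin e → ℕ)), Good x x' T ∧ (T α ≤ T β ∨ T β ≤ T α)

theorem Comp.symm {V : Type u} [CommRing V] [IsLocalRing V] {e : ℕ} {x : Fin e → V}
    {α β : Fin e → ℕ} (h : Comp x α β) : Comp x β α := by
  obtain ⟨x', T, hg, h⟩ := h
  exact ⟨x', T, hg, h.symm⟩

theorem Comp.add {V : Type u} [CommRing V] [IsLocalRing V] {e : ℕ} {x : Fin e → V}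
    {α β : Fin e → ℕ} (γ : Fin e → ℕ) (h : Comp x α β) : Comp x (γ + α) (γ + β) := by
  obtain ⟨x', T, hg, h⟩ := h
  refine ⟨x', T, hg, ?_⟩
  rw [map_add, map_add]
  rcases h with h | h
  · exact Or.inl (add_le_add_right h _)
  · exact Or.inr (add_le_add_right h _)

theorem ne_zero_of_ind {V : Type u} [CommRing V] [IsDomain V] {e : ℕ} {x : Fin e → V}
    (hx : Ind x) (i : Fin e) : x i ≠ 0 := by
  intro h
  have h1 : mon x (Pi.single i 1) = 0 := by rw [mon_single, h, pow_one]
  have h2 : mon x (Pi.single i 2) = 0 := by rw [mon_single, h]; ring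
  have h3 := hx (Pi.single i 1) (Pi.single i 2) (h1.trans h2.symm ▸ Associated.refl _)
  have := congrFun h3 i
  simp at this

theorem step {V : Type u} [CommRing V] [IsDomain V] [ValuationRing V] {e : ℕ} (N : ℕ)
    (IH : ∀ (x : Fin e → V), (∀ i, x i ∈ maximalIdeal V) → Ind x → ∀ α β : Fin e → ℕ,
      (∀ k, α k = 0 ∨ β k = 0) → me α + me β < N → Comp x α β)
    (x : Fin e → V) (hm : ∀ i, x i ∈ maximalIdeal V) (hx : Ind x) (α β : Fin e → ℕ)
    (hd : ∀ k, α k = 0 ∨ β k = 0) (hN : me α + me β ≤ N) (i j : Fin e)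
    (hi : α i = Finset.univ.sup α) (hi0 : 0 < α i) (hj : β j = Finset.univ.sup β) (hj0 : 0 < β j)
    (hdiv : x i ∣ x j) : Comp x α β := by
  have hij : i ≠ j := by
    intro h
    subst h
    rcases hd i with h | h <;> omega
  obtain ⟨y, hy⟩ := hdiv
  have hym : y ∈ maximalIdeal V := by
    rw [mem_maximalIdeal, mem_nonunits_iff]
    intro hu
    have h1 : Associated (mon x (Pi.single i 1)) (mon x (Pi.single j 1)) := by
      rw [mon_single, mon_single, pow_one, pow_one]
      exact ⟨hu.unit, by rw [hy]; rfl⟩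
    have := congrFun (hx _ _ h1) i
    simp [Pi.single_eq_of_ne hij] at this
  have hg1 : Good x (Function.update x j y) (T1 i j) := by
    refine ⟨Relation.ReflTransGen.single ⟨i, j, hij, y, hym, hy, rfl⟩, ?_, ?_, ?_⟩
    · intro k
      by_cases hk : k = j
      · subst hk
        rwa [Function.update_self]
      · rw [Function.update_of_ne hk]
        exact hm k
    · exact ind_move x hx i j hij y hy
    · exact mon_T1 x i j hij y hy
  have hαj : α j = 0 := (hd j).resolve_right (by omega)
  have hβi : β i = 0 := (hd i).resolve_left (by omega)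
  set c := min (α i) (β j) with hc
  have hc0 : 0 < c := lt_min hi0 hj0
  have hca : c ≤ α i := min_le_left _ _
  have hcb : c ≤ β j := min_le_right _ _
  have e1 : T1 i j α = Pi.single i c + Function.update α i (α i - c) := by
    show α + Pi.single i (α j) = _
    rw [hαj]
    ext k
    by_cases hk : k = i
    · subst hk
      simp
      omega
    · simp [Pi.single_eq_of_ne hk, Function.update_of_ne hk]
  have e2 : T1 i j β = Pi.single i c + Function.update β i (β j - c) := by
    show β + Pi.single i (β j) = _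
    ext k
    by_cases hk : k = i
    · subst hk
      simp
      omega
    · simp [Pi.single_eq_of_ne hk, Function.update_of_ne hk]
  have h3 : Comp (Function.update x j y) (Function.update α i (α i - c))
      (Function.update β i (β j - c)) := by
    apply IH _ hg1.mem hg1.ind
    · intro k
      by_cases hk : k = i
      · subst hk
        rw [Function.update_self, Function.update_self]
        omega
      · rw [Function.update_of_ne hk, Function.update_of_ne hk]
        exact hd k
    · have h4 := me_lt α i (α i - c) hi (by omega)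
      have h5 := me_eq β i j hij (β j - c) hj (by omega) (by omega)
      omega
  obtain ⟨x', T, hg, h⟩ := h3.add (Pi.single i c)
  refine ⟨x', T.comp (T1 i j), hg1.trans hg, ?_⟩
  rw [AddMonoidHom.comp_apply, AddMonoidHom.comp_apply, e1, e2]
  exact h

theorem comp_disjoint {V : Type u} [CommRing V] [IsDomain V] [ValuationRing V] {e : ℕ} (N : ℕ) :
    ∀ (x : Fin e → V), (∀ i, x i ∈ maximalIdeal V) → Ind x → ∀ α β : Fin e → ℕ,
      (∀ k, α k = 0 ∨ β k = 0) → me α + me β < N → Comp x α β := by
  induction N with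
  | zero => intro x _ _ α β _ h; omega
  | succ N IH =>
    intro x hm hx α β hd hN
    by_cases hα : α = 0
    · subst hα
      exact ⟨x, _, Good.refl x hm hx, Or.inl (zero_le)⟩
    by_cases hβ : β = 0
    · subst hβ
      exact ⟨x, _, Good.refl x hm hx, Or.inr (zero_le)⟩
    obtain ⟨i, hi, hi0⟩ := exists_max α hα
    obtain ⟨j, hj, hj0⟩ := exists_max β hβ
    rcases ValuationRing.dvd_total (x i) (x j) with h | h
    · exact step N IH x hm hx α β hd (by omega) i j hi hi0 hj hj0 h
    · exact (step N IH x hm hx β α (fun k => (hd k).symm) (by omega) j i hj hj0 hi hi0 h).symm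

theorem comp_all {V : Type u} [CommRing V] [IsDomain V] [ValuationRing V] {e : ℕ}
    (x : Fin e → V) (hm : ∀ i, x i ∈ maximalIdeal V) (hx : Ind x) (α β : Fin e → ℕ) :
    Comp x α β := by
  have h := (comp_disjoint (me (α - α ⊓ β) + me (β - α ⊓ β) + 1) x hm hx (α - α ⊓ β) (β - α ⊓ β)
    (by intro k; simp only [Pi.sub_apply, Pi.inf_apply]; omega) (by omega)).add (α ⊓ β)
  have h1 : α ⊓ β + (α - α ⊓ β) = α := by
    ext k; simp only [Pi.add_apply, Pi.sub_apply, Pi.inf_apply]; omega
  have h2 : α ⊓ β + (β - α ⊓ β) = β := by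
    ext k; simp only [Pi.add_apply, Pi.sub_apply, Pi.inf_apply]; omega
  rwa [h1, h2] at h

theorem comp_finset {V : Type u} [CommRing V] [IsDomain V] [ValuationRing V] {e : ℕ}
    (x : Fin e → V) (hm : ∀ i, x i ∈ maximalIdeal V) (hx : Ind x)
    (P : Finset ((Fin e → ℕ) × (Fin e → ℕ))) :
    ∃ (x' : Fin e → V) (T : (Fin e → ℕ) →+ (Fin e → ℕ)), Good x x' T ∧
      ∀ p ∈ P, T p.1 ≤ T p.2 ∨ T p.2 ≤ T p.1 := by
  classical
  induction P using Finset.induction_on with
  | empty => exact ⟨x, _, Good.refl x hm hx, by simp⟩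
  | insert p P _ IH =>
    obtain ⟨x₁, T, hg, h⟩ := IH
    obtain ⟨x₂, T', hg', h'⟩ := comp_all x₁ hg.mem hg.ind (T p.1) (T p.2)
    refine ⟨x₂, T'.comp T, hg.trans hg', ?_⟩
    intro q hq
    rcases Finset.mem_insert.1 hq with rfl | hq
    · exact h'
    · rcases h q hq with h1 | h1
      · exact Or.inl (T_mono T' h1)
      · exact Or.inr (T_mono T' h1)

theorem mon_dvd {V : Type u} [CommRing V] {e : ℕ} (x : Fin e → V) {α β : Fin e → ℕ}
    (h : α ≤ β) : mon x α ∣ mon x β :=
  Finset.prod_dvd_prod_of_dvd _ _ fun k _ => pow_dvd_pow _ (h k)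

end PER

open PER in
/-- PER -/
theorem per : S_PER.{u} := by
  intro V _ _ _ e x hm hx P hP
  obtain ⟨x', T, hg, h⟩ := comp_finset x hm hx P
  refine ⟨x', hg.reach, fun p hp => ⟨T p.1, T p.2, hg.mon _, hg.mon _, ?_⟩⟩
  rcases h p hp with h1 | h1
  · exact h1
  · refine le_of_eq (hg.ind _ _ ?_)
    have h2 := hP p hp
    rw [hg.mon p.1, hg.mon p.2] at h2
    exact associated_of_dvd_dvd h2 (mon_dvd x' h1)


end Pool.Agent.Helper10.MU
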