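import Pool.Agent.Helper10.MU.Stm

/-! module RCH (helper9) -/

set_option autoImplicit false

open IsLocalRing

universe u

namespace Pool.Agent.Helper10.MU

theorem rch_mon_move {M : Type u} [CommMonoid M] {e : ℕ} (x : Fin e → M) (i j : Fin e) (hij : i ≠ j) (y : M)
    (h : x j = x i * y) (α : Fin e → ℕ) :
    mon x α = mon (Function.update x j y) (Function.update α i (α i + α j)) := by
  unfold mon
  have h1 : ∀ g : Fin e → M, ∏ k, g k = g j * (g i * ∏ k ∈ (Finset.univ.erase j).erase i, g k) := by
    intro g
    rw [Finset.mul_prod_erase _ _ (Finset.mem_erase.2 ⟨hij, Finset.mem_univ i⟩),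
      Finset.mul_prod_erase _ _ (Finset.mem_univ j)]
  rw [h1, h1]
  simp only [Function.update_self, Function.update_of_ne hij, Function.update_of_ne hij.symm]
  have h2 : ∏ k ∈ (Finset.univ.erase j).erase i, x k ^ α k = ∏ k ∈ (Finset.univ.erase j).erase i,
      Function.update x j y k ^ Function.update α i (α i + α j) k := by
    apply Finset.prod_congr rfl
    intro k hk
    rw [Finset.mem_erase, Finset.mem_erase] at hk
    rw [Function.update_of_ne hk.2.1, Function.update_of_ne hk.1]
  rw [← h2, h, mul_pow, pow_add]
  ac_rfl

theorem rch_move {V : Type u} [CommRing V] [IsLocalRing V] {e : ℕ} (x x' : Fin e → V)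
    (hx : ∀ i, x i ∈ maximalIdeal V) (hI : Ind x) (h : Move x x') :
    (∀ i, x' i ∈ maximalIdeal V) ∧ Ind x' ∧ ∀ α, ∃ α', mon x α = mon x' α' := by
  obtain ⟨i, j, hij, y, hy, hxy, rfl⟩ := h
  refine ⟨?_, ?_, fun α => ⟨_, rch_mon_move x i j hij y hxy α⟩⟩
  · intro k
    by_cases hk : k = j
    · subst hk
      rw [Function.update_self]
      exact hy
    · rw [Function.update_of_ne hk]
      exact hx k
  · intro α β hαβ
    -- multiply by a power of `x i`
    have key : ∀ γ : Fin e → ℕ, mon (Function.update x j y) γ * x i ^ (α j + β j) =
        mon x (Function.update γ i (γ i + (α j + β j) - γ j)) ∨ α j + β j < γ j := by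
      intro γ
      by_cases hγ : α j + β j < γ j
      · exact Or.inr hγ
      left
      rw [rch_mon_move x i j hij y hxy]
      have h1 : Function.update (Function.update γ i (γ i + (α j + β j) - γ j)) i
          (Function.update γ i (γ i + (α j + β j) - γ j) i +
            Function.update γ i (γ i + (α j + β j) - γ j) j) =
          Function.update γ i (γ i + (α j + β j)) := by
        funext k
        by_cases hk : k = i
        · subst hk
          simp only [Function.update_self, Function.update_of_ne hij.symm]
          omega
        · simp only [Function.update_of_ne hk]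
      rw [h1]
      unfold mon
      rw [← Finset.mul_prod_erase _ _ (Finset.mem_univ i),
        ← Finset.mul_prod_erase _ _ (Finset.mem_univ i)]
      simp only [Function.update_self, Function.update_of_ne hij]
      have h2 : ∏ k ∈ Finset.univ.erase i, Function.update x j y k ^ Function.update γ i
          (γ i + (α j + β j)) k = ∏ k ∈ Finset.univ.erase i, Function.update x j y k ^ γ k := by
        apply Finset.prod_congr rfl
        intro k hk
        rw [Finset.mem_erase] at hk
        rw [Function.update_of_ne hk.1]
      rw [h2]
      ring
    have h1 := (hαβ.mul_right (x i ^ (α j + β j)))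
    have h2 := (key α).resolve_right (by omega)
    have h3 := (key β).resolve_right (by omega)
    rw [h2, h3] at h1
    have h4 := hI _ _ h1
    have hj : α j = β j := by
      have := congrFun h4 j
      simpa [Function.update_of_ne hij.symm] using this
    funext k
    by_cases hk : k = i
    · subst hk
      have := congrFun h4 k
      simp only [Function.update_self] at this
      omega
    · have := congrFun h4 k
      simpa [Function.update_of_ne hk] using this

theorem rch : S_RCH.{u} := by
  intro V _ _ _ e x x' hx hI h
  unfold Reach at h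
  induction h with
  | refl => exact ⟨hx, hI, fun α => ⟨α, rfl⟩⟩
  | tail h1 h2 ih =>
    obtain ⟨i1, i2, i3⟩ := ih
    obtain ⟨j1, j2, j3⟩ := rch_move _ _ i1 i2 h2
    refine ⟨j1, j2, fun α => ?_⟩
    obtain ⟨α', hα'⟩ := i3 α
    obtain ⟨α'', hα''⟩ := j3 α'
    exact ⟨α'', hα'.trans hα''⟩

end Pool.Agent.Helper10.MU
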