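import Pool.Agent.Helper10.MU.Abh

/-!
# Project MU, module RSQ

The first part (regular local rings are domains) is the library module Y217.RegDom in any universe.
-/

set_option autoImplicit false
set_option linter.unusedSectionVars false

open scoped TensorProduct
open IsLocalRing

universe u

namespace Pool.Agent.Helper10.MU

theorem rsq_mem_sq_of_coeff {A : Type u} [CommRing A] [IsLocalRing A] {n : ℕ} {g a : Fin n → A}
    (hg : ∀ i, g i ∈ maximalIdeal A) (ha : ∀ i, ¬ IsUnit (a i)) :
    ∑ i, a i * g i ∈ maximalIdeal A ^ 2 := by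
  rw [pow_two]
  exact Ideal.sum_mem _ fun i _ => Ideal.mul_mem_mul ((mem_maximalIdeal _).mpr (ha i)) (hg i)

theorem rsq_exchange {A : Type u} [CommRing A] [IsLocalRing A] {n : ℕ} {g : Fin (n + 1) → A}
    (hg : maximalIdeal A = Ideal.span (Set.range g)) {x : A} (hx : x ∈ maximalIdeal A)
    (hx2 : x ∉ maximalIdeal A ^ 2) :
    ∃ y : Fin n → A, maximalIdeal A = Ideal.span (insert x (Set.range y)) := by
  have hgm : ∀ i, g i ∈ maximalIdeal A := by
    intro i
    rw [hg]
    exact Ideal.subset_span ⟨i, rfl⟩
  have h1 : x ∈ Ideal.span (Set.range g) := by rw [← hg]; exact hx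
  rw [Ideal.mem_span_range_iff_exists_fun] at h1
  obtain ⟨a, ha⟩ := h1
  obtain ⟨i, hi⟩ : ∃ i, IsUnit (a i) := by
    by_contra hcon
    push Not at hcon
    apply hx2
    rw [← ha]
    exact rsq_mem_sq_of_coeff hgm hcon
  refine ⟨fun j => g (i.succAbove j), ?_⟩
  apply le_antisymm
  · rw [hg, Ideal.span_le]
    rintro _ ⟨j, rfl⟩
    have hj : ∀ j, g (i.succAbove j) ∈
        Ideal.span (insert x (Set.range fun j => g (i.succAbove j))) := fun j =>
      Ideal.subset_span (Set.mem_insert_of_mem _ ⟨j, rfl⟩)
    by_cases hij : j = i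
    · subst hij
      obtain ⟨v, hv⟩ := hi.exists_left_inv
      have h2 : g j = v * (x - ∑ l, a (j.succAbove l) * g (j.succAbove l)) := by
        rw [← ha, Fin.sum_univ_succAbove _ j, add_sub_cancel_right, ← mul_assoc, hv, one_mul]
      change g j ∈ _
      rw [h2]
      apply Ideal.mul_mem_left
      apply Ideal.sub_mem
      · exact Ideal.subset_span (Set.mem_insert _ _)
      · exact Ideal.sum_mem _ fun l _ => Ideal.mul_mem_left _ _ (hj l)
    · obtain ⟨l, rfl⟩ := Fin.exists_succAbove_eq hij
      exact hj l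
  · rw [Ideal.span_le]
    apply Set.insert_subset hx
    rintro _ ⟨j, rfl⟩
    exact hgm _

theorem rsq_quot_max {A : Type u} [CommRing A] [IsLocalRing A] {x : A} {S : Set A}
    [IsLocalRing (A ⧸ Ideal.span {x})]
    (h : maximalIdeal A = Ideal.span (insert x S)) :
    maximalIdeal (A ⧸ Ideal.span {x}) = Ideal.span (Ideal.Quotient.mk (Ideal.span {x}) '' S) := by
  have hs : Function.Surjective (Ideal.Quotient.mk (Ideal.span {x})) :=
    Ideal.Quotient.mk_surjective
  have hloc : IsLocalHom (Ideal.Quotient.mk (Ideal.span {x})) :=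
    IsLocalHom.of_surjective _ hs
  have h1 : maximalIdeal (A ⧸ Ideal.span {x}) =
      (maximalIdeal A).map (Ideal.Quotient.mk (Ideal.span {x})) := by
    apply le_antisymm
    · intro y hy
      obtain ⟨z, rfl⟩ := hs y
      apply Ideal.mem_map_of_mem
      rw [mem_maximalIdeal, mem_nonunits_iff] at hy ⊢
      exact fun hz => hy (hz.map _)
    · exact ((local_hom_TFAE (Ideal.Quotient.mk (Ideal.span {x}))).out 0 2).mp hloc
  rw [h1, h, Ideal.map_span, Set.image_insert_eq]
  have h2 : (Ideal.Quotient.mk (Ideal.span {x})) x = 0 :=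
    Ideal.Quotient.eq_zero_iff_mem.mpr (Ideal.mem_span_singleton_self x)
  rw [h2, Ideal.span_insert, Ideal.span_singleton_eq_bot.mpr rfl, bot_sup_eq]

theorem rsq_map_max {A : Type u} [CommRing A] [IsLocalRing A] {x : A}
    [IsLocalRing (A ⧸ Ideal.span {x})] :
    (maximalIdeal A).map (Ideal.Quotient.mk (Ideal.span {x})) =
      maximalIdeal (A ⧸ Ideal.span {x}) := by
  have hs : Function.Surjective (Ideal.Quotient.mk (Ideal.span {x})) :=
    Ideal.Quotient.mk_surjective
  have hloc : IsLocalHom (Ideal.Quotient.mk (Ideal.span {x})) :=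
    IsLocalHom.of_surjective _ hs
  apply le_antisymm
  · exact ((local_hom_TFAE (Ideal.Quotient.mk (Ideal.span {x}))).out 0 2).mp hloc
  · intro y hy
    obtain ⟨z, rfl⟩ := hs y
    apply Ideal.mem_map_of_mem
    rw [mem_maximalIdeal, mem_nonunits_iff] at hy ⊢
    exact fun hz => hy (hz.map _)

/-- A local Noetherian ring whose maximal ideal is generated by as many elements as the dimension
is a domain. -/
theorem rsq_domain_of_regular : ∀ (n : ℕ) (A : Type u) [CommRing A] [IsLocalRing A] [IsNoetherianRing A]
    (g : Fin n → A), maximalIdeal A = Ideal.span (Set.range g) →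
    (n : ℕ∞) ≤ (maximalIdeal A).height → IsDomain A := by
  intro n
  induction n with
  | zero =>
    intro A _ _ _ g hg _
    have h1 : maximalIdeal A = ⊥ := by
      rw [hg, Set.range_eq_empty, Ideal.span_empty]
    have h2 : IsField A := isField_iff_maximalIdeal_eq.mpr h1
    exact h2.isDomain
  | succ n ih =>
    intro A _ _ _ g hg hdim
    classical
    have hfin := minimalPrimes.finite_of_isNoetherianRing A
    -- prime avoidance
    obtain ⟨x, hx, hx2, hxm⟩ : ∃ x ∈ maximalIdeal A, x ∉ maximalIdeal A ^ 2 ∧
        ∀ p ∈ minimalPrimes A, x ∉ p := by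
      by_contra hcon
      push Not at hcon
      have hsub : ((maximalIdeal A : Ideal A) : Set A) ⊆
          ⋃ i ∈ (↑(insert (maximalIdeal A ^ 2) hfin.toFinset) : Set (Ideal A)), (id i : Ideal A) := by
        intro x hx
        rw [Set.mem_iUnion₂]
        by_cases hx2 : x ∈ maximalIdeal A ^ 2
        · exact ⟨maximalIdeal A ^ 2, by simp, hx2⟩
        · obtain ⟨p, hp, hxp⟩ := hcon x hx hx2
          exact ⟨p, by simp [hp], hxp⟩
      have hzero : (maximalIdeal A).height ≠ 0 := by
        intro h
        rw [h] at hdim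
        have h5 : ((n + 1 : ℕ) : ℕ∞) ≤ ((0 : ℕ) : ℕ∞) := by simpa only [Nat.cast_zero] using hdim
        have h6 : n + 1 ≤ 0 := by exact_mod_cast h5
        omega
      apply hzero
      rw [Ideal.height_eq_zero_iff]
      rw [Ideal.subset_union_prime (maximalIdeal A ^ 2) (maximalIdeal A ^ 2)] at hsub
      · obtain ⟨p, hp, hle⟩ := hsub
        have hle' : maximalIdeal A ≤ p := hle
        rw [Finset.mem_insert, Set.Finite.mem_toFinset] at hp
        rcases hp with rfl | hp
        · -- maximal ideal is idempotent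
          have h1 : maximalIdeal A = ⊥ := by
            apply Submodule.eq_bot_of_le_smul_of_le_jacobson_bot (maximalIdeal A) (maximalIdeal A)
              (IsNoetherian.noetherian _)
            · rw [smul_eq_mul, ← pow_two]
              exact hle'
            · exact IsLocalRing.maximalIdeal_le_jacobson _
          exact ⟨⟨inferInstance, bot_le⟩, fun q _ _ => by rw [h1]; exact bot_le⟩
        · have hpp : p.IsPrime := hp.1.1
          have h1 : maximalIdeal A = p := le_antisymm hle' (le_maximalIdeal hpp.ne_top)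
          rw [h1]
          exact hp
      · intro i hi h1 _
        rw [Finset.mem_insert, Set.Finite.mem_toFinset] at hi
        rcases hi with rfl | hi
        · exact absurd rfl h1
        · exact hi.1.1
    obtain ⟨y, hy⟩ := rsq_exchange hg hx hx2
    have hxne : Ideal.span {x} ≠ ⊤ := by
      intro h
      rw [Ideal.span_singleton_eq_top] at h
      exact (mem_maximalIdeal x).mp hx h
    have hnt : Nontrivial (A ⧸ Ideal.span {x}) := Ideal.Quotient.nontrivial_iff.mpr hxne
    have hloc : IsLocalRing (A ⧸ Ideal.span {x}) :=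
      IsLocalRing.of_surjective' (Ideal.Quotient.mk (Ideal.span {x})) Ideal.Quotient.mk_surjective
    have hq := rsq_quot_max hy
    rw [← Set.range_comp] at hq
    have hd1 : (n : ℕ∞) ≤ (maximalIdeal (A ⧸ Ideal.span {x})).height := by
      have h1 := Ideal.height_le_height_add_encard_of_subset ({x} : Set A) (p := maximalIdeal A)
        (Set.singleton_subset_iff.mpr hx)
      rw [Set.encard_singleton, rsq_map_max] at h1
      have h2 := hdim.trans h1
      have h3 : ((n + 1 : ℕ) : ℕ∞) = (n : ℕ∞) + 1 := by push_cast; rfl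
      rw [h3] at h2
      exact (ENat.add_le_add_iff_right (by simp)).mp h2
    have hdom := ih (A ⧸ Ideal.span {x}) _ hq hd1
    have hprime : (Ideal.span {x}).IsPrime := (Ideal.Quotient.isDomain_iff_prime _).mp hdom
    obtain ⟨p, hp, hpx⟩ := Ideal.exists_minimalPrimes_le (bot_le : (⊥ : Ideal A) ≤ Ideal.span {x})
    have hpp : p.IsPrime := hp.1.1
    have hxp : x ∉ p := hxm p hp
    have hle : p ≤ maximalIdeal A • p := by
      intro z hz
      obtain ⟨t, rfl⟩ := Ideal.mem_span_singleton.mp (hpx hz)
      have ht : t ∈ p := (hpp.mem_or_mem hz).resolve_left hxp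
      exact Submodule.smul_mem_smul hx ht
    have hbot : p = ⊥ := Submodule.eq_bot_of_le_smul_of_le_jacobson_bot (maximalIdeal A) p
      (IsNoetherian.noetherian _) hle (IsLocalRing.maximalIdeal_le_jacobson _)
    rw [hbot] at hpp
    have hnz : NoZeroDivisors A := ⟨fun {a b} hab => by
      have := hpp.mem_or_mem (show a * b ∈ (⊥ : Ideal A) from (Submodule.mem_bot A).mpr hab)
      simpa only [Submodule.mem_bot] using this⟩
    exact NoZeroDivisors.to_isDomain A


theorem rsq (_ : S_ABH.{u}) (h1 : S_AB1.{u}) : S_RSQ.{u} := by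
  intro B W _ _ _ _ _ hA f e x hx hI hpar i j hij b c hbc
  classical
  obtain ⟨D, _, _, _, _, φ, g, hg, hφ, hm, hsur, -⟩ := abh_loc B W f
  have hdim : ((e : ℕ∞) : WithBot ℕ∞) ≤ ringKrullDim D := by
    refine h1 D W hA g hg hm e (fun i => φ (x i)) ?_ ?_
    · intro i
      rw [hm, hφ]
      exact hx i
    · simpa only [hφ] using hI
  rw [← IsLocalRing.maximalIdeal_height_eq_ringKrullDim] at hdim
  have hdim' : (e : ℕ∞) ≤ (maximalIdeal D).height := by exact_mod_cast hdim
  have hxm : ∀ k, φ (x k) ∈ maximalIdeal D := by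
    intro k
    rw [hm, hφ]
    exact hx k
  have hunit : ∀ s, IsUnit (f s) → IsUnit (φ s) := by
    intro s hs
    by_contra h
    have h2 := (hm (φ s)).mp ((mem_maximalIdeal _).mpr h)
    rw [hφ] at h2
    exact (mem_maximalIdeal _).mp h2 hs
  have hker : ∀ k, f k = 0 → φ k = 0 := by
    intro k hk
    apply hg
    rw [hφ, hk, map_zero]
  have hgen : maximalIdeal D = Ideal.span (Set.range fun k => φ (x k)) := by
    apply le_antisymm
    · intro d hd
      obtain ⟨b, s, hs, hb⟩ := hsur d
      have h2 : f b ∈ maximalIdeal W := by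
        rw [← hφ, ← hb, map_mul]
        exact Ideal.mul_mem_left _ _ ((hm d).mp hd)
      obtain ⟨t, ht, htb⟩ := hpar b h2
      have h3 : φ (t * b) ∈ Ideal.span (Set.range fun k => φ (x k)) := by
        have h4 : Ideal.span (Set.range x) ⊔ RingHom.ker f ≤
            (Ideal.span (Set.range fun k => φ (x k))).comap φ := by
          refine sup_le ?_ ?_
          · rw [Ideal.span_le]
            rintro _ ⟨k, rfl⟩
            exact Ideal.subset_span ⟨k, rfl⟩
          · intro k hk
            rw [Ideal.mem_comap, hker k hk]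
            exact Ideal.zero_mem _
        exact h4 htb
      rw [map_mul, ← hb, ← mul_assoc] at h3
      exact ((Ideal.unit_mul_mem_iff_mem _ ((hunit t ht).mul (hunit s hs)))).mp h3
    · rw [Ideal.span_le]
      rintro _ ⟨k, rfl⟩
      exact hxm k
  -- the prime ideal
  have hprime : (Ideal.span {φ (x i)}).IsPrime := by
    obtain ⟨n, rfl⟩ : ∃ n, e = n + 1 := ⟨e - 1, by have := i.2; omega⟩
    have hxne : Ideal.span {φ (x i)} ≠ ⊤ := by
      intro h
      rw [Ideal.span_singleton_eq_top] at h
      exact (mem_maximalIdeal _).mp (hxm i) h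
    have hnt : Nontrivial (D ⧸ Ideal.span {φ (x i)}) := Ideal.Quotient.nontrivial_iff.mpr hxne
    have hloc : IsLocalRing (D ⧸ Ideal.span {φ (x i)}) :=
      IsLocalRing.of_surjective' (Ideal.Quotient.mk (Ideal.span {φ (x i)}))
        Ideal.Quotient.mk_surjective
    have hgen' : maximalIdeal D =
        Ideal.span (insert (φ (x i)) (Set.range fun l => φ (x (i.succAbove l)))) := by
      rw [hgen]
      congr 1
      ext d
      constructor
      · rintro ⟨k, rfl⟩
        by_cases hk : k = i
        · subst hk
          exact Set.mem_insert _ _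
        · obtain ⟨l, rfl⟩ := Fin.exists_succAbove_eq hk
          exact Set.mem_insert_of_mem _ ⟨l, rfl⟩
      · rintro (rfl | ⟨l, rfl⟩)
        · exact ⟨i, rfl⟩
        · exact ⟨i.succAbove l, rfl⟩
    have hq := rsq_quot_max hgen'
    rw [← Set.range_comp] at hq
    have hd1 : (n : ℕ∞) ≤ (maximalIdeal (D ⧸ Ideal.span {φ (x i)})).height := by
      have h1 := Ideal.height_le_height_add_encard_of_subset ({φ (x i)} : Set D)
        (p := maximalIdeal D) (Set.singleton_subset_iff.mpr (hxm i))
      rw [Set.encard_singleton, rsq_map_max] at h1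
      have h2 := hdim'.trans h1
      have h3 : ((n + 1 : ℕ) : ℕ∞) = (n : ℕ∞) + 1 := by push_cast; rfl
      rw [h3] at h2
      exact (ENat.add_le_add_iff_right (by simp)).mp h2
    have hdom := rsq_domain_of_regular n (D ⧸ Ideal.span {φ (x i)}) _ hq hd1
    exact (Ideal.Quotient.isDomain_iff_prime _).mp hdom
  have hj : φ (x j) ∉ Ideal.span {φ (x i)} := by
    intro h
    let s : Finset D := (Finset.univ.erase j).image (fun k => φ (x k))
    have hs : maximalIdeal D = Ideal.span (s : Set D) := by
      apply le_antisymm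
      · rw [hgen, Ideal.span_le]
        rintro _ ⟨k, rfl⟩
        by_cases hk : k = j
        · subst hk
          have h2 : Ideal.span {φ (x i)} ≤ Ideal.span (s : Set D) := by
            rw [Ideal.span_le, Set.singleton_subset_iff]
            refine Ideal.subset_span ?_
            exact Finset.mem_coe.mpr (Finset.mem_image.mpr ⟨i, by simp [hij], rfl⟩)
          exact h2 h
        · refine Ideal.subset_span ?_
          exact Finset.mem_coe.mpr (Finset.mem_image.mpr ⟨k, by simp [hk], rfl⟩)
      · rw [Ideal.span_le]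
        intro d hd
        obtain ⟨k, -, rfl⟩ := Finset.mem_image.mp (Finset.mem_coe.mp hd)
        exact hxm k
    have h3 : maximalIdeal D ∈ (Ideal.span (s : Set D)).minimalPrimes := by
      rw [← hs, Ideal.minimalPrimes_eq_subsingleton_self]
      exact Set.mem_singleton _
    have h4 := Ideal.height_le_card_of_mem_minimalPrimes_span_finset h3
    have h5 : s.card ≤ e - 1 := by
      refine Finset.card_image_le.trans ?_
      rw [Finset.card_erase_of_mem (Finset.mem_univ _), Finset.card_univ, Fintype.card_fin]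
    have h6 := hdim'.trans h4
    have h7 : e ≤ s.card := by exact_mod_cast h6
    have := i.2
    omega
  have hprod : φ b * φ (x j) ∈ Ideal.span {φ (x i)} := by
    have h2 : φ b * φ (x j) = φ c * φ (x i) := by
      apply hg
      rw [map_mul, map_mul, hφ, hφ, hφ, hφ]
      exact hbc
    rw [h2]
    exact Ideal.mul_mem_left _ _ (Ideal.mem_span_singleton_self _)
  have hb := (hprime.mem_or_mem hprod).resolve_right hj
  obtain ⟨d, hd⟩ := Ideal.mem_span_singleton.mp hb
  obtain ⟨c', s, hs, hc'⟩ := hsur d
  refine ⟨s, hs, ?_⟩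
  have h2 : f (s * b - x i * c') = 0 := by
    rw [← hφ, map_sub, map_mul, hd, map_mul, ← hc']
    have : φ s * (φ (x i) * d) - φ (x i) * (φ s * d) = 0 := by ring
    rw [this, map_zero]
  have h3 : s * b = x i * c' + (s * b - x i * c') := by ring
  rw [h3]
  exact Ideal.add_mem _ (Ideal.mem_sup_left (Ideal.mul_mem_right _ _ (Ideal.mem_span_singleton_self _)))
    (Ideal.mem_sup_right h2)

end Pool.Agent.Helper10.MU
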