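import Pool.Agent.Helper10.MU.Stm

/-!
# Uniformization of formally monomial valuations: module STA
-/

set_option autoImplicit false
set_option linter.unusedSectionVars false

open scoped TensorProduct
open IsLocalRing

universe u

namespace Pool.Agent.Helper10.MU

open Pool.Agent.Helper7.LU (psi inc)

theorem sta (hKEY : S_KEY.{u}) : S_STA.{u} := by
  classical
  intro R V S W K _ _ _ _ _ _ _ _ _ _ _ _ _ _ _ _ _ _ _ _ _ _ _ _ hVK hD e A x hL hx hI F
  have hRV : Function.Injective (algebraMap R V) := by
    intro a b hab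
    apply IsFractionRing.injective R K
    rw [IsScalarTower.algebraMap_apply R V K, IsScalarTower.algebraMap_apply R V K, hab]
  -- fractions
  have hfr : ∀ v : V, ∃ a b : R, b ≠ 0 ∧ algebraMap R V b * v = algebraMap R V a := by
    intro v
    obtain ⟨c, r, hr, hcr⟩ := IsFractionRing.div_surjective (A := R) (algebraMap V K v)
    have hr0 : algebraMap R K r ≠ 0 := by
      simpa using nonZeroDivisors.ne_zero hr
    refine ⟨c, r, nonZeroDivisors.ne_zero hr, ?_⟩
    apply hVK
    rw [map_mul, ← IsScalarTower.algebraMap_apply, ← IsScalarTower.algebraMap_apply, ← hcr]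
    field_simp
  choose na nb hnb hnab using hfr
  let n := F.card
  let ev : Fin n ≃ F := F.equivFin.symm
  have hne : ∀ v : V, algebraMap V W (algebraMap R V (nb v)) ≠ 0 := by
    intro v h0
    apply hnb v
    apply hRV
    apply hD.inj
    rw [h0, map_zero, map_zero]
  obtain ⟨A', x', E, hE⟩ := hKEY R V S W hD e A x hL hx hI n
    (fun k => algebraMap R (S ⊗[R] A) (na (ev k))) (fun k => algebraMap R (S ⊗[R] A) (nb (ev k))) (by
      intro k
      rw [ps_algebraMap, ps_algebraMap]
      refine ⟨hne _, algebraMap V W (ev k : V), ?_⟩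
      rw [← map_mul, hnab])
  -- the elements of `V` that are fractions
  let T : Subalgebra R V :=
    { carrier := {v | ∃ s b : S ⊗[R] A', IsUnit (ps S W A' s) ∧ ps S W A' s * algebraMap V W v = ps S W A' b}
      mul_mem' := by
        rintro v w ⟨s, b, hs, hb⟩ ⟨t, c, ht, hc⟩
        refine ⟨s * t, b * c, by rw [map_mul]; exact hs.mul ht, ?_⟩
        rw [map_mul, map_mul, map_mul, ← hb, ← hc]
        ring
      add_mem' := by
        rintro v w ⟨s, b, hs, hb⟩ ⟨t, c, ht, hc⟩
        refine ⟨s * t, t * b + s * c, by rw [map_mul]; exact hs.mul ht, ?_⟩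
        rw [map_mul, map_add, map_add, map_mul, map_mul, ← hb, ← hc]
        ring
      algebraMap_mem' := by
        intro r
        refine ⟨1, algebraMap R _ r, by simp, ?_⟩
        rw [ps_algebraMap, map_one, one_mul] }
  have hA'T : A' ≤ T := by
    intro a ha
    refine ⟨1, inc S A' ⟨a, ha⟩, by simp, ?_⟩
    rw [ps_inc, map_one, one_mul]
  have hFT : (F : Set V) ⊆ T := by
    intro v hv
    obtain ⟨s, hs, hsv⟩ := hE (ev.symm ⟨v, hv⟩)
    obtain ⟨y, hy, z, hz, hyz⟩ := Submodule.mem_sup.mp hsv
    obtain ⟨c, rfl⟩ := Ideal.mem_span_singleton'.mp hy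
    refine ⟨s, c, hs, ?_⟩
    have h1 := congrArg (ps S W A') hyz
    rw [map_add, RingHom.mem_ker.mp hz, add_zero, map_mul, map_mul, ps_tr, ps_tr, ps_algebraMap, ps_algebraMap,
      Equiv.apply_symm_apply] at h1
    have h2 : algebraMap V W (algebraMap R V (nb v)) * (ps S W A' s * algebraMap V W v) =
        algebraMap V W (algebraMap R V (nb v)) * ps S W A' c := by
      have h3 : algebraMap V W (algebraMap R V (nb v)) * algebraMap V W v =
          algebraMap V W (algebraMap R V (na v)) := by rw [← map_mul, hnab]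
      calc _ = ps S W A' s * (algebraMap V W (algebraMap R V (nb v)) * algebraMap V W v) := by ring
        _ = ps S W A' s * algebraMap V W (algebraMap R V (na v)) := by rw [h3]
        _ = ps S W A' c * algebraMap V W (algebraMap R V (nb v)) := h1.symm
        _ = _ := by ring
    exact mul_left_cancel₀ (hne v) h2
  let A'' : Subalgebra R V := A' ⊔ Algebra.adjoin R (F : Set V)
  have hA'A'' : A' ≤ A'' := le_sup_left
  have hA''T : A'' ≤ T := sup_le hA'T (Algebra.adjoin_le hFT)
  refine ⟨A'', x', E.le.trans hA'A'', ?_, E.reach, ?_⟩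
  · exact fun v hv => (le_sup_right : Algebra.adjoin R (F : Set V) ≤ A'') (Algebra.subset_adjoin hv)
  · have hfg : A''.FG := Subalgebra.FG.sup E.lev.fg ⟨F, rfl⟩
    refine ⟨hfg, fun i => hA'A'' (E.lev.mem i), ?_⟩
    have key : ∀ b : S ⊗[R] A'', ∃ s c : S ⊗[R] A', IsUnit (ps S W A' s) ∧
        ps S W A'' (tr S hA'A'' s * b) = ps S W A'' (tr S hA'A'' c) := by
      intro b
      induction b with
      | zero => exact ⟨1, 0, by simp, by simp⟩
      | add b b' hb hb' =>
        obtain ⟨s, c, hs, hc⟩ := hb
        obtain ⟨t, d, ht, hd⟩ := hb'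
        refine ⟨s * t, t * c + s * d, by rw [map_mul]; exact hs.mul ht, ?_⟩
        rw [map_mul] at hc hd
        simp only [map_mul, map_add]
        rw [← hc, ← hd]
        ring
      | tmul σ a =>
        obtain ⟨s, c, hs, hc⟩ := hA''T a.2
        refine ⟨s, (σ ⊗ₜ 1) * c, hs, ?_⟩
        have h2 : ps S W A' (σ ⊗ₜ[R] (1 : A')) = algebraMap S W σ := by
          rw [ps_tmul]
          simp
        rw [ps_tr, map_mul, map_mul, ps_tr, ps_tmul, h2, ← hc]
        ring
    intro b hb
    obtain ⟨s, c, hs, hc⟩ := key b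
    have h1 : ps S W A' c ∈ maximalIdeal W := by
      rw [map_mul, ps_tr, ps_tr] at hc
      rw [← hc]
      exact Ideal.mul_mem_left _ _ hb
    obtain ⟨t, ht, htc⟩ := E.lev.par c h1
    refine ⟨tr S hA'A'' t * tr S hA'A'' s, ?_, ?_⟩
    · rw [map_mul, ps_tr, ps_tr]
      exact ht.mul hs
    · have h2 : tr S hA'A'' t * tr S hA'A'' s * b =
          tr S hA'A'' (t * c) + tr S hA'A'' t * (tr S hA'A'' s * b - tr S hA'A'' c) := by
        rw [map_mul]
        ring
      rw [h2]
      refine Ideal.add_mem _ ?_ ?_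
      · have h3 : (Ideal.span (Set.range fun i => inc S A' ⟨x' i, E.lev.mem i⟩) ⊔
            RingHom.ker (ps S W A')).map (tr S hA'A'') ≤
            Ideal.span (Set.range fun i => inc S A'' ⟨x' i, hA'A'' (E.lev.mem i)⟩) ⊔
            RingHom.ker (ps S W A'') := by
          rw [Ideal.map_sup, Ideal.map_span]
          refine sup_le_sup ?_ ?_
          · rw [Ideal.span_le]
            rintro _ ⟨_, ⟨i, rfl⟩, rfl⟩
            apply Ideal.subset_span
            refine ⟨i, ?_⟩
            rw [tr_inc]
            rfl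
          · rw [Ideal.map_le_iff_le_comap]
            intro y hy
            rw [Ideal.mem_comap, RingHom.mem_ker, ps_tr]
            exact hy
        exact h3 (Ideal.mem_map_of_mem _ htc)
      · refine Ideal.mul_mem_left _ _ (Ideal.mem_sup_right ?_)
        rw [RingHom.mem_ker, map_sub, hc, sub_self]

end Pool.Agent.Helper10.MU
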