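import Pool.Agent.Helper10.MU.Base

/-!
# Uniformization of formally monomial valuations: the statements of the modules
-/

set_option autoImplicit false
set_option linter.unusedSectionVars false

open scoped TensorProduct
open IsLocalRing

universe u

namespace Pool.Agent.Helper10.MU

open Pool.Agent.Helper7.LU (psi inc)

/-! ## Modules over Mathlib only -/

/-- PER. Divisibility of monomials in a valuation ring becomes divisibility of exponents after finitely many
moves. Proof for one pair `(α, β)`: take away the common part (then disjoint supports); choose `i`, `j` with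
`α i = a` and `β j = b` maximal; `x i ∣ x j` or `x j ∣ x i`; in the first case put `x j = x i * y`
(`y` not a unit by `Ind`), which replaces `β` by `β + b e_i`, then take away `min a b` at `i`. The pair
`(max α, number of places with this value)` decreases lexicographically and the one of `β` does not
increase (it is unchanged). Then induction on the finite set; `Ind` and `x i ∈ maximalIdeal` are preserved by moves and
monomials remain monomials, with an additive monotone map of the exponents. -/
def S_PER : Prop := ∀ (V : Type u) [CommRing V] [IsDomain V] [ValuationRing V] (e : ℕ) (x : Fin e → V),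
  (∀ i, x i ∈ maximalIdeal V) → Ind x → ∀ P : Finset ((Fin e → ℕ) × (Fin e → ℕ)),
    (∀ p ∈ P, mon x p.1 ∣ mon x p.2) → ∃ x' : Fin e → V, Reach x x' ∧
      ∀ p ∈ P, ∃ α β : Fin e → ℕ, mon x p.1 = mon x' α ∧ mon x p.2 = mon x' β ∧ α ≤ β

/-- RCH. Easy facts on moves (induction on `Reach`; a move changes the exponents `α` to
`α + α j e_i`). -/
def S_RCH : Prop := ∀ (V : Type u) [CommRing V] [IsDomain V] [ValuationRing V] (e : ℕ) (x x' : Fin e → V),
  (∀ i, x i ∈ maximalIdeal V) → Ind x → Reach x x' →
    (∀ i, x' i ∈ maximalIdeal V) ∧ Ind x' ∧ ∀ α, ∃ α', mon x α = mon x' α'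

/-- AB1. A noetherian local domain that is dominated by a valuation ring of rank one with `e` elements whose monomials have
different values has dimension at least `e`. Proof: let `d` be the dimension and `q = (y_1, ..., y_d)` primary to the maximal
ideal (`d = 0`: the maximal ideal is nilpotent, so `0` and `e = 0`). The length of `D / q ^ n` is at most
`length (D / q) * choose (n + d - 1) d`. Let `y` be the `y_i` of smallest value and `x i ∣ y ^ C` for all `i`.
The monomials `x ^ α` with `C * Σ α i < n` divide `y ^ n` in `W` and have different values, so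
they give a chain of ideals `{a | x ^ α ∣ a}` of `D` that contain `q ^ n`; with `α i ≤ m` and `n = C e m + 1` the
length is at least `(m + 1) ^ e - 1`. So `e ≤ d`. -/
def S_AB1 : Prop := ∀ (D W : Type u) [CommRing D] [IsDomain D] [IsLocalRing D] [IsNoetherianRing D] [CommRing W]
  [IsDomain W] [ValuationRing W] (_ : Arch W) (f : D →+* W) (_ : Function.Injective f)
  (_ : ∀ d, d ∈ maximalIdeal D ↔ f d ∈ maximalIdeal W) (e : ℕ) (x : Fin e → D)
  (_ : ∀ i, x i ∈ maximalIdeal D) (_ : Ind (fun i => f (x i))), ((e : ℕ∞) : WithBot ℕ∞) ≤ ringKrullDim D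

/-- ABH. The same for a noetherian ring with a homomorphism to the valuation ring: apply AB1 to the localization of
`B / ker f` at the image of the prime ideal `comap f (maximalIdeal W)`, and
`height (ker f) + height (P / ker f) ≤ height P`. -/
def S_ABH : Prop := ∀ (B W : Type u) [CommRing B] [IsNoetherianRing B] [CommRing W]
  [IsDomain W] [ValuationRing W] (_ : Arch W) (f : B →+* W) (e : ℕ) (x : Fin e → B)
  (_ : ∀ i, f (x i) ∈ maximalIdeal W) (_ : Ind (fun i => f (x i))),
    (RingHom.ker f).height + (e : ℕ∞) ≤ ((maximalIdeal W).comap f).height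

/-- RSQ. `x i`, `x j` is a regular sequence modulo the kernel and up to elements with unit image. Proof: let
`D` be the localization of `B / ker f` at the prime of `f`; by `Par` its maximal ideal is generated by the `e` elements
`x k`, its dimension is at least `e` by ABH (or AB1); so `D / (x i)` has dimension at least `e - 1` and its maximal ideal is
generated by `e - 1` elements, hence it is regular, hence a domain (library, in `Type`: module
`Pool.Graph.R_pool_sql_team_seeded_1acbe0a2.Y217.RegDom`, `team-store fetch /workdir/pool <path>.lean`; copy it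
with `Type` replaced by `Type u`), and `x j` is not zero in it
(else the maximal ideal would have `e - 2` generators). -/
def S_RSQ : Prop := ∀ (B W : Type u) [CommRing B] [IsNoetherianRing B] [CommRing W]
  [IsDomain W] [ValuationRing W] (_ : Arch W) (f : B →+* W) (e : ℕ) (x : Fin e → B)
  (_ : ∀ i, f (x i) ∈ maximalIdeal W) (_ : Ind (fun i => f (x i))) (_ : Par f x) (i j : Fin e) (_ : i ≠ j)
  (b c : B) (_ : f b * f (x j) = f c * f (x i)), b ∈ sat f (Ideal.span {x i} ⊔ RingHom.ker f)

/-- MOV. One move, abstractly. (1) `Par`: write `b = p(y)`; `b - φ (p 0)` is a multiple of `y` and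
`f (p 0)` is in the maximal ideal; `φ (x j) = φ (x i) * y`. (2) The kernel: let `b = p(y)` with `f' b = 0`,
`p` of degree at most `d`, leading coefficient `c`. Multiplying by `f (x i) ^ d` gives
`f c * f (x j) ^ d ∈ (f (x i))`, so by RSQ (`d` times) `s c = a * x i + q` with `q` in the kernel and `f s` a unit. Then
`φ s * b = φ q * y ^ d + p₁(y)` with `deg p₁ < d` since `x i * y = x j`; induction on `d`. -/
def S_MOV : Prop := ∀ (B B' W : Type u) [CommRing B] [IsNoetherianRing B] [CommRing B'] [CommRing W]
  [IsDomain W] [ValuationRing W] (_ : Arch W) (f : B →+* W) (f' : B' →+* W) (φ : B →+* B')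
  (_ : ∀ b, f' (φ b) = f b) (e : ℕ) (x : Fin e → B)
  (_ : ∀ i, f (x i) ∈ maximalIdeal W) (_ : Ind (fun i => f (x i))) (_ : Par f x) (i j : Fin e) (_ : i ≠ j)
  (y : B') (_ : f' y ∈ maximalIdeal W) (_ : φ (x j) = φ (x i) * y)
  (_ : ∀ b : B', ∃ p : Polynomial B, b = p.eval₂ φ y),
    Par f' (Function.update (fun k => φ (x k)) j y) ∧ RingHom.ker f' ≤ sat f' ((RingHom.ker f).map φ)

/-- EXP. Expansion of an element. Induction on `N`: if `r = Σ_{|β| = N} c_β x ^ β`, keep the terms with `f c_β` a unit and use
`Par` for the other `c_β`. -/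
def S_EXP : Prop := ∀ (B W : Type u) [CommRing B] [CommRing W]
  [IsDomain W] [ValuationRing W] (f : B →+* W) (e : ℕ) (x : Fin e → B)
  (_ : ∀ i, f (x i) ∈ maximalIdeal W) (_ : Par f x) (b : B) (N : ℕ),
    ∃ (s : B) (F : Finset (Fin e → ℕ)) (v : (Fin e → ℕ) → B) (r : B), IsUnit (f s) ∧ (∀ β ∈ F, IsUnit (f (v β))) ∧
      r ∈ Ideal.span (Set.range x) ^ N ∧ f (s * b) = f (∑ β ∈ F, v β * mon x β + r)

/-- MIN. The term of smallest value in a sum. -/
def S_MIN : Prop := ∀ (W : Type u) [CommRing W] [IsDomain W] [ValuationRing W] (e : ℕ) (x : Fin e → W)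
  (_ : ∀ i, x i ∈ maximalIdeal W) (_ : Ind x) (F : Finset (Fin e → ℕ)) (_ : F.Nonempty) (v : (Fin e → ℕ) → W)
  (_ : ∀ β ∈ F, IsUnit (v β)), ∃ β₀ ∈ F, (∀ β ∈ F, mon x β₀ ∣ mon x β) ∧
    Associated (∑ β ∈ F, v β * mon x β) (mon x β₀)

/-- VAL. Finitely many vectors `(m j k / s j)_k` of length `h`: at most `h` of them generate the others over the valuation
ring of the field of fractions of the image of `f`. Induction on `h`: take the vector `j₀` whose first coordinate has the smallest value,
subtract multiples of it from the others (if all first coordinates are zero go on with `h - 1`). It is convenient to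
prove it first for vectors over a field `L` with a valuation subring `O` (`L` = the fractions `f a / f b` in
`FractionRing W`, `O` = those in `W`). -/
def S_VAL : Prop := ∀ (B W : Type u) [CommRing B] [CommRing W] [IsDomain W] [ValuationRing W] (f : B →+* W)
  (N h : ℕ) (m : Fin N → Fin h → B) (s : Fin N → B) (_ : ∀ j, f (s j) ≠ 0),
    ∃ (T : Finset (Fin N)) (α β : Fin N → Fin N → B), T.card ≤ h ∧
      (∀ j i, f (β j i) ≠ 0 ∧ f (β j i) ∣ f (α j i)) ∧
      ∀ j k, algebraMap W (FractionRing W) (f (m j k)) / algebraMap W (FractionRing W) (f (s j)) =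
        ∑ i ∈ T, algebraMap W (FractionRing W) (f (α j i)) / algebraMap W (FractionRing W) (f (β j i)) *
          (algebraMap W (FractionRing W) (f (m i k)) / algebraMap W (FractionRing W) (f (s i)))

/-! ## Modules on levels -/

/-- STP. Levels can be extended along moves. For one move `x j = x i * y` take `A' = A ⊔ R[y]` (its elements are polynomials in `y` over `A`, so
`S ⊗ A'` consists of the polynomials in `inc y` over the image of `S ⊗ A`) and apply MOV to
`tr S le`; then induction on `Reach` (`Ext` is reflexive on levels and transitive). -/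
def S_STP : Prop := ∀ (R V S W : Type u) [CommRing R] [IsLocalRing R] [IsNoetherianRing R] [CommRing V] [IsDomain V]
  [ValuationRing V] [CommRing S] [IsNoetherianRing S] [CommRing W] [IsDomain W] [ValuationRing W] [Algebra R V] [Algebra R S]
  [Algebra V W] [Algebra R W] [Algebra S W] [IsScalarTower R S W] [IsScalarTower R V W] (_ : IsData R V S W)
  (e : ℕ) (A : Subalgebra R V) (x x' : Fin e → V) (_ : Lev S W A x) (_ : ∀ i, x i ∈ maximalIdeal V) (_ : Ind x)
  (_ : Reach x x'), ∃ A', Ext S W A A' x x'

/-- TRN. `Ext` is reflexive and transitive. -/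
def S_TRN : Prop := ∀ (R V S W : Type u) [CommRing R] [IsLocalRing R] [IsNoetherianRing R] [CommRing V] [IsDomain V]
  [ValuationRing V] [CommRing S] [IsNoetherianRing S] [CommRing W] [IsDomain W] [ValuationRing W] [Algebra R V] [Algebra R S]
  [Algebra V W] [Algebra R W] [Algebra S W] [IsScalarTower R S W] [IsScalarTower R V W] (_ : IsData R V S W)
  (e : ℕ) (A A' A'' : Subalgebra R V) (x x' x'' : Fin e → V),
    (Lev S W A x → Ext S W A A x x) ∧ (Ext S W A A' x x' → Ext S W A' A'' x' x'' → Ext S W A A'' x x'')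

/-- MNO. Monomialization of an element: EXP with `N` such that `ps b` (nonzero) does not divide... : all elements of
`(x) ^ N` have larger value than `ps b` (`arch`); MIN gives the term `β₀`; PER for the pairs `(β₀, β)`, `β ∈ F` or
`|β| = N` (all have `mon x β₀ ∣ mon x β` in `V` by `div`), then STP. After that
`s b = x ^ β₀ (v β₀ + nonunit)` modulo the kernel. -/
def S_MNO : Prop := ∀ (R V S W : Type u) [CommRing R] [IsLocalRing R] [IsNoetherianRing R] [CommRing V] [IsDomain V]
  [ValuationRing V] [CommRing S] [IsNoetherianRing S] [CommRing W] [IsDomain W] [ValuationRing W] [Algebra R V] [Algebra R S]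
  [Algebra V W] [Algebra R W] [Algebra S W] [IsScalarTower R S W] [IsScalarTower R V W] (_ : IsData R V S W)
  (e : ℕ) (A : Subalgebra R V) (x : Fin e → V) (_ : Lev S W A x) (_ : ∀ i, x i ∈ maximalIdeal V) (_ : Ind x)
  (b : S ⊗[R] A) (_ : ps S W A b ≠ 0), ∃ A' x', Ext S W A A' x x' ∧ ∃ (β : Fin e → ℕ) (s v : S ⊗[R] A'),
    IsUnit (ps S W A' s) ∧ IsUnit (ps S W A' v) ∧
      ps S W A' s * ps S W A b = ps S W A' v * algebraMap V W (mon x' β)

/-- KEY. Finitely many divisibilities in `W` become true on a level. From MNO (for `α k`, `β k`), PER and STP, one pair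
after the other (the conclusion persists under `Ext`, `tr_tr`). -/
def S_KEY : Prop := ∀ (R V S W : Type u) [CommRing R] [IsLocalRing R] [IsNoetherianRing R] [CommRing V] [IsDomain V]
  [ValuationRing V] [CommRing S] [IsNoetherianRing S] [CommRing W] [IsDomain W] [ValuationRing W] [Algebra R V] [Algebra R S]
  [Algebra V W] [Algebra R W] [Algebra S W] [IsScalarTower R S W] [IsScalarTower R V W] (_ : IsData R V S W)
  (e : ℕ) (A : Subalgebra R V) (x : Fin e → V) (_ : Lev S W A x) (_ : ∀ i, x i ∈ maximalIdeal V) (_ : Ind x)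
  (n : ℕ) (α β : Fin n → S ⊗[R] A) (_ : ∀ k, ps S W A (β k) ≠ 0 ∧ ps S W A (β k) ∣ ps S W A (α k)),
    ∃ A' x', ∃ E : Ext S W A A' x x',
      ∀ k, tr S E.le (α k) ∈ sat (ps S W A') (Ideal.span {tr S E.le (β k)} ⊔ RingHom.ker (ps S W A'))

/-- STA. Finitely many elements of `V` can be put in a level. By KEY for the pairs `(a, b)` with `b v = a`, `a, b` in `R`, the
elements satisfy `ps s * v = ps c` with `ps s` a unit on a level `A'`; then `A' ⊔ R[F]` with the same `x'` is a level: if
`ps b` is in the maximal ideal, `b` in `S ⊗ (A' ⊔ R[F])`, then `ps (s b)` is the image of an element of `S ⊗ A'`. -/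
def S_STA : Prop := ∀ (R V S W K : Type u) [CommRing R] [IsDomain R] [IsLocalRing R] [IsNoetherianRing R] [CommRing V]
  [IsDomain V]
  [ValuationRing V] [CommRing S] [IsNoetherianRing S] [CommRing W] [IsDomain W] [ValuationRing W] [Algebra R V] [Algebra R S]
  [Algebra V W] [Algebra R W] [Algebra S W] [IsScalarTower R S W] [IsScalarTower R V W] [Field K] [Algebra R K]
  [IsFractionRing R K] [Algebra V K] [IsScalarTower R V K] (_ : Function.Injective (algebraMap V K)) (_ : IsData R V S W)
  (e : ℕ) (A : Subalgebra R V) (x : Fin e → V) (_ : Lev S W A x) (_ : ∀ i, x i ∈ maximalIdeal V) (_ : Ind x)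
  (F : Finset V), ∃ A' x', A ≤ A' ∧ (F : Set V) ⊆ A' ∧ Reach x x' ∧ Lev S W A' x'

/-- FRE. The kernel modulo its square becomes free up to torsion. Let `q_j` generate the kernel `Q` of level `A`, `s_j q_j = Σ m_{jk} g_k`,
`s_j ∉ Q`; apply VAL and KEY to the pairs `(α j i, β j i)`; on the new level put `p_j = δ q_j - Σ_{i ∈ T} γ_{ji} q_i`; then
`(Π s_i) p_j ∈ Q ^ 2`, because it is `Σ_k c_k g_k` with `c_k ∈ Q`. `Q'` is generated by the `tr q_j` up to units by
`Ext.ker`. -/
def S_FRE : Prop := ∀ (R V S W : Type u) [CommRing R] [IsLocalRing R] [IsNoetherianRing R] [CommRing V] [IsDomain V]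
  [ValuationRing V] [CommRing S] [IsNoetherianRing S] [CommRing W] [IsDomain W] [ValuationRing W] [Algebra R V] [Algebra R S]
  [Algebra V W] [Algebra R W] [Algebra S W] [IsScalarTower R S W] [IsScalarTower R V W] (_ : IsData R V S W)
  (e : ℕ) (A : Subalgebra R V) (x : Fin e → V) (_ : Lev S W A x) (_ : ∀ i, x i ∈ maximalIdeal V) (_ : Ind x)
  (h : ℕ) (g : Fin h → S ⊗[R] A) (_ : ∀ i, g i ∈ RingHom.ker (ps S W A))
  (_ : ∀ q ∈ RingHom.ker (ps S W A), ∃ s ∉ RingHom.ker (ps S W A), s * q ∈ Ideal.span (Set.range g)),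
    ∃ A' x', Ext S W A A' x x' ∧ ∃ (q : Fin h → S ⊗[R] A') (w : S ⊗[R] A'), ps S W A' w ≠ 0 ∧ Free S W A' q w

/-- FRP. `Free` persists. -/
def S_FRP : Prop := ∀ (R V S W : Type u) [CommRing R] [IsLocalRing R] [IsNoetherianRing R] [CommRing V] [IsDomain V]
  [ValuationRing V] [CommRing S] [IsNoetherianRing S] [CommRing W] [IsDomain W] [ValuationRing W] [Algebra R V] [Algebra R S]
  [Algebra V W] [Algebra R W] [Algebra S W] [IsScalarTower R S W] [IsScalarTower R V W] (_ : IsData R V S W)
  (e : ℕ) (A A' : Subalgebra R V) (x x' : Fin e → V) (E : Ext S W A A' x x')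
  (h : ℕ) (q : Fin h → S ⊗[R] A) (w : S ⊗[R] A) (_ : Free S W A q w),
    Free S W A' (fun i => tr S E.le (q i)) (tr S E.le w)

/-- FIN. The last blowing up. `𝔞 = {a : A | inc a ∈ sat (span {inc τ} * n ⊔ Q)}`, `A' = A[v : τ v ∈ 𝔞]`. The proof is in the
comments of the module call. -/
def S_FIN : Prop := ∀ (R V S W : Type u) [CommRing R] [IsLocalRing R] [IsNoetherianRing R] [CommRing V] [IsDomain V]
  [ValuationRing V] [CommRing S] [IsNoetherianRing S] [CommRing W] [IsDomain W] [ValuationRing W] [Algebra R V] [Algebra R S]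
  [Algebra V W] [Algebra R W] [Algebra S W] [IsScalarTower R S W] [IsScalarTower R V W] (_ : IsData R V S W)
  (e : ℕ) (A : Subalgebra R V) (x : Fin e → V) (_ : Lev S W A x) (_ : ∀ i, x i ∈ maximalIdeal V)
  (h : ℕ) (q : Fin h → S ⊗[R] A) (w : S ⊗[R] A) (_ : Free S W A q w)
  (τ : A) (_ : (τ : V) ≠ 0) (_ : (τ : V) ∈ maximalIdeal V)
  (_ : inc S A τ ∈ sat (ps S W A) (Ideal.span {w} ⊔ RingHom.ker (ps S W A)))
  (M : ℕ) (_ : 0 < M)
  (_ : ∀ r ∈ maximalIdeal R ^ M, algebraMap R (S ⊗[R] A) r ∈
    sat (ps S W A) (Ideal.span {inc S A τ} * (maximalIdeal W).comap (ps S W A) ⊔ RingHom.ker (ps S W A))),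
    ∃ (A' : Subalgebra R V) (hA : A ≤ A') (z : Fin h → A'), A'.FG ∧ (∀ i, (z i : V) ∈ maximalIdeal V) ∧
      (∀ a : A, inc S A a ∈
        sat (ps S W A) (Ideal.span {inc S A τ} * (maximalIdeal W).comap (ps S W A) ⊔ RingHom.ker (ps S W A)) →
          ∃ v : A', (v : V) ∈ maximalIdeal V ∧ (a : V) = τ * v) ∧
      cen A' ≤ sat (algebraMap A' V)
        (Ideal.span (Set.range (fun i => Subalgebra.inclusion hA (⟨x i, ‹Lev S W A x›.mem i⟩ : A)) ∪ Set.range z) ⊔
          cen A' ^ 2)

/-- DIM. From ABH for `ps S W A` (`cen A` is the contraction of `comap (ps S W A) (maximalIdeal W)`, which is its extension; see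
`Pool/Agent/Helper7/LU/Dim.lean` for the same argument). -/
def S_DIM : Prop := ∀ (R V S W : Type u) [CommRing R] [IsLocalRing R] [IsNoetherianRing R] [CommRing V] [IsDomain V]
  [ValuationRing V] [CommRing S] [IsNoetherianRing S] [CommRing W] [IsDomain W] [ValuationRing W] [Algebra R V] [Algebra R S]
  [Algebra V W] [Algebra R W] [Algebra S W] [IsScalarTower R S W] [IsScalarTower R V W] (_ : IsData R V S W)
  (e : ℕ) (A : Subalgebra R V) (_ : A.FG) (x : Fin e → V) (_ : ∀ i, x i ∈ A) (_ : ∀ i, x i ∈ maximalIdeal V)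
  (_ : Ind x), (RingHom.ker (ps S W A)).height + (e : ℕ∞) ≤ (cen A).height

end Pool.Agent.Helper10.MU
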