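import Pool.Agent.Helper10.MU.Main

/-!
# Levels are extended along moves
-/

set_option autoImplicit false
set_option linter.unusedSectionVars false

open scoped TensorProduct
open IsLocalRing

universe u

namespace Pool.Agent.Helper10.MU

open Pool.Agent.Helper7.LU (psi inc)

section

variable {R V S W : Type u} [CommRing R] [IsLocalRing R] [IsNoetherianRing R] [CommRing V] [IsDomain V]
  [ValuationRing V] [CommRing S] [IsNoetherianRing S] [CommRing W] [IsDomain W] [ValuationRing W] [Algebra R V]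
  [Algebra R S] [Algebra V W] [Algebra R W] [Algebra S W] [IsScalarTower R S W] [IsScalarTower R V W]

theorem stp_mon {M N : Type u} [CommRing M] [CommRing N] (f : M →+* N) {e : ℕ} (x : Fin e → M)
    (α : Fin e → ℕ) : mon (fun i => f (x i)) α = f (mon x α) := by
  rw [mon, mon, map_prod]
  simp

/-- Independence in `W`. -/
theorem stp_ind (hd : IsData R V S W) {e : ℕ} {x : Fin e → V} (hi : Ind x) :
    Ind (fun i => algebraMap V W (x i)) := by
  intro α β h
  apply hi
  rw [stp_mon (algebraMap V W), stp_mon (algebraMap V W)] at h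
  exact associated_of_dvd_dvd (hd.div _ _ h.dvd) (hd.div _ _ h.symm.dvd)

theorem stp_gen (A A' : Subalgebra R V) (y : V) (hA' : A' = Algebra.adjoin R ((A : Set V) ∪ {y}))
    (hle : A ≤ A') (hy : y ∈ A') (b : S ⊗[R] A') :
    ∃ p : Polynomial (S ⊗[R] A), b = p.eval₂ (tr S hle : S ⊗[R] A →+* S ⊗[R] A') (inc S A' ⟨y, hy⟩) := by
  have key : ∀ (v : V) (hv : v ∈ A'), ∃ p : Polynomial (S ⊗[R] A),
      inc S A' ⟨v, hv⟩ = p.eval₂ (tr S hle : S ⊗[R] A →+* S ⊗[R] A') (inc S A' ⟨y, hy⟩) := by
    intro v hv0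
    have hv1 : v ∈ Algebra.adjoin R ((A : Set V) ∪ {y}) := by
      rw [← hA']
      exact hv0
    have hback : ∀ w, w ∈ Algebra.adjoin R ((A : Set V) ∪ {y}) → w ∈ A' := by
      intro w hw
      rw [hA']
      exact hw
    refine Algebra.adjoin_induction (p := fun v (_ : v ∈ Algebra.adjoin R ((A : Set V) ∪ {y})) =>
      ∀ hv : v ∈ A', ∃ p : Polynomial (S ⊗[R] A),
        inc S A' ⟨v, hv⟩ = p.eval₂ (tr S hle : S ⊗[R] A →+* S ⊗[R] A') (inc S A' ⟨y, hy⟩)) ?_ ?_ ?_ ?_ hv1 hv0
    · rintro v (hv | hv) hv'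
      · refine ⟨Polynomial.C (inc S A ⟨v, hv⟩), ?_⟩
        rw [Polynomial.eval₂_C]
        change _ = tr S hle (inc S A ⟨v, hv⟩)
        rw [tr_inc]
        rfl
      · rw [Set.mem_singleton_iff] at hv
        subst hv
        exact ⟨Polynomial.X, by rw [Polynomial.eval₂_X]⟩
    · intro r hv'
      refine ⟨Polynomial.C (algebraMap R _ r), ?_⟩
      rw [Polynomial.eval₂_C]
      change _ = tr S hle (algebraMap R _ r)
      rw [AlgHom.commutes]
      exact (inc S A').commutes r
    · intro a b ha hb iha ihb hv'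
      obtain ⟨p, hp⟩ := iha (hback a ha)
      obtain ⟨q, hq⟩ := ihb (hback b hb)
      refine ⟨p + q, ?_⟩
      rw [Polynomial.eval₂_add, ← hp, ← hq, ← map_add]
      rfl
    · intro a b ha hb iha ihb hv'
      obtain ⟨p, hp⟩ := iha (hback a ha)
      obtain ⟨q, hq⟩ := ihb (hback b hb)
      refine ⟨p * q, ?_⟩
      rw [Polynomial.eval₂_mul, ← hp, ← hq, ← map_mul]
      rfl
  induction b with
  | zero => exact ⟨0, by rw [Polynomial.eval₂_zero]⟩
  | add a b ha hb =>
    obtain ⟨p, hp⟩ := ha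
    obtain ⟨q, hq⟩ := hb
    exact ⟨p + q, by rw [Polynomial.eval₂_add, ← hp, ← hq]⟩
  | tmul s a =>
    obtain ⟨p, hp⟩ := key a.1 a.2
    refine ⟨Polynomial.C (s ⊗ₜ 1) * p, ?_⟩
    rw [Polynomial.eval₂_mul, Polynomial.eval₂_C, ← hp]
    change _ = tr S hle (s ⊗ₜ 1) * _
    rw [tr_tmul, map_one]
    simp [inc]

/-- One step. -/
theorem stp_one (hMOV : S_MOV.{u}) (hd : IsData R V S W) {e : ℕ} {A : Subalgebra R V} {x x' : Fin e → V}
    (hL : Lev S W A x) (hx : ∀ i, x i ∈ maximalIdeal V) (hi : Ind x) (hm : Move x x') :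
    ∃ A', Ext S W A A' x x' := by
  classical
  obtain ⟨i, j, hij, y, hy, hxy, rfl⟩ := id hm
  let A' : Subalgebra R V := Algebra.adjoin R ((A : Set V) ∪ {y})
  have hle : A ≤ A' := fun v hv => Algebra.subset_adjoin (Or.inl hv)
  have hyA' : y ∈ A' := Algebra.subset_adjoin (Or.inr rfl)
  have hfg' : A'.FG := by
    obtain ⟨G, hG⟩ := hL.fg
    refine ⟨insert y G, ?_⟩
    apply le_antisymm
    · rw [Algebra.adjoin_le_iff]
      intro v hv
      rw [Finset.coe_insert] at hv
      rcases hv with rfl | hv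
      · exact hyA'
      · refine hle ?_
        rw [← hG]
        exact Algebra.subset_adjoin hv
    · rw [Algebra.adjoin_le_iff]
      rintro v (hv | hv)
      · have h1 : v ∈ Algebra.adjoin R (G : Set V) := by
          rw [hG]
          exact hv
        refine Algebra.adjoin_mono ?_ h1
        rw [Finset.coe_insert]
        exact Set.subset_insert _ _
      · rw [Set.mem_singleton_iff] at hv
        subst hv
        refine Algebra.subset_adjoin ?_
        rw [Finset.coe_insert]
        exact Set.mem_insert _ _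
  have hnoeth : IsNoetherianRing (S ⊗[R] A) := by
    have : Algebra.FiniteType R A := A.fg_iff_finiteType.mp hL.fg
    exact Algebra.FiniteType.isNoetherianRing S (S ⊗[R] A)
  have hmem : ∀ k, Function.update x j y k ∈ A' := by
    intro k
    by_cases hk : k = j
    · subst hk
      rw [Function.update_self]
      exact hyA'
    · rw [Function.update_of_ne hk]
      exact hle (hL.mem k)
  obtain ⟨h1, h2⟩ := hMOV (S ⊗[R] A) (S ⊗[R] A') W hd.arch (ps S W A) (ps S W A')
    (tr S hle : S ⊗[R] A →+* S ⊗[R] A') (fun b => ps_tr hle b) e (fun k => inc S A ⟨x k, hL.mem k⟩)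
    (fun k => by
      rw [ps_inc, mem_max_W hd]
      exact hx k)
    (by
      have h3 : (fun k => ps S W A (inc S A ⟨x k, hL.mem k⟩)) = fun k => algebraMap V W (x k) := by
        funext k
        rw [ps_inc]
      rw [h3]
      exact stp_ind hd hi) hL.par i j hij (inc S A' ⟨y, hyA'⟩) (by
      rw [ps_inc, mem_max_W hd]
      exact hy) (by
      change tr S hle (inc S A _) = tr S hle (inc S A _) * _
      rw [tr_inc, tr_inc, ← map_mul]
      congr 1
      exact Subtype.ext hxy) (fun b => stp_gen A A' y rfl hle hyA' b)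
  refine ⟨A', hle, Relation.ReflTransGen.single hm, ⟨hfg', hmem, ?_⟩, h2⟩
  have h4 : (fun k => inc S A' ⟨Function.update x j y k, hmem k⟩) =
      Function.update (fun k => (tr S hle : S ⊗[R] A →+* S ⊗[R] A') (inc S A ⟨x k, hL.mem k⟩)) j
        (inc S A' ⟨y, hyA'⟩) := by
    funext k
    by_cases hk : k = j
    · subst hk
      have l1 : inc S A' ⟨Function.update x k y k, hmem k⟩ = inc S A' ⟨y, hyA'⟩ :=
        congrArg _ (Subtype.ext (Function.update_self k y x))
      have r1 : Function.update (fun l => (tr S hle : S ⊗[R] A →+* S ⊗[R] A') (inc S A ⟨x l, hL.mem l⟩)) k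
        (inc S A' ⟨y, hyA'⟩) k = inc S A' ⟨y, hyA'⟩ := by
        rw [Function.update_self]
      exact l1.trans r1.symm
    · have l1 : inc S A' ⟨Function.update x j y k, hmem k⟩ = inc S A' ⟨x k, hle (hL.mem k)⟩ :=
        congrArg _ (Subtype.ext (Function.update_of_ne hk y x))
      have r1 : Function.update (fun l => (tr S hle : S ⊗[R] A →+* S ⊗[R] A') (inc S A ⟨x l, hL.mem l⟩)) j
        (inc S A' ⟨y, hyA'⟩) k = inc S A' ⟨x k, hle (hL.mem k)⟩ := by
        rw [Function.update_of_ne hk]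
        change tr S hle (inc S A _) = _
        rw [tr_inc]
        rfl
      exact l1.trans r1.symm
  rw [h4]
  exact h1

end

/-- **STP.** -/
theorem stp (hMOV : S_MOV.{u}) (hTRN : S_TRN.{u}) (hRCH : S_RCH.{u}) : S_STP.{u} := by
  intro R V S W _ _ _ _ _ _ _ _ _ _ _ _ _ _ _ _ _ _ hd e A x x' hL hx hi hr
  induction hr with
  | refl => exact ⟨A, (hTRN R V S W hd e A A A x x x).1 hL⟩
  | @tail b c hb hm ih =>
    obtain ⟨A1, E1⟩ := ih
    obtain ⟨hx1, hi1, -⟩ := hRCH V e x b hx hi hb
    obtain ⟨A2, E2⟩ := stp_one hMOV hd E1.lev hx1 hi1 hm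
    exact ⟨A2, (hTRN R V S W hd e A A1 A2 x b c).2 E1 E2⟩

end Pool.Agent.Helper10.MU
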