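import Pool.Agent.Helper10.MU.Stm

set_option autoImplicit false

open IsLocalRing

universe u

namespace Pool.Agent.Helper10.MU

/-- an element of smallest value -/
theorem val_min {F : Type*} [Field F] (L : Subfield F) (O : Subring F)
    (hO : ∀ x ∈ L, x ∈ O ∨ x⁻¹ ∈ O) {ι : Type*} [DecidableEq ι] (S : Finset ι) (g : ι → F)
    (hg : ∀ j ∈ S, g j ∈ L) (h0 : ∀ j ∈ S, g j ≠ 0) (hS : S.Nonempty) :
    ∃ j₀ ∈ S, ∀ j ∈ S, g j / g j₀ ∈ O := by
  induction S using Finset.induction_on with
  | empty => exact absurd hS (by simp)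
  | insert a S ha ih =>
    by_cases hne : S.Nonempty
    · obtain ⟨j₀, hj₀, h1⟩ := ih (fun j hj => hg j (Finset.mem_insert_of_mem hj))
        (fun j hj => h0 j (Finset.mem_insert_of_mem hj)) hne
      have hga := h0 a (Finset.mem_insert_self a S)
      have hg0 := h0 j₀ (Finset.mem_insert_of_mem hj₀)
      have hL : g a / g j₀ ∈ L := L.div_mem (hg a (Finset.mem_insert_self a S))
        (hg j₀ (Finset.mem_insert_of_mem hj₀))
      rcases hO _ hL with h2 | h2
      · refine ⟨j₀, Finset.mem_insert_of_mem hj₀, ?_⟩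
        intro j hj
        rcases Finset.mem_insert.mp hj with rfl | hj
        · exact h2
        · exact h1 j hj
      · refine ⟨a, Finset.mem_insert_self a S, ?_⟩
        intro j hj
        rcases Finset.mem_insert.mp hj with rfl | hj
        · rw [div_self hga]; exact O.one_mem
        · have h3 : g j / g a = (g j / g j₀) * (g a / g j₀)⁻¹ := by
            field_simp
          rw [h3]
          exact O.mul_mem (h1 j hj) h2
    · rw [Finset.not_nonempty_iff_eq_empty] at hne
      subst hne
      refine ⟨a, Finset.mem_insert_self a ∅, ?_⟩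
      intro j hj
      have : j = a := by simpa using hj
      subst this
      rw [div_self (h0 j (Finset.mem_insert_self j ∅))]
      exact O.one_mem

/-- the statement over a field -/
theorem val_field {F : Type*} [Field F] (L : Subfield F) (O : Subring F)
    (hOL : ∀ x ∈ O, x ∈ L)
    (hO : ∀ x ∈ L, x ∈ O ∨ x⁻¹ ∈ O) {ι : Type*} [DecidableEq ι] : ∀ (h : ℕ) (S : Finset ι)
    (v : ι → Fin h → F), (∀ j ∈ S, ∀ k, v j k ∈ L) →
    ∃ T ⊆ S, T.card ≤ h ∧ ∀ j ∈ S, ∃ c : ι → F, (∀ i, c i ∈ O) ∧
      ∀ k, v j k = ∑ i ∈ T, c i * v i k := by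
  classical
  intro h
  induction h with
  | zero =>
    intro S v _
    exact ⟨∅, Finset.empty_subset _, by simp, fun j _ => ⟨fun _ => 0, fun _ => O.zero_mem,
      fun k => k.elim0⟩⟩
  | succ h ih =>
    intro S v hv
    by_cases hz : ∀ j ∈ S, v j 0 = 0
    · obtain ⟨T, hT, hc, hj⟩ := ih S (fun j k => v j k.succ) (fun j hj k => hv j hj _)
      refine ⟨T, hT, by omega, ?_⟩
      intro j hjS
      obtain ⟨c, hc1, hc2⟩ := hj j hjS
      refine ⟨c, hc1, ?_⟩
      intro k
      refine Fin.cases ?_ (fun k => hc2 k) k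
      rw [hz j hjS, Finset.sum_eq_zero]
      intro i hi
      rw [hz i (hT hi), mul_zero]
    · push Not at hz
      obtain ⟨j₁, hj₁, hne⟩ := hz
      obtain ⟨j₀, hj₀, hmin⟩ := val_min L O hO (S.filter fun j => v j 0 ≠ 0) (fun j => v j 0)
        (fun j hj => hv j (Finset.mem_filter.mp hj).1 0) (fun j hj => (Finset.mem_filter.mp hj).2)
        ⟨j₁, Finset.mem_filter.mpr ⟨hj₁, hne⟩⟩
      rw [Finset.mem_filter] at hj₀
      have hr : ∀ j ∈ S, v j 0 / v j₀ 0 ∈ O := by
        intro j hj
        by_cases h1 : v j 0 = 0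
        · rw [h1, zero_div]; exact O.zero_mem
        · exact hmin j (Finset.mem_filter.mpr ⟨hj, h1⟩)
      obtain ⟨T, hT, hc, hj⟩ := ih (S.erase j₀)
        (fun j k => v j k.succ - v j 0 / v j₀ 0 * v j₀ k.succ) (fun j hj k =>
          L.sub_mem (hv j (Finset.mem_of_mem_erase hj) _)
            (L.mul_mem (hOL _ (hr j (Finset.mem_of_mem_erase hj))) (hv j₀ hj₀.1 _)))
      have hj0T : j₀ ∉ T := fun h1 => Finset.notMem_erase j₀ S (hT h1)
      refine ⟨insert j₀ T, ?_, ?_, ?_⟩
      · intro i hi
        rcases Finset.mem_insert.mp hi with rfl | hi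
        · exact hj₀.1
        · exact Finset.mem_of_mem_erase (hT hi)
      · rw [Finset.card_insert_of_notMem hj0T]; omega
      · intro j hjS
        by_cases hjj : j = j₀
        · subst hjj
          refine ⟨fun i => if i = j then 1 else 0, fun i => ?_, ?_⟩
          · beta_reduce
            split_ifs
            · exact O.one_mem
            · exact O.zero_mem
          · intro k
            beta_reduce
            rw [Finset.sum_insert hj0T, if_pos rfl, one_mul, Finset.sum_eq_zero, add_zero]
            intro i hi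
            have hne' : i ≠ j := fun h1 => hj0T (by rw [← h1]; exact hi)
            rw [if_neg hne', zero_mul]
        · obtain ⟨c, hc1, hc2⟩ := hj j (Finset.mem_erase.mpr ⟨hjj, hjS⟩)
          have hTS : ∀ i ∈ T, i ∈ S := fun i hi => Finset.mem_of_mem_erase (hT hi)
          refine ⟨fun i => if i = j₀ then v j 0 / v j₀ 0 - ∑ i ∈ T, c i * (v i 0 / v j₀ 0) else c i,
            fun i => ?_, ?_⟩
          · beta_reduce
            split_ifs
            · exact O.sub_mem (hr j hjS) (O.sum_mem fun i hi => O.mul_mem (hc1 i) (hr i (hTS i hi)))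
            · exact hc1 i
          · intro k
            have hs : ∑ i ∈ T, (if i = j₀ then v j 0 / v j₀ 0 - ∑ i ∈ T, c i * (v i 0 / v j₀ 0)
                else c i) * v i k = ∑ i ∈ T, c i * v i k := by
              apply Finset.sum_congr rfl
              intro i hi
              have hne' : i ≠ j₀ := fun h1 => hj0T (by rw [← h1]; exact hi)
              rw [if_neg hne']
            beta_reduce
            rw [Finset.sum_insert hj0T, if_pos rfl, hs]
            refine Fin.cases ?_ (fun k => ?_) k
            · rw [sub_mul, div_mul_cancel₀ _ hj₀.2, Finset.sum_mul]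
              have h2 : ∑ i ∈ T, c i * (v i 0 / v j₀ 0) * v j₀ 0 = ∑ i ∈ T, c i * v i 0 := by
                apply Finset.sum_congr rfl
                intro i _
                rw [mul_assoc, div_mul_cancel₀ _ hj₀.2]
              rw [h2]
              ring
            · have h1 := hc2 k
              rw [sub_eq_iff_eq_add] at h1
              rw [h1]
              have h2 : ∑ i ∈ T, c i * (v i k.succ - v i 0 / v j₀ 0 * v j₀ k.succ) =
                  ∑ i ∈ T, c i * v i k.succ - (∑ i ∈ T, c i * (v i 0 / v j₀ 0)) * v j₀ k.succ := by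
                rw [Finset.sum_mul, ← Finset.sum_sub_distrib]
                apply Finset.sum_congr rfl
                intro i _
                ring
              rw [h2]
              ring

theorem val : S_VAL.{u} := by
  classical
  intro B W _ _ _ _ f N h m s hs
  set F := FractionRing W
  set g : B → F := fun b => algebraMap W F (f b) with hg
  have hg0 : ∀ b, g b = 0 ↔ f b = 0 := fun b => by
    rw [hg]
    exact map_eq_zero_iff _ (IsFractionRing.injective W F)
  have g_add : ∀ a b, g (a + b) = g a + g b := fun a b => by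
    simp only [hg, map_add]
  have g_mul : ∀ a b, g (a * b) = g a * g b := fun a b => by
    simp only [hg, map_mul]
  have g_neg : ∀ a, g (-a) = - g a := fun a => by
    simp only [hg, map_neg]
  have g_one : g 1 = 1 := by simp only [hg, map_one]
  have g_zero : g 0 = 0 := by simp only [hg, map_zero]
  -- the field of fractions of the image
  let L : Subfield F :=
    { carrier := {x | ∃ a b, f b ≠ 0 ∧ x = g a / g b}
      mul_mem' := by
        rintro _ _ ⟨a, b, hb, rfl⟩ ⟨c, d, hd, rfl⟩
        refine ⟨a * c, b * d, ?_, ?_⟩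
        · rw [map_mul]; exact mul_ne_zero hb hd
        · rw [g_mul, g_mul, div_mul_div_comm]
      one_mem' := ⟨1, 1, by rw [map_one]; exact one_ne_zero, by rw [g_one, div_one]⟩
      add_mem' := by
        rintro _ _ ⟨a, b, hb, rfl⟩ ⟨c, d, hd, rfl⟩
        refine ⟨a * d + b * c, b * d, ?_, ?_⟩
        · rw [map_mul]; exact mul_ne_zero hb hd
        · rw [g_add, g_mul, g_mul, g_mul,
            div_add_div _ _ (fun h1 => hb ((hg0 b).1 h1)) (fun h1 => hd ((hg0 d).1 h1))]
      zero_mem' := ⟨0, 1, by rw [map_one]; exact one_ne_zero, by rw [g_zero, zero_div]⟩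
      neg_mem' := by
        rintro _ ⟨a, b, hb, rfl⟩
        exact ⟨-a, b, hb, by rw [g_neg, neg_div]⟩
      inv_mem' := by
        rintro _ ⟨a, b, hb, rfl⟩
        by_cases ha : f a = 0
        · refine ⟨0, 1, by rw [map_one]; exact one_ne_zero, ?_⟩
          rw [(hg0 a).2 ha, zero_div, inv_zero, g_zero, zero_div]
        · exact ⟨b, a, ha, by rw [inv_div]⟩ }
  let O : Subring F :=
    { carrier := {x | ∃ a b, f b ≠ 0 ∧ f b ∣ f a ∧ x = g a / g b}
      mul_mem' := by
        rintro _ _ ⟨a, b, hb, hab, rfl⟩ ⟨c, d, hd, hcd, rfl⟩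
        refine ⟨a * c, b * d, ?_, ?_, ?_⟩
        · rw [map_mul]; exact mul_ne_zero hb hd
        · rw [map_mul, map_mul]; exact mul_dvd_mul hab hcd
        · rw [g_mul, g_mul, div_mul_div_comm]
      one_mem' := ⟨1, 1, by rw [map_one]; exact one_ne_zero, dvd_refl _, by rw [g_one, div_one]⟩
      add_mem' := by
        rintro _ _ ⟨a, b, hb, hab, rfl⟩ ⟨c, d, hd, hcd, rfl⟩
        refine ⟨a * d + b * c, b * d, ?_, ?_, ?_⟩
        · rw [map_mul]; exact mul_ne_zero hb hd
        · rw [map_mul, map_add, map_mul, map_mul]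
          exact dvd_add (mul_dvd_mul_right hab _) (mul_dvd_mul_left _ hcd)
        · rw [g_add, g_mul, g_mul, g_mul,
            div_add_div _ _ (fun h1 => hb ((hg0 b).1 h1)) (fun h1 => hd ((hg0 d).1 h1))]
      zero_mem' := ⟨0, 1, by rw [map_one]; exact one_ne_zero, by rw [map_zero]; exact dvd_zero _,
        by rw [g_zero, zero_div]⟩
      neg_mem' := by
        rintro _ ⟨a, b, hb, hab, rfl⟩
        exact ⟨-a, b, hb, by rw [map_neg]; exact (dvd_neg).mpr hab, by rw [g_neg, neg_div]⟩ }
  have hOL : ∀ x ∈ O, x ∈ L := by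
    rintro _ ⟨a, b, hb, _, rfl⟩
    exact ⟨a, b, hb, rfl⟩
  have hO : ∀ x ∈ L, x ∈ O ∨ x⁻¹ ∈ O := by
    rintro _ ⟨a, b, hb, rfl⟩
    by_cases ha : f a = 0
    · left
      exact ⟨a, b, hb, by rw [ha]; exact dvd_zero _, rfl⟩
    · rcases ValuationRing.dvd_total (f b) (f a) with h1 | h1
      · left; exact ⟨a, b, hb, h1, rfl⟩
      · right; exact ⟨b, a, ha, h1, by rw [inv_div]⟩
  obtain ⟨T, _, hT, hc⟩ := val_field L O hOL hO h Finset.univ
    (fun (j : Fin N) (k : Fin h) => g (m j k) / g (s j)) (fun j _ k => ⟨m j k, s j, hs j, rfl⟩)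
  choose! c hc1 hc2 using hc
  have hc3 : ∀ j i : Fin N, ∃ a b, f b ≠ 0 ∧ f b ∣ f a ∧ c j i = g a / g b :=
    fun j i => hc1 j (Finset.mem_univ j) i
  choose α β h1 h2 h3 using hc3
  refine ⟨T, α, β, hT, fun j i => ⟨h1 j i, h2 j i⟩, ?_⟩
  intro j k
  have h4 := hc2 j (Finset.mem_univ j) k
  show g (m j k) / g (s j) = _
  rw [h4]
  apply Finset.sum_congr rfl
  intro i _
  rw [h3]

end Pool.Agent.Helper10.MU
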